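import Pool.Agent.Lib.MP_fc64da_nt.Q.Defs

/-!
The parameters. P = s^2 - 3t is half of the sum of the squares (z_i - z_j)^2, so
|P| is at most q / 2; 4 P^3 - U^2 = 27 prod (z_i - z_j)^2, so 27 a^2 |D| is at most q^3
(arithmetic - geometric mean); q^2 is at most 12 |D|.
-/

namespace FQ

private theorem alg_amgm {x y v : ℝ} (hx : 0 ≤ x) (hy : 0 ≤ y) (hv : 0 ≤ v) :
    27 * (x * y * v) ≤ (x + y + v) ^ 3 := by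
  have h1 : (x + y + v) ^ 3 - 27 * (x * y * v) =
      (x + y + v) / 2 * ((x - y) ^ 2 + (x - v) ^ 2 + (y - v) ^ 2) +
        3 * (x * (y - v) ^ 2 + y * (x - v) ^ 2 + v * (x - y) ^ 2) := by ring
  have h2 : 0 ≤ (x + y + v) / 2 * ((x - y) ^ 2 + (x - v) ^ 2 + (y - v) ^ 2) +
      3 * (x * (y - v) ^ 2 + y * (x - v) ^ 2 + v * (x - y) ^ 2) := by positivity
  linarith

theorem alg (D a s t n : ℤ) (ha : 1 ≤ a) (hD : D ≠ 0) (z₁ z₂ z₃ : ℂ)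
    (h1 : z₁ + z₂ + z₃ = s) (h2 : z₁ * z₂ + z₁ * z₃ + z₂ * z₃ = t) (h3 : z₁ * z₂ * z₃ = n)
    (h4 : ((z₁ - z₂) * (z₁ - z₃) * (z₂ - z₃)) ^ 2 = (a : ℂ) ^ 2 * (D : ℂ))
    (hq : ‖z₁ - z₂‖ ^ 2 + ‖z₁ - z₃‖ ^ 2 + ‖z₂ - z₃‖ ^ 2 ≤ 2 * √(3 * ((|D| : ℤ) : ℝ))) :
    Par D a (s ^ 2 - 3 * t) (2 * s ^ 3 - 9 * s * t + 27 * n) := by
  obtain ⟨w, hw⟩ : ∃ w : ℝ, w = √(3 * ((|D| : ℤ) : ℝ)) := ⟨_, rfl⟩
  have hD1 : (1 : ℤ) ≤ |D| := Int.one_le_abs hD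
  have hD2 : (1 : ℝ) ≤ ((|D| : ℤ) : ℝ) := by exact_mod_cast hD1
  have hw2 : w ^ 2 = 3 * ((|D| : ℤ) : ℝ) := by
    rw [hw, Real.sq_sqrt (by linarith)]
  have hw0 : 0 < w := by
    rw [hw]
    exact Real.sqrt_pos.2 (by linarith)
  rw [← hw] at hq
  refine ⟨ha, ?_, ?_, ?_⟩
  · have h5 : (4 : ℂ) * ((s : ℂ) ^ 2 - 3 * t) ^ 3 =
        (2 * (s : ℂ) ^ 3 - 9 * s * t + 27 * n) ^ 2 + 27 * (a : ℂ) ^ 2 * D := by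
      rw [mul_assoc 27 ((a : ℂ) ^ 2), ← h4, ← h1, ← h2, ← h3]
      ring
    exact_mod_cast h5
  · have h5 : (((s ^ 2 - 3 * t : ℤ) : ℤ) : ℂ) =
        ((z₁ - z₂) ^ 2 + (z₁ - z₃) ^ 2 + (z₂ - z₃) ^ 2) / 2 := by
      push_cast
      rw [← h1, ← h2]
      ring
    have h6 : |((s ^ 2 - 3 * t : ℤ) : ℝ)| ≤ w := by
      rw [← Complex.norm_intCast, h5, norm_div]
      have h7 : ‖(z₁ - z₂) ^ 2 + (z₁ - z₃) ^ 2 + (z₂ - z₃) ^ 2‖ ≤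
          ‖z₁ - z₂‖ ^ 2 + ‖z₁ - z₃‖ ^ 2 + ‖z₂ - z₃‖ ^ 2 := by
        refine (norm_add₃_le).trans ?_
        rw [norm_pow, norm_pow, norm_pow]
      have h8 : ‖(2 : ℂ)‖ = 2 := by simp
      rw [h8, div_le_iff₀ two_pos]
      linarith
    have h7 : ((s ^ 2 - 3 * t : ℤ) : ℝ) ^ 2 ≤ 3 * ((|D| : ℤ) : ℝ) := by
      rw [← hw2, ← sq_abs]
      exact pow_le_pow_left₀ (abs_nonneg _) h6 2
    exact_mod_cast h7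
  · have h5 := congrArg norm h4
    rw [norm_pow, norm_mul, norm_mul, norm_mul, norm_pow, Complex.norm_intCast,
      Complex.norm_intCast, sq_abs, ← Int.cast_abs] at h5
    have h6 := alg_amgm (sq_nonneg ‖z₁ - z₂‖) (sq_nonneg ‖z₁ - z₃‖) (sq_nonneg ‖z₂ - z₃‖)
    have h7 : (‖z₁ - z₂‖ ^ 2 + ‖z₁ - z₃‖ ^ 2 + ‖z₂ - z₃‖ ^ 2) ^ 3 ≤ (2 * w) ^ 3 :=
      pow_le_pow_left₀ (by positivity) hq 3
    have h8 : 27 * ((a : ℝ) ^ 2 * ((|D| : ℤ) : ℝ)) ≤ (2 * w) ^ 3 := by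
      rw [← h5]
      calc 27 * (‖z₁ - z₂‖ * ‖z₁ - z₃‖ * ‖z₂ - z₃‖) ^ 2
          = 27 * (‖z₁ - z₂‖ ^ 2 * ‖z₁ - z₃‖ ^ 2 * ‖z₂ - z₃‖ ^ 2) := by ring
        _ ≤ _ := h6.trans h7
    have h9 : 9 * (a : ℝ) ^ 2 ≤ 8 * w := by
      have h10 : 9 * (a : ℝ) ^ 2 * w ^ 2 ≤ 8 * w * w ^ 2 := by
        calc 9 * (a : ℝ) ^ 2 * w ^ 2 = 27 * ((a : ℝ) ^ 2 * ((|D| : ℤ) : ℝ)) := by
              rw [hw2]
              ring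
          _ ≤ (2 * w) ^ 3 := h8
          _ = 8 * w * w ^ 2 := by ring
      exact le_of_mul_le_mul_right h10 (by positivity)
    have h10 : (9 * (a : ℝ) ^ 2) ^ 2 ≤ (8 * w) ^ 2 := pow_le_pow_left₀ (by positivity) h9 2
    have h11 : 27 * (a : ℝ) ^ 4 ≤ 64 * ((|D| : ℤ) : ℝ) := by
      have h12 : (8 * w) ^ 2 = 64 * (3 * ((|D| : ℤ) : ℝ)) := by
        rw [mul_pow, hw2]
        norm_num
      rw [h12] at h10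
      have h13 : (9 * (a : ℝ) ^ 2) ^ 2 = 81 * (a : ℝ) ^ 4 := by ring
      rw [h13] at h10
      linarith
    exact_mod_cast h11

end FQ
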