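import Pool.Agent.Lib.MP_fc64da_nt.Q.Sz
import Pool.Agent.Lib.MP_14ee70_nt.Div

/-!
The double sum. For P not 0 the e with e^2 | 16 P^3 are divisors of 16 |P|^3, at most
C X^μ; for every e the sum of e / a over the multiples a of e up to A0 X is at most
1 + log (A0 X).
-/

namespace FQ

private theorem apS_one {e : ℕ} (he : 1 ≤ e) (N : ℕ) :
    ∑ a ∈ Finset.Icc 1 N, (if e ∣ a then (e : ℝ) / a else 0) ≤ 1 + Real.log N := by
  have h1 : ∑ b ∈ Finset.Icc 1 N, ((b : ℝ))⁻¹ ≤ 1 + Real.log N := by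
    have h2 := harmonic_le_one_add_log N
    rw [harmonic_eq_sum_Icc] at h2
    push_cast at h2
    exact h2
  refine le_trans ?_ h1
  rw [← Finset.sum_filter]
  have h3 : ∑ a ∈ (Finset.Icc 1 N).filter (fun a => e ∣ a), (e : ℝ) / a =
      ∑ b ∈ ((Finset.Icc 1 N).filter (fun a => e ∣ a)).image (fun a => a / e), ((b : ℝ))⁻¹ := by
    rw [Finset.sum_image]
    · refine Finset.sum_congr rfl fun a ha => ?_
      obtain ⟨ha1, b, rfl⟩ := Finset.mem_filter.1 ha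
      have ha2 := (Finset.mem_Icc.1 ha1).1
      have hb : b ≠ 0 := by
        rintro rfl
        rw [mul_zero] at ha2
        omega
      rw [Nat.mul_div_cancel_left b (by omega)]
      have he' : (e : ℝ) ≠ 0 := by
        have : (0 : ℝ) < e := by exact_mod_cast he
        exact this.ne'
      have hb' : (b : ℝ) ≠ 0 := by exact_mod_cast hb
      push_cast
      field_simp
    · intro a ha a' ha' h
      obtain ⟨_, b, rfl⟩ := Finset.mem_filter.1 (Finset.mem_coe.1 ha)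
      obtain ⟨_, b', rfl⟩ := Finset.mem_filter.1 (Finset.mem_coe.1 ha')
      simp only [Nat.mul_div_cancel_left _ (show 0 < e by omega)] at h
      rw [h]
  rw [h3]
  refine Finset.sum_le_sum_of_subset_of_nonneg ?_ fun b _ _ => by positivity
  intro b hb
  obtain ⟨a, ha, rfl⟩ := Finset.mem_image.1 hb
  obtain ⟨ha1, c, rfl⟩ := Finset.mem_filter.1 ha
  obtain ⟨ha2, ha3⟩ := Finset.mem_Icc.1 ha1
  simp only [Nat.mul_div_cancel_left _ (show 0 < e by omega)]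
  refine Finset.mem_Icc.2 ⟨?_, ?_⟩
  · rcases Nat.eq_zero_or_pos c with rfl | hc
    · rw [mul_zero] at ha2
      omega
    · exact hc
  · exact (Nat.le_mul_of_pos_left c (by omega)).trans ha3

theorem sum_e (μ : ℝ) (hμ : 0 < μ) : ∃ C : ℝ, 0 < C ∧ ∀ (X : ℕ), 1 ≤ X → ∀ P ∈ PI X,
    ∑ a ∈ Finset.Icc 1 (A0 X), ∑ e ∈ a.divisors.filter
      (fun e : ℕ => ((e : ℤ)) ^ 2 ∣ 16 * P ^ 3), (e : ℝ) / a ≤ C * (X : ℝ) ^ μ := by
  obtain ⟨K, hK1, hK⟩ := MP14ee70.card_divisors_le (μ / 6) (by positivity)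
  have hK0 : 0 < K := by linarith
  refine ⟨K * (432 : ℝ) ^ (μ / 6) * (1 + (3 : ℝ) ^ (μ / 2) / (μ / 2)), by positivity, ?_⟩
  intro X hX P hP
  have hX0 : (0 : ℝ) < X := by exact_mod_cast hX
  have hX1 : (1 : ℝ) ≤ X := by exact_mod_cast hX
  unfold PI at hP
  obtain ⟨hP0, hP1⟩ := Finset.mem_erase.1 hP
  obtain ⟨hP2, hP3⟩ := Finset.mem_Icc.1 hP1
  have hPc := P0_crude X hX
  have hNc := A0_crude X hX
  have hN1 := one_le_A0 X hX
  have hPn : P.natAbs ≤ 3 * X := by omega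
  have hPn0 : P.natAbs ≠ 0 := Int.natAbs_ne_zero.2 hP0
  obtain ⟨N, hN⟩ : ∃ N, N = A0 X := ⟨_, rfl⟩
  rw [← hN] at hNc hN1 ⊢
  obtain ⟨m, hm⟩ : ∃ m, m = 16 * P.natAbs ^ 3 := ⟨_, rfl⟩
  have hm0 : m ≠ 0 := by rw [hm]; positivity
  have s1 : ∑ a ∈ Finset.Icc 1 N, ∑ e ∈ a.divisors.filter
      (fun e : ℕ => ((e : ℤ)) ^ 2 ∣ 16 * P ^ 3), (e : ℝ) / a ≤
      ∑ a ∈ Finset.Icc 1 N, ∑ e ∈ m.divisors, (if e ∣ a then (e : ℝ) / a else 0) := by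
    refine Finset.sum_le_sum fun a ha => ?_
    rw [← Finset.sum_filter]
    refine Finset.sum_le_sum_of_subset_of_nonneg ?_ fun e _ _ => by positivity
    intro e he
    obtain ⟨h1, h2⟩ := Finset.mem_filter.1 he
    refine Finset.mem_filter.2 ⟨Nat.mem_divisors.2 ⟨?_, hm0⟩, Nat.dvd_of_mem_divisors h1⟩
    have h3 : (e : ℤ) ∣ 16 * P ^ 3 := (dvd_pow_self _ two_ne_zero).trans h2
    rw [Int.natCast_dvd, Int.natAbs_mul, Int.natAbs_pow] at h3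
    rw [hm]
    exact h3
  have s2 : ∑ a ∈ Finset.Icc 1 N, ∑ e ∈ m.divisors, (if e ∣ a then (e : ℝ) / a else 0) ≤
      m.divisors.card * (1 + Real.log N) := by
    rw [Finset.sum_comm, ← nsmul_eq_mul]
    refine Finset.sum_le_card_nsmul _ _ _ fun e he => ?_
    exact apS_one (Nat.pos_of_mem_divisors he) N
  have s3 : (m.divisors.card : ℝ) ≤ K * (432 : ℝ) ^ (μ / 6) * (X : ℝ) ^ (μ / 2) := by
    refine (hK m hm0).trans ?_
    have h1 : (m : ℝ) ≤ 432 * (X : ℝ) ^ (3 : ℝ) := by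
      have h2 : m ≤ 432 * X ^ 3 := by
        rw [hm]
        calc 16 * P.natAbs ^ 3 ≤ 16 * (3 * X) ^ 3 :=
              Nat.mul_le_mul_left _ (Nat.pow_le_pow_left hPn 3)
          _ = 432 * X ^ 3 := by ring
      have h3 : (X : ℝ) ^ (3 : ℝ) = (X : ℝ) ^ (3 : ℕ) := by
        rw [← Real.rpow_natCast]
        norm_num
      rw [h3]
      exact_mod_cast h2
    have h4 : (m : ℝ) ^ (μ / 6) ≤ (432 * (X : ℝ) ^ (3 : ℝ)) ^ (μ / 6) :=
      Real.rpow_le_rpow (Nat.cast_nonneg m) h1 (by positivity)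
    have h5 : (432 * (X : ℝ) ^ (3 : ℝ)) ^ (μ / 6) = (432 : ℝ) ^ (μ / 6) * (X : ℝ) ^ (μ / 2) := by
      rw [Real.mul_rpow (by norm_num) (Real.rpow_nonneg hX0.le _), ← Real.rpow_mul hX0.le]
      congr 2
      ring
    rw [h5] at h4
    calc K * (m : ℝ) ^ (μ / 6) ≤ K * ((432 : ℝ) ^ (μ / 6) * (X : ℝ) ^ (μ / 2)) :=
          mul_le_mul_of_nonneg_left h4 hK0.le
      _ = K * (432 : ℝ) ^ (μ / 6) * (X : ℝ) ^ (μ / 2) := by ring
  have s4 : 1 + Real.log N ≤ (1 + (3 : ℝ) ^ (μ / 2) / (μ / 2)) * (X : ℝ) ^ (μ / 2) := by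
    have hN0 : (0 : ℝ) < N := by exact_mod_cast hN1
    have h1 : Real.log N ≤ Real.log (3 * X) := Real.log_le_log hN0 (by exact_mod_cast hNc)
    have h2 := Real.log_le_rpow_div (x := 3 * (X : ℝ)) (by positivity)
      (show 0 < μ / 2 by positivity)
    have h3 : (3 * (X : ℝ)) ^ (μ / 2) = (3 : ℝ) ^ (μ / 2) * (X : ℝ) ^ (μ / 2) :=
      Real.mul_rpow (by norm_num) hX0.le
    have h4 : 1 ≤ (X : ℝ) ^ (μ / 2) := Real.one_le_rpow hX1 (by positivity)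
    rw [h3] at h2
    calc 1 + Real.log N ≤ (X : ℝ) ^ (μ / 2) +
          (3 : ℝ) ^ (μ / 2) * (X : ℝ) ^ (μ / 2) / (μ / 2) := add_le_add h4 (h1.trans h2)
      _ = (1 + (3 : ℝ) ^ (μ / 2) / (μ / 2)) * (X : ℝ) ^ (μ / 2) := by ring
  have hlog : 0 ≤ 1 + Real.log N := by
    have h1 : (1 : ℝ) ≤ N := by exact_mod_cast hN1
    have := Real.log_nonneg h1
    linarith
  refine (s1.trans s2).trans ?_
  calc (m.divisors.card : ℝ) * (1 + Real.log N) ≤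
        (K * (432 : ℝ) ^ (μ / 6) * (X : ℝ) ^ (μ / 2)) *
          ((1 + (3 : ℝ) ^ (μ / 2) / (μ / 2)) * (X : ℝ) ^ (μ / 2)) :=
        mul_le_mul s3 s4 hlog (by positivity)
    _ = K * (432 : ℝ) ^ (μ / 6) * (1 + (3 : ℝ) ^ (μ / 2) / (μ / 2)) *
          ((X : ℝ) ^ (μ / 2) * (X : ℝ) ^ (μ / 2)) := by ring
    _ = K * (432 : ℝ) ^ (μ / 6) * (1 + (3 : ℝ) ^ (μ / 2) / (μ / 2)) * (X : ℝ) ^ μ := by
        rw [← Real.rpow_add hX0, add_halves]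

theorem div_aq (μ : ℝ) (hμ : 0 < μ) : ∃ C : ℝ, 0 < C ∧ ∀ (X : ℕ), 1 ≤ X → ∀ a q : ℕ, 1 ≤ a →
    a ≤ A0 X → 1 ≤ q → q ≤ 2 * X → ((a ^ 2 * q).divisors.card : ℝ) ≤ C * (X : ℝ) ^ μ := by
  obtain ⟨K, hK1, hK⟩ := MP14ee70.card_divisors_le (μ / 3) (by positivity)
  have hK0 : 0 < K := by linarith
  refine ⟨K * (18 : ℝ) ^ (μ / 3), by positivity, ?_⟩
  intro X hX a q ha haN hq hqX
  have hX0 : (0 : ℝ) < X := by exact_mod_cast hX
  have hNc := A0_crude X hX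
  have hm0 : a ^ 2 * q ≠ 0 := Nat.mul_ne_zero (pow_ne_zero 2 (by omega)) (by omega)
  refine (hK _ hm0).trans ?_
  have h1 : ((a ^ 2 * q : ℕ) : ℝ) ≤ 18 * (X : ℝ) ^ (3 : ℝ) := by
    have h2 : a ^ 2 * q ≤ 18 * X ^ 3 := by
      calc a ^ 2 * q ≤ (3 * X) ^ 2 * (2 * X) :=
            Nat.mul_le_mul (Nat.pow_le_pow_left (haN.trans hNc) 2) hqX
        _ = 18 * X ^ 3 := by ring
    have h3 : (X : ℝ) ^ (3 : ℝ) = (X : ℝ) ^ (3 : ℕ) := by
      rw [← Real.rpow_natCast]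
      norm_num
    rw [h3]
    exact_mod_cast h2
  have h4 : ((a ^ 2 * q : ℕ) : ℝ) ^ (μ / 3) ≤ (18 * (X : ℝ) ^ (3 : ℝ)) ^ (μ / 3) :=
    Real.rpow_le_rpow (Nat.cast_nonneg _) h1 (by positivity)
  have h5 : (18 * (X : ℝ) ^ (3 : ℝ)) ^ (μ / 3) = (18 : ℝ) ^ (μ / 3) * (X : ℝ) ^ μ := by
    rw [Real.mul_rpow (by norm_num) (Real.rpow_nonneg hX0.le _), ← Real.rpow_mul hX0.le]
    congr 2
    ring
  rw [h5] at h4
  calc K * ((a ^ 2 * q : ℕ) : ℝ) ^ (μ / 3) ≤ K * ((18 : ℝ) ^ (μ / 3) * (X : ℝ) ^ μ) :=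
        mul_le_mul_of_nonneg_left h4 hK0.le
    _ = K * (18 : ℝ) ^ (μ / 3) * (X : ℝ) ^ μ := by ring

end FQ
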