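import Mathlib

/-!
Square roots modulo M = a^2 q, q squarefree. With a reference root U0 and
d = gcd (U - U0, M): d | U - U0 and M / d | U + U0; e = gcd (d, M / d) has e^2 | M, so e | a,
and e | 2 U0, so e^2 | 4 (4 P^3 - 27 a^2 r), e^2 | 16 P^3.
-/

namespace FQ

/-- the two divisibilities of a square root modulo `M`. -/
private theorem ap_two (M d : ℕ) (hM : 1 ≤ M) (k U U₀ : ℤ) (hU : (M : ℤ) ∣ U ^ 2 - k)
    (hU₀ : (M : ℤ) ∣ U₀ ^ 2 - k) (hd : d = Int.gcd (U - U₀) (M : ℤ)) :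
    0 < d ∧ d ∣ M ∧ (d : ℤ) ∣ U - U₀ ∧ ((M / d : ℕ) : ℤ) ∣ U + U₀ := by
  have hdM : d ∣ M := by
    rw [hd]
    exact_mod_cast Int.gcd_dvd_right (U - U₀) (M : ℤ)
  have hd0 : 0 < d := Nat.pos_of_dvd_of_pos hdM hM
  have hdU : (d : ℤ) ∣ U - U₀ := by
    rw [hd]
    exact Int.gcd_dvd_left (U - U₀) (M : ℤ)
  refine ⟨hd0, hdM, hdU, ?_⟩
  have h1 : (M : ℤ) ∣ (U - U₀) * (U + U₀) := by
    have h2 := dvd_sub hU hU₀
    have h3 : U ^ 2 - k - (U₀ ^ 2 - k) = (U - U₀) * (U + U₀) := by ring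
    rwa [h3] at h2
  have h2 : M ∣ (U - U₀).natAbs * (U + U₀).natAbs := by
    rw [← Int.natAbs_mul]
    exact Int.natCast_dvd.1 h1
  have hdx : d ∣ (U - U₀).natAbs := Int.natCast_dvd.1 hdU
  obtain ⟨x, hx⟩ := hdx
  obtain ⟨m, hm⟩ := hdM
  have hmd : M / d = m := by
    rw [hm]
    exact Nat.mul_div_cancel_left m hd0
  rw [hmd]
  have hcop : Nat.Coprime m x := by
    have h3 : d = Nat.gcd (d * x) (d * m) := by
      rw [← hx, ← hm]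
      exact hd
    rw [Nat.gcd_mul_left] at h3
    have h4 : Nat.gcd x m = 1 := Nat.eq_of_mul_eq_mul_left hd0 (by rw [← h3, mul_one])
    exact (Nat.coprime_iff_gcd_eq_one.2 h4).symm
  rw [hx, hm, mul_assoc] at h2
  have h5 : m ∣ x * (U + U₀).natAbs := Nat.dvd_of_mul_dvd_mul_left hd0 h2
  exact Int.natCast_dvd.2 (hcop.dvd_of_dvd_mul_left h5)

/-- a square dividing `a ^ 2 q`. -/
private theorem ap_sq (a q e : ℕ) (hq : Squarefree q) (ha : 1 ≤ a) (h : e ^ 2 ∣ a ^ 2 * q) :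
    e ∣ a := by
  have hg : 0 < Nat.gcd e a := Nat.gcd_pos_of_pos_right _ ha
  obtain ⟨g, e', a', hg', hc, he, ha'⟩ := Nat.exists_coprime' hg
  have h1 : e' ^ 2 ∣ q := by
    rw [he, ha', mul_pow, mul_pow, mul_comm (e' ^ 2), mul_comm (a' ^ 2), mul_assoc] at h
    have h2 : e' ^ 2 ∣ a' ^ 2 * q := Nat.dvd_of_mul_dvd_mul_left (pow_pos hg' 2) h
    exact (Nat.Coprime.pow 2 2 hc).dvd_of_dvd_mul_left h2
  have h2 : IsUnit e' := hq e' (by rwa [← sq])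
  rw [Nat.isUnit_iff] at h2
  rw [he, h2, one_mul, ha']
  exact dvd_mul_left _ _

theorem ap_e (a q d : ℕ) (hq : Squarefree q) (ha : 1 ≤ a) (P r U U₀ : ℤ)
    (hU : ((a ^ 2 * q : ℕ) : ℤ) ∣ U ^ 2 - (4 * P ^ 3 - 27 * a ^ 2 * r))
    (hU₀ : ((a ^ 2 * q : ℕ) : ℤ) ∣ U₀ ^ 2 - (4 * P ^ 3 - 27 * a ^ 2 * r))
    (hd : d = Int.gcd (U - U₀) ((a ^ 2 * q : ℕ) : ℤ)) :
    Nat.gcd d (a ^ 2 * q / d) ∣ a ∧
      ((Nat.gcd d (a ^ 2 * q / d) : ℕ) : ℤ) ^ 2 ∣ 16 * P ^ 3 := by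
  have hM : 1 ≤ a ^ 2 * q :=
    Nat.mul_pos (pow_pos ha 2) (Nat.pos_of_ne_zero hq.ne_zero)
  obtain ⟨hd0, hdM, h1, h2⟩ := ap_two (a ^ 2 * q) d hM _ U U₀ hU hU₀ hd
  have he1 : Nat.gcd d (a ^ 2 * q / d) ∣ d := Nat.gcd_dvd_left _ _
  have he2 : Nat.gcd d (a ^ 2 * q / d) ∣ a ^ 2 * q / d := Nat.gcd_dvd_right _ _
  have heM : Nat.gcd d (a ^ 2 * q / d) ^ 2 ∣ a ^ 2 * q := by
    rw [sq]
    refine (mul_dvd_mul he1 he2).trans ?_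
    rw [Nat.mul_div_cancel' hdM]
  generalize Nat.gcd d (a ^ 2 * q / d) = e at he1 he2 heM ⊢
  have hea : e ∣ a := ap_sq a q e hq ha heM
  refine ⟨hea, ?_⟩
  have h3 : (e : ℤ) ∣ U - U₀ := (Int.natCast_dvd_natCast.2 he1).trans h1
  have h4 : (e : ℤ) ∣ U + U₀ := (Int.natCast_dvd_natCast.2 he2).trans h2
  have h5 : (e : ℤ) ∣ 2 * U₀ := by
    have h6 := dvd_sub h4 h3
    have h7 : U + U₀ - (U - U₀) = 2 * U₀ := by ring
    rwa [h7] at h6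
  have h6 : (e : ℤ) ^ 2 ∣ (2 * U₀) ^ 2 := pow_dvd_pow_of_dvd h5 2
  have h7 : (e : ℤ) ^ 2 ∣ U₀ ^ 2 - (4 * P ^ 3 - 27 * a ^ 2 * r) := by
    refine dvd_trans ?_ hU₀
    exact_mod_cast Int.natCast_dvd_natCast.2 heM
  have h8 : (e : ℤ) ^ 2 ∣ (a : ℤ) ^ 2 := pow_dvd_pow_of_dvd (Int.natCast_dvd_natCast.2 hea) 2
  have h9 : 16 * P ^ 3 = (2 * U₀) ^ 2 - 4 * (U₀ ^ 2 - (4 * P ^ 3 - 27 * a ^ 2 * r)) +
      (a : ℤ) ^ 2 * (108 * r) := by ring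
  rw [h9]
  exact dvd_add (dvd_sub h6 (h7.mul_left 4)) (h8.mul_right _)

theorem ap_dvd (M d : ℕ) (hM : 1 ≤ M) (k U U' U₀ : ℤ) (hU : (M : ℤ) ∣ U ^ 2 - k)
    (hU' : (M : ℤ) ∣ U' ^ 2 - k) (hU₀ : (M : ℤ) ∣ U₀ ^ 2 - k)
    (hd : d = Int.gcd (U - U₀) (M : ℤ)) (hd' : d = Int.gcd (U' - U₀) (M : ℤ)) :
    ((M / Nat.gcd d (M / d) : ℕ) : ℤ) ∣ U - U' := by
  obtain ⟨hd0, hdM, h1, h2⟩ := ap_two M d hM k U U₀ hU hU₀ hd
  obtain ⟨-, -, h1', h2'⟩ := ap_two M d hM k U' U₀ hU' hU₀ hd'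
  have h3 : (d : ℤ) ∣ U - U' := by
    have h4 := dvd_sub h1 h1'
    have h5 : U - U₀ - (U' - U₀) = U - U' := by ring
    rwa [h5] at h4
  have h4 : ((M / d : ℕ) : ℤ) ∣ U - U' := by
    have h4 := dvd_sub h2 h2'
    have h5 : U + U₀ - (U' + U₀) = U - U' := by ring
    rwa [h5] at h4
  have h5 : Nat.lcm d (M / d) ∣ (U - U').natAbs :=
    Nat.lcm_dvd (Int.natCast_dvd.1 h3) (Int.natCast_dvd.1 h4)
  have h6 : Nat.lcm d (M / d) = M / Nat.gcd d (M / d) := by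
    rw [Nat.lcm, Nat.mul_div_cancel' hdM]
  rw [h6] at h5
  exact Int.natCast_dvd.2 h5

/-- integers in an interval of length L, pairwise congruent modulo N. -/
theorem card_ap (T : Finset ℤ) (N : ℕ) (hN : 1 ≤ N) (L : ℝ) (hL : 0 ≤ L)
    (h1 : ∀ u ∈ T, ∀ v ∈ T, (N : ℤ) ∣ u - v) (h2 : ∀ u ∈ T, ∀ v ∈ T, ((u - v : ℤ) : ℝ) ≤ L) :
    (T.card : ℝ) ≤ 1 + L / N := by
  have hN0 : (0 : ℝ) < N := by
    have h : 0 < N := hN
    exact_mod_cast h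
  rcases T.eq_empty_or_nonempty with rfl | hT
  · rw [Finset.card_empty, Nat.cast_zero]
    positivity
  have hmin := T.min'_mem hT
  have hmap : ∀ u ∈ T, (u - T.min' hT) / (N : ℤ) ∈ Finset.Icc (0 : ℤ) ⌊L / N⌋ := by
    intro u hu
    obtain ⟨k, hk⟩ := h1 u hu _ hmin
    have hNz : (0 : ℤ) < N := by exact_mod_cast hN
    rw [hk, Int.mul_ediv_cancel_left k hNz.ne', Finset.mem_Icc]
    have h3 : 0 ≤ u - T.min' hT := sub_nonneg.2 (T.min'_le u hu)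
    refine ⟨?_, ?_⟩
    · rw [hk] at h3
      exact nonneg_of_mul_nonneg_right h3 hNz
    · rw [Int.le_floor, le_div_iff₀ hN0]
      have h4 := h2 u hu _ hmin
      rw [hk] at h4
      push_cast at h4
      linarith
  have hinj : Set.InjOn (fun u : ℤ => (u - T.min' hT) / (N : ℤ)) T := by
    intro u hu v hv huv
    have hu' := Int.ediv_mul_cancel (h1 u hu _ hmin)
    have hv' := Int.ediv_mul_cancel (h1 v hv _ hmin)
    simp only at huv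
    rw [huv] at hu'
    linarith
  have hcard := Finset.card_le_card_of_injOn _ hmap hinj
  rw [Int.card_Icc, sub_zero] at hcard
  have hfl : 0 ≤ ⌊L / N⌋ := Int.floor_nonneg.2 (by positivity)
  have h5 : ((⌊L / N⌋ + 1).toNat : ℝ) = (⌊L / N⌋ : ℝ) + 1 := by
    have h6 : (((⌊L / N⌋ + 1).toNat : ℤ) : ℝ) = ((⌊L / N⌋ + 1 : ℤ) : ℝ) := by
      rw [Int.toNat_of_nonneg (by omega)]
    rw [Int.cast_natCast, Int.cast_add, Int.cast_one] at h6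
    exact h6
  have h7 : (T.card : ℝ) ≤ ((⌊L / N⌋ + 1).toNat : ℝ) := by exact_mod_cast hcard
  rw [h5] at h7
  have h8 := Int.floor_le (L / N)
  linarith

end FQ
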