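import Pool.Agent.Lib.MP_fc64da_nt.Q.Fam
import Pool.Agent.Lib.MP_fc64da_nt.Q.ApA

/-!
The number of U for given (a, P) and discriminants D ≡ r modulo q: M = a^2 q divides
U^2 - (4 P^3 - 27 a^2 r). Nonnegative U, U' satisfy
|U - U'|^2 ≤ |U^2 - U'^2| ≤ 54 a^2 X, so |U - U'| ≤ 8 a √X. For every divisor d of M the
U with gcd (U - U0, M) = d are at most 1 + 8 a √X e / M, e = gcd (d, M / d) (card_ap, ap_dvd),
and e | a, e^2 | 16 P^3 (ap_e). The negative U are the negatives of positive ones.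
-/

namespace FQ

private lemma diff_le {a : ℕ} {X : ℕ} {u v D D' k : ℤ} (hu0 : 0 ≤ u) (hv0 : 0 ≤ v)
    (hD : |D| ≤ X) (hD' : |D'| ≤ X) (hu : k = u ^ 2 + 27 * a ^ 2 * D)
    (hv : k = v ^ 2 + 27 * a ^ 2 * D') : ((u - v : ℤ) : ℝ) ≤ 8 * a * √(X : ℝ) := by
  rcases le_total u v with h | h
  · have h1 : ((u - v : ℤ) : ℝ) ≤ 0 := by
      have : u - v ≤ 0 := by linarith
      exact_mod_cast this
    have h2 : 0 ≤ 8 * (a : ℝ) * √(X : ℝ) := by positivity
    linarith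
  · have hD1 := abs_le.1 hD
    have hD2 := abs_le.1 hD'
    have ha0 : (0 : ℤ) ≤ 27 * (a : ℤ) ^ 2 := by positivity
    have h1 : (u - v) ^ 2 ≤ 54 * (a : ℤ) ^ 2 * X := by
      have e1 : (u - v) ^ 2 ≤ u ^ 2 - v ^ 2 := by nlinarith
      have e2 : u ^ 2 - v ^ 2 = 27 * (a : ℤ) ^ 2 * (D' - D) := by linarith
      have e3 : 27 * (a : ℤ) ^ 2 * (D' - D) ≤ 27 * (a : ℤ) ^ 2 * (2 * X) :=
        mul_le_mul_of_nonneg_left (by linarith) ha0
      linarith
    have h2 : ((u - v : ℤ) : ℝ) ^ 2 ≤ (8 * a * √(X : ℝ)) ^ 2 := by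
      have e1 : (8 * a * √(X : ℝ)) ^ 2 = 64 * (a : ℝ) ^ 2 * X := by
        rw [mul_pow, mul_pow, Real.sq_sqrt (Nat.cast_nonneg X)]
        ring
      have e2 : ((u - v : ℤ) : ℝ) ^ 2 ≤ 54 * (a : ℝ) ^ 2 * X := by exact_mod_cast h1
      rw [e1]
      have e3 : (0 : ℝ) ≤ (a : ℝ) ^ 2 * X := by positivity
      linarith
    exact le_of_sq_le_sq h2 (by positivity)

theorem ap_U (X : ℕ) (q : ℕ) (hq : Squarefree q) (r : ℤ) (a : ℕ) (ha : 1 ≤ a) (P : ℤ) :
    ((US {D | D ≡ r [ZMOD q]} X a P).ncard : ℝ) ≤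
      2 * ((a ^ 2 * q).divisors.card : ℝ) *
        (1 + ∑ e ∈ a.divisors.filter fun e : ℕ => ((e : ℤ)) ^ 2 ∣ 16 * P ^ 3,
          8 * √(X : ℝ) * e / (a * q)) := by
  classical
  have hq0 : 0 < q := Nat.pos_of_ne_zero hq.ne_zero
  have hM1 : 1 ≤ a ^ 2 * q := Nat.mul_pos (pow_pos ha 2) hq0
  have ha0 : (0 : ℝ) < a := by exact_mod_cast ha
  have hq0' : (0 : ℝ) < q := by exact_mod_cast hq0
  have hterm : ∀ e : ℕ, 0 ≤ 8 * √(X : ℝ) * e / (a * q) := fun e => by positivity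
  obtain ⟨B, hB⟩ : ∃ B : ℝ, B = ∑ e ∈ a.divisors.filter fun e : ℕ => ((e : ℤ)) ^ 2 ∣ 16 * P ^ 3,
      8 * √(X : ℝ) * e / (a * q) := ⟨_, rfl⟩
  rw [← hB]
  have hB0 : 0 ≤ B := by
    rw [hB]
    exact Finset.sum_nonneg fun e _ => hterm e
  have hfin := US_finite {D | D ≡ r [ZMOD q]} X a P
  rw [Set.ncard_eq_toFinset_card _ hfin]
  obtain ⟨T, hT⟩ : ∃ T, T = hfin.toFinset := ⟨_, rfl⟩
  rw [← hT]
  have hmem : ∀ U, U ∈ T ↔ ∃ D : ℤ, D ≡ r [ZMOD q] ∧ |D| ≤ X ∧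
      4 * P ^ 3 = U ^ 2 + 27 * (a : ℤ) ^ 2 * D := by
    intro U
    rw [hT, Set.Finite.mem_toFinset]
    rfl
  have hdvd : ∀ U ∈ T, ((a ^ 2 * q : ℕ) : ℤ) ∣ U ^ 2 - (4 * P ^ 3 - 27 * (a : ℤ) ^ 2 * r) := by
    intro U hU
    obtain ⟨D, h1, _, h3⟩ := (hmem U).1 hU
    obtain ⟨c, hc⟩ := h1.dvd
    refine ⟨27 * c, ?_⟩
    push_cast
    linear_combination 27 * (a : ℤ) ^ 2 * hc - h3
  have hpos : ((T.filter fun U => 0 ≤ U).card : ℝ) ≤ ((a ^ 2 * q).divisors.card : ℝ) * (1 + B) := by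
    rcases (T.filter fun U => 0 ≤ U).eq_empty_or_nonempty with h0 | ⟨U₀, hU₀⟩
    · rw [h0, Finset.card_empty]
      push_cast
      positivity
    rw [Finset.mem_filter] at hU₀
    have hmap : ∀ U ∈ T.filter (fun U => 0 ≤ U),
        Int.gcd (U - U₀) ((a ^ 2 * q : ℕ) : ℤ) ∈ (a ^ 2 * q).divisors := by
      intro U _
      rw [Nat.mem_divisors]
      refine ⟨?_, by omega⟩
      have h1 : ((Int.gcd (U - U₀) ((a ^ 2 * q : ℕ) : ℤ) : ℕ) : ℤ) ∣ ((a ^ 2 * q : ℕ) : ℤ) :=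
        Int.gcd_dvd_right _ _
      exact Int.natCast_dvd_natCast.1 h1
    rw [Finset.card_eq_sum_card_fiberwise hmap, Nat.cast_sum]
    have hfib : ∀ d ∈ (a ^ 2 * q).divisors, (((T.filter (fun U => 0 ≤ U)).filter fun U =>
        Int.gcd (U - U₀) ((a ^ 2 * q : ℕ) : ℤ) = d).card : ℝ) ≤ 1 + B := by
      intro d hd
      rcases ((T.filter (fun U => 0 ≤ U)).filter fun U =>
        Int.gcd (U - U₀) ((a ^ 2 * q : ℕ) : ℤ) = d).eq_empty_or_nonempty with h1 | ⟨V, hV⟩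
      · rw [h1, Finset.card_empty]
        push_cast
        positivity
      rw [Finset.mem_filter, Finset.mem_filter] at hV
      obtain ⟨e, he⟩ : ∃ e : ℕ, e = Nat.gcd d (a ^ 2 * q / d) := ⟨_, rfl⟩
      have heM : e ∣ a ^ 2 * q := by
        rw [he]
        exact (Nat.gcd_dvd_left _ _).trans (Nat.dvd_of_mem_divisors hd)
      have he0 : 0 < e := Nat.pos_of_dvd_of_pos heM hM1
      have hE := ap_e a q d hq ha P r V U₀ (hdvd V hV.1.1) (hdvd U₀ hU₀.1) hV.2.symm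
      rw [← he] at hE
      have hN1 : 1 ≤ a ^ 2 * q / e := Nat.div_pos (Nat.le_of_dvd hM1 heM) he0
      have hc := card_ap ((T.filter (fun U => 0 ≤ U)).filter fun U =>
        Int.gcd (U - U₀) ((a ^ 2 * q : ℕ) : ℤ) = d) (a ^ 2 * q / e) hN1 (8 * a * √(X : ℝ))
        (by positivity)
        (by
          intro u hu v hv
          rw [Finset.mem_filter, Finset.mem_filter] at hu hv
          rw [he]
          exact ap_dvd (a ^ 2 * q) d hM1 _ u v U₀ (hdvd u hu.1.1) (hdvd v hv.1.1)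
            (hdvd U₀ hU₀.1) hu.2.symm hv.2.symm)
        (by
          intro u hu v hv
          rw [Finset.mem_filter, Finset.mem_filter] at hu hv
          obtain ⟨D, _, h2, h3⟩ := (hmem u).1 hu.1.1
          obtain ⟨D', _, h2', h3'⟩ := (hmem v).1 hv.1.1
          exact diff_le hu.1.2 hv.1.2 h2 h2' h3 h3')
      refine hc.trans ?_
      have hval : 8 * a * √(X : ℝ) / ((a ^ 2 * q / e : ℕ) : ℝ) = 8 * √(X : ℝ) * e / (a * q) := by
        have he0' : (e : ℝ) ≠ 0 := by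
          have : e ≠ 0 := by omega
          exact_mod_cast this
        rw [Nat.cast_div heM he0']
        push_cast
        field_simp
      rw [hval]
      have hle : 8 * √(X : ℝ) * e / (a * q) ≤ B := by
        rw [hB]
        refine Finset.single_le_sum (f := fun e : ℕ => 8 * √(X : ℝ) * e / (a * q))
          (fun i _ => hterm i) ?_
        rw [Finset.mem_filter, Nat.mem_divisors]
        exact ⟨⟨hE.1, by omega⟩, hE.2⟩
      linarith
    calc (∑ d ∈ (a ^ 2 * q).divisors, (((T.filter (fun U => 0 ≤ U)).filter fun U =>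
          Int.gcd (U - U₀) ((a ^ 2 * q : ℕ) : ℤ) = d).card : ℝ))
        ≤ ∑ d ∈ (a ^ 2 * q).divisors, (1 + B) := Finset.sum_le_sum hfib
      _ = ((a ^ 2 * q).divisors.card : ℝ) * (1 + B) := by
          rw [Finset.sum_const, nsmul_eq_mul]
  have hsub : T ⊆ (T.filter fun U => 0 ≤ U) ∪ (T.filter fun U => 0 ≤ U).image (fun U => -U) := by
    intro U hU
    rw [Finset.mem_union]
    rcases le_total 0 U with h | h
    · left
      rw [Finset.mem_filter]
      exact ⟨hU, h⟩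
    · right
      rw [Finset.mem_image]
      refine ⟨-U, ?_, neg_neg U⟩
      rw [Finset.mem_filter]
      refine ⟨?_, by linarith⟩
      obtain ⟨D, h1, h2, h3⟩ := (hmem U).1 hU
      refine (hmem (-U)).2 ⟨D, h1, h2, ?_⟩
      rw [h3]
      ring
  have hcard : T.card ≤ 2 * (T.filter fun U => 0 ≤ U).card := by
    calc T.card ≤ _ := Finset.card_le_card hsub
      _ ≤ _ := Finset.card_union_le _ _
      _ ≤ (T.filter fun U => 0 ≤ U).card + (T.filter fun U => 0 ≤ U).card :=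
          Nat.add_le_add_left Finset.card_image_le _
      _ = 2 * (T.filter fun U => 0 ≤ U).card := by ring
  have hcard' : (T.card : ℝ) ≤ 2 * ((T.filter fun U => 0 ≤ U).card : ℝ) := by exact_mod_cast hcard
  linarith

end FQ
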