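import Pool.Agent.Lib.MP_fc64da_nt.Q.Defs

/-!
Trivial bounds for the number of U.
-/

namespace FQ

private lemma quadM_root (U c : ℤ) (h : U ^ 2 = c) : U = Int.sqrt c ∨ U = -Int.sqrt c := by
  have h1 : Int.sqrt c = (U.natAbs : ℤ) := by
    rw [← h, pow_two, Int.sqrt_eq]
  rw [h1]
  exact Int.natAbs_eq U

/-- at most two discriminants: at most four U. -/
theorem few (S : Set ℤ) (X : ℕ) (a P D₁ D₂ : ℤ)
    (hS : ∀ D ∈ S, |D| ≤ X → D = D₁ ∨ D = D₂) : (US S X a P).ncard ≤ 4 := by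
  set r₁ : ℤ := Int.sqrt (4 * P ^ 3 - 27 * a ^ 2 * D₁) with hr1
  set r₂ : ℤ := Int.sqrt (4 * P ^ 3 - 27 * a ^ 2 * D₂) with hr2
  have hsub : US S X a P ⊆ (({r₁, -r₁, r₂, -r₂} : Finset ℤ) : Set ℤ) := by
    rintro U ⟨D, hD, hDX, hU⟩
    rcases hS D hD hDX with rfl | rfl
    · have h := quadM_root U (4 * P ^ 3 - 27 * a ^ 2 * D) (by linarith)
      rw [← hr1] at h
      rcases h with h | h <;> simp [h]
    · have h := quadM_root U (4 * P ^ 3 - 27 * a ^ 2 * D) (by linarith)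
      rw [← hr2] at h
      rcases h with h | h <;> simp [h]
  have h1 := Set.ncard_le_ncard hsub (Finset.finite_toSet _)
  rw [Set.ncard_coe_finset] at h1
  exact h1.trans Finset.card_le_four

/-- a set of integers of diameter at most s lies in an interval with s + 1 elements. -/
private lemma quadM_diam (T : Set ℤ) (s : ℤ) (h : ∀ n ∈ T, ∀ n' ∈ T, |n - n'| ≤ s) :
    ∃ n₀ : ℤ, ∀ n ∈ T, n₀ ≤ n ∧ n ≤ n₀ + s := by
  by_cases hT : ∃ n, n ∈ T
  · obtain ⟨n₁, hn₁⟩ := hT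
    obtain ⟨n₀, hn₀, hmin⟩ := Int.exists_least_of_bdd (P := fun n => n ∈ T)
      ⟨n₁ - s, fun z hz => by
        have h2 := h z hz n₁ hn₁
        rw [abs_le] at h2
        linarith [h2.1]⟩ ⟨n₁, hn₁⟩
    refine ⟨n₀, fun n hn => ⟨hmin n hn, ?_⟩⟩
    have h2 := h n hn n₀ hn₀
    rw [abs_le] at h2
    linarith [h2.2]
  · exact ⟨0, fun n hn => (hT ⟨n, hn⟩).elim⟩

private lemma quadM_dist (X : ℕ) (A B G n n' : ℤ) (hA : A ≠ 0)
    (h1 : |A * n ^ 2 + B * n + G| ≤ X) (h2 : |A * n' ^ 2 + B * n' + G| ≤ X)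
    (hs : 0 ≤ (2 * A * n + B) * (2 * A * n' + B)) :
    |n - n'| ≤ (Nat.sqrt (2 * X) : ℤ) := by
  have hmm : (2 * A * n + B - (2 * A * n' + B)) ^ 2
      ≤ |(2 * A * n + B) ^ 2 - (2 * A * n' + B) ^ 2| := by
    have e1 : (2 * A * n + B) ^ 2 - (2 * A * n' + B) ^ 2
        = (2 * A * n + B - (2 * A * n' + B)) * (2 * A * n + B + (2 * A * n' + B)) := by ring
    have e2 : (2 * A * n + B - (2 * A * n' + B)) ^ 2
        = |2 * A * n + B - (2 * A * n' + B)| * |2 * A * n + B - (2 * A * n' + B)| := by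
      rw [← sq, sq_abs]
    rw [e1, e2, abs_mul]
    apply mul_le_mul_of_nonneg_left _ (abs_nonneg _)
    rw [← sq_le_sq]
    nlinarith
  have h3 : |(2 * A * n + B) ^ 2 - (2 * A * n' + B) ^ 2| ≤ 8 * |A| * X := by
    have e1 : (2 * A * n + B) ^ 2 - (2 * A * n' + B) ^ 2
        = 4 * A * ((A * n ^ 2 + B * n + G) - (A * n' ^ 2 + B * n' + G)) := by ring
    rw [e1, abs_mul, abs_mul]
    have e3 : |(A * n ^ 2 + B * n + G) - (A * n' ^ 2 + B * n' + G)| ≤ 2 * X := by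
      rw [abs_le] at h1 h2 ⊢
      constructor <;> linarith [h1.1, h1.2, h2.1, h2.2]
    have e4 : |(4 : ℤ)| = 4 := by norm_num
    rw [e4]
    have := mul_le_mul_of_nonneg_left e3 (by positivity : 0 ≤ 4 * |A|)
    linarith
  have h4 : 4 * |A| * (|A| * (n - n') ^ 2) ≤ 4 * |A| * (2 * X) := by
    have e1 : (2 * A * n + B - (2 * A * n' + B)) ^ 2 = 4 * |A| * (|A| * (n - n') ^ 2) := by
      have : |A| * |A| = A * A := abs_mul_abs_self A
      linear_combination (-4 * (n - n') ^ 2) * this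
    rw [← e1]
    linarith
  have hA1 : 1 ≤ |A| := Int.one_le_abs hA
  have h5 : |A| * (n - n') ^ 2 ≤ 2 * X := le_of_mul_le_mul_left h4 (by linarith)
  have h6 : (n - n') ^ 2 ≤ 2 * X := by
    nlinarith [sq_nonneg (n - n')]
  have h7 : (n - n').natAbs ≤ Nat.sqrt (2 * X) := by
    rw [Nat.le_sqrt, ← sq]
    zify
    rw [sq_abs]
    exact h6
  have h8 : ((n - n').natAbs : ℤ) ≤ (Nat.sqrt (2 * X) : ℤ) := by exact_mod_cast h7
  rwa [Int.natCast_natAbs] at h8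

/-- The n with |f(n)| at most X and 2 A n + B nonnegative lie in an interval of length
√(2 X) (for m = 2 A n + B: |m - m'|^2 is at most |m^2 - m'^2|, at most 8 |A| X); every n
gives at most two U. -/
theorem quad_deg (X : ℕ) (hX : 1 ≤ X) (A B G a P : ℤ) (hA : A ≠ 0) :
    ((US (QS A B G) X a P).ncard : ℝ) ≤ 12 * √(X : ℝ) := by
  classical
  set s : ℕ := Nat.sqrt (2 * X) with hs
  obtain ⟨n₀, hn₀⟩ := quadM_diam
    {n : ℤ | |A * n ^ 2 + B * n + G| ≤ X ∧ 0 ≤ 2 * A * n + B} (s : ℤ)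
    (fun n hn n' hn' => quadM_dist X A B G n n' hA hn.1 hn'.1 (mul_nonneg hn.2 hn'.2))
  obtain ⟨n₁, hn₁⟩ := quadM_diam
    {n : ℤ | |A * n ^ 2 + B * n + G| ≤ X ∧ 2 * A * n + B ≤ 0} (s : ℤ)
    (fun n hn n' hn' => quadM_dist X A B G n n' hA hn.1 hn'.1
      (mul_nonneg_of_nonpos_of_nonpos hn.2 hn'.2))
  set N : Finset ℤ := Finset.Icc n₀ (n₀ + s) ∪ Finset.Icc n₁ (n₁ + s) with hN
  set R : ℤ → ℤ := fun n => Int.sqrt (4 * P ^ 3 - 27 * a ^ 2 * (A * n ^ 2 + B * n + G)) with hR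
  have hsub : US (QS A B G) X a P ⊆ ((N.biUnion fun n => {R n, -R n} : Finset ℤ) : Set ℤ) := by
    rintro U ⟨D, ⟨n, rfl⟩, hDX, hU⟩
    have hnN : n ∈ N := by
      rw [hN, Finset.mem_union, Finset.mem_Icc, Finset.mem_Icc]
      rcases le_total 0 (2 * A * n + B) with h | h
      · exact Or.inl (hn₀ n ⟨hDX, h⟩)
      · exact Or.inr (hn₁ n ⟨hDX, h⟩)
    rw [Finset.mem_coe, Finset.mem_biUnion]
    refine ⟨n, hnN, ?_⟩
    rw [Finset.mem_insert, Finset.mem_singleton]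
    exact quadM_root U _ (by linarith)
  have h1 := Set.ncard_le_ncard hsub (Finset.finite_toSet _)
  rw [Set.ncard_coe_finset] at h1
  have h2 : (N.biUnion fun n => ({R n, -R n} : Finset ℤ)).card ≤ N.card * 2 :=
    Finset.card_biUnion_le_card_mul _ _ _ (fun n _ => Finset.card_le_two)
  have h3 : N.card ≤ (s + 1) + (s + 1) := by
    refine (Finset.card_union_le _ _).trans ?_
    rw [Int.card_Icc, Int.card_Icc]
    omega
  have h4 : (US (QS A B G) X a P).ncard ≤ 4 * s + 4 := by omega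
  have h5 : ((US (QS A B G) X a P).ncard : ℝ) ≤ 4 * s + 4 := by exact_mod_cast h4
  have hx1 : (1 : ℝ) ≤ √(X : ℝ) := by
    rw [Real.one_le_sqrt]
    exact_mod_cast hX
  have h6 : (s : ℝ) ≤ 2 * √(X : ℝ) := by
    have h7 : (s : ℝ) ^ 2 ≤ 2 * X := by
      have := Nat.sqrt_le' (2 * X)
      rw [← hs] at this
      exact_mod_cast this
    have h8 : (s : ℝ) ^ 2 ≤ (2 * √(X : ℝ)) ^ 2 := by
      rw [mul_pow, Real.sq_sqrt (Nat.cast_nonneg X)]
      have : (0 : ℝ) ≤ X := Nat.cast_nonneg X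
      linarith
    exact le_of_sq_le_sq h8 (by positivity)
  linarith

end FQ
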