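import Pool.Agent.Lib.MP_fc64da_nt.Q.Fam
import Pool.Agent.Lib.MP_fc64da_nt.Q.ApU
import Pool.Agent.Lib.MP_fc64da_nt.Q.ApS
import Pool.Agent.Lib.MP_fc64da_nt.Q.QuadM

/-!
Part 2. fam_le with the residue class; q > 2 X: at most one discriminant, `few`; otherwise
ap_U, div_aq and sum_e with ε / 2, and the sum over P has at most 4 √X terms.
-/

open NumberField

namespace FQ

/-- one discriminant only. -/
private theorem apF_one (X q : ℕ) (hq : 2 * X < q) (r a P : ℤ) :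
    (US {D | D ≡ r [ZMOD q]} X a P).ncard ≤ 4 := by
  by_cases hne : ∃ D₁ : ℤ, D₁ ≡ r [ZMOD q] ∧ |D₁| ≤ X
  · obtain ⟨D₁, h1, h2⟩ := hne
    refine few _ X a P D₁ D₁ fun D hD hDX => Or.inl ?_
    have h3 : D ≡ D₁ [ZMOD q] := Int.ModEq.trans hD h1.symm
    have h4 : (q : ℤ) ∣ D₁ - D := h3.dvd
    have h5 : |D₁ - D| < q := by
      have h6 := abs_sub D₁ D
      have h7 : (2 * X : ℤ) < q := by exact_mod_cast hq
      linarith
    have h8 := Int.eq_zero_of_abs_lt_dvd h4 h5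
    linarith
  · exact few _ X a P 0 0 fun D hD hDX => absurd ⟨D, hD, hDX⟩ hne

private theorem apF_card (X : ℕ) : ((A0 X : ℕ) : ℝ) * ((PI X).card : ℝ) ≤
    8 * (X : ℝ) ^ (3 / 4 : ℝ) := by
  have h1 := A0_le X
  have h2 := PI_card X
  have h0 : (0 : ℝ) ≤ X := Nat.cast_nonneg X
  have h3 : (X : ℝ) ^ (1 / 4 : ℝ) * (X : ℝ) ^ (1 / 2 : ℝ) = (X : ℝ) ^ (3 / 4 : ℝ) := by
    rw [← Real.rpow_add_of_nonneg h0 (by norm_num) (by norm_num)]
    norm_num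
  calc ((A0 X : ℕ) : ℝ) * ((PI X).card : ℝ) ≤
      (2 * (X : ℝ) ^ (1 / 4 : ℝ)) * (4 * (X : ℝ) ^ (1 / 2 : ℝ)) :=
        mul_le_mul h1 h2 (Nat.cast_nonneg _) (by positivity)
    _ = 8 * (X : ℝ) ^ (3 / 4 : ℝ) := by rw [← h3]; ring

/-- the sum over a and P of a constant. -/
private theorem apF_const (X : ℕ) (c : ℝ) :
    ∑ _a ∈ Finset.Icc 1 (A0 X), ∑ _P ∈ PI X, c = (A0 X : ℝ) * ((PI X).card : ℝ) * c := by
  rw [Finset.sum_const, Finset.sum_const, Nat.card_Icc, Nat.add_sub_cancel, nsmul_eq_mul,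
    nsmul_eq_mul, mul_assoc]

theorem part_ap (ε : ℝ) (hε : 0 < ε) : ∃ C : ℝ, 0 < C ∧ ∀ (X : ℕ), 1 ≤ X → ∀ (q : ℕ),
    Squarefree q → ∀ (r : ℤ) (m : ℕ) (K : Fin m → Type) [∀ i, Field (K i)]
    [∀ i, NumberField (K i)], (∀ i, Module.finrank ℚ (K i) = 3) →
    (∀ i, discr (K i) ≡ r [ZMOD q] ∧ |discr (K i)| ≤ X) →
    (∀ i j, Nonempty (K i ≃+* K j) → i = j) →
    (m : ℝ) ≤ C * (X : ℝ) ^ ε * ((X : ℝ) / q + (X : ℝ) ^ (3 / 4 : ℝ)) := by
  obtain ⟨C1, hC1, h1⟩ := sum_e (ε / 2) (by positivity)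
  obtain ⟨C2, hC2, h2⟩ := div_aq (ε / 2) (by positivity)
  refine ⟨16 * C2 + 64 * C1 * C2 + 47, by positivity, ?_⟩
  intro X hX q hq r m K _ _ h3 hD hiso
  have hq1 : 1 ≤ q := Nat.one_le_iff_ne_zero.2 hq.ne_zero
  have hqR : (0 : ℝ) < q := by exact_mod_cast hq1
  have hX1 : (1 : ℝ) ≤ X := by exact_mod_cast hX
  have hX0 : (0 : ℝ) ≤ X := by linarith
  have hXe : 1 ≤ (X : ℝ) ^ ε := Real.one_le_rpow hX1 hε.le
  have hX34 : 1 ≤ (X : ℝ) ^ (3 / 4 : ℝ) := Real.one_le_rpow hX1 (by norm_num)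
  have hfam := fam_le {D | D ≡ r [ZMOD q]} X m K h3 hD hiso
  have hfamR : (m : ℝ) ≤ ∑ a ∈ Finset.Icc 1 (A0 X), ∑ P ∈ PI X,
      ((US {D | D ≡ r [ZMOD q]} X a P).ncard : ℝ) + (2 * (V0 X : ℝ) + 1) := by
    exact_mod_cast hfam
  have hV := V0_le X
  have hcard := apF_card X
  obtain ⟨E, hE⟩ : ∃ E, E = (X : ℝ) ^ ε := ⟨_, rfl⟩
  obtain ⟨Y, hY⟩ : ∃ Y, Y = (X : ℝ) ^ (3 / 4 : ℝ) := ⟨_, rfl⟩
  obtain ⟨Z, hZ⟩ : ∃ Z, Z = (X : ℝ) / q := ⟨_, rfl⟩
  have hZ0 : 0 ≤ Z := by rw [hZ]; positivity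
  rw [← hE] at hXe ⊢
  rw [← hY] at hX34 hV hcard ⊢
  rw [← hZ]
  have hEY : Y ≤ E * (Z + Y) := by
    have : 1 * (0 + Y) ≤ E * (Z + Y) := mul_le_mul hXe (by linarith) (by linarith) (by linarith)
    linarith
  have hEZ : 0 ≤ E * Z := mul_nonneg (by linarith) hZ0
  have hEY0 : 0 ≤ E * Y := mul_nonneg (by linarith) (by linarith)
  have hEYY : Y ≤ E * Y := by nlinarith
  rcases lt_or_ge (2 * X) q with hlt | hge
  · have h4 : ∑ a ∈ Finset.Icc 1 (A0 X), ∑ P ∈ PI X,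
        ((US {D | D ≡ r [ZMOD q]} X a P).ncard : ℝ) ≤ (A0 X : ℝ) * ((PI X).card : ℝ) * 4 := by
      rw [← apF_const]
      refine Finset.sum_le_sum fun a _ => Finset.sum_le_sum fun P _ => ?_
      exact_mod_cast apF_one X q hlt r a P
    have h5 : 0 ≤ (16 * C2 + 64 * C1 * C2) * (E * (Z + Y)) := by
      have : 0 ≤ E * (Z + Y) := by linarith
      positivity
    calc (m : ℝ) ≤ 47 * Y := by linarith
      _ ≤ 47 * (E * (Z + Y)) := by linarith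
      _ ≤ _ := by linarith
  · have hsum : ∑ a ∈ Finset.Icc 1 (A0 X), ∑ P ∈ PI X,
        ((US {D | D ≡ r [ZMOD q]} X a P).ncard : ℝ) ≤
        ∑ a ∈ Finset.Icc 1 (A0 X), ∑ P ∈ PI X, (2 * (C2 * (X : ℝ) ^ (ε / 2))) *
          (1 + ∑ e ∈ a.divisors.filter fun e : ℕ => ((e : ℤ)) ^ 2 ∣ 16 * P ^ 3,
            8 * √(X : ℝ) * e / (a * q)) := by
      refine Finset.sum_le_sum fun a ha => Finset.sum_le_sum fun P _ => ?_
      rw [Finset.mem_Icc] at ha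
      refine (ap_U X q hq r a ha.1 P).trans ?_
      have h4 := h2 X hX a q ha.1 ha.2 hq1 hge
      refine mul_le_mul_of_nonneg_right (by linarith) ?_
      refine add_nonneg zero_le_one (Finset.sum_nonneg fun e _ => ?_)
      positivity
    have hinner : ∀ P ∈ PI X, ∑ a ∈ Finset.Icc 1 (A0 X),
        ∑ e ∈ a.divisors.filter (fun e : ℕ => ((e : ℤ)) ^ 2 ∣ 16 * P ^ 3),
          8 * √(X : ℝ) * e / (a * q) ≤ (8 * √(X : ℝ) / q) * (C1 * (X : ℝ) ^ (ε / 2)) := by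
      intro P hP
      have h4 : ∑ a ∈ Finset.Icc 1 (A0 X),
          ∑ e ∈ a.divisors.filter (fun e : ℕ => ((e : ℤ)) ^ 2 ∣ 16 * P ^ 3),
          8 * √(X : ℝ) * e / (a * q) = (8 * √(X : ℝ) / q) * ∑ a ∈ Finset.Icc 1 (A0 X),
          ∑ e ∈ a.divisors.filter (fun e : ℕ => ((e : ℤ)) ^ 2 ∣ 16 * P ^ 3), (e : ℝ) / a := by
        rw [Finset.mul_sum]
        refine Finset.sum_congr rfl fun a ha => ?_
        rw [Finset.mul_sum]
        refine Finset.sum_congr rfl fun e _ => ?_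
        have ha0 : (a : ℝ) ≠ 0 := by
          rw [Finset.mem_Icc] at ha
          exact_mod_cast (Nat.one_le_iff_ne_zero.1 ha.1)
        field_simp
      rw [h4]
      exact mul_le_mul_of_nonneg_left (h1 X hX P hP) (by positivity)
    obtain ⟨H, hH⟩ : ∃ H, H = (X : ℝ) ^ (ε / 2) := ⟨_, rfl⟩
    have hHH : H * H = E := by
      rw [hH, hE, ← Real.rpow_add_of_nonneg hX0 (by positivity) (by positivity), add_halves]
    have hH1 : 1 ≤ H := by
      rw [hH]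
      exact Real.one_le_rpow hX1 (by positivity)
    rw [← hH] at hsum hinner
    have hsplit : ∑ a ∈ Finset.Icc 1 (A0 X), ∑ P ∈ PI X, (2 * (C2 * H)) *
          (1 + ∑ e ∈ a.divisors.filter fun e : ℕ => ((e : ℤ)) ^ 2 ∣ 16 * P ^ 3,
            8 * √(X : ℝ) * e / (a * q)) = (2 * (C2 * H)) *
          ((A0 X : ℝ) * ((PI X).card : ℝ) * 1 + ∑ P ∈ PI X, ∑ a ∈ Finset.Icc 1 (A0 X),
            ∑ e ∈ a.divisors.filter (fun e : ℕ => ((e : ℤ)) ^ 2 ∣ 16 * P ^ 3),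
            8 * √(X : ℝ) * e / (a * q)) := by
      rw [← apF_const, Finset.sum_comm (s := PI X), ← Finset.sum_add_distrib, Finset.mul_sum]
      refine Finset.sum_congr rfl fun a _ => ?_
      rw [← Finset.sum_add_distrib, Finset.mul_sum]
    have hPs : ∑ P ∈ PI X, ∑ a ∈ Finset.Icc 1 (A0 X),
            ∑ e ∈ a.divisors.filter (fun e : ℕ => ((e : ℤ)) ^ 2 ∣ 16 * P ^ 3),
            8 * √(X : ℝ) * e / (a * q) ≤ 32 * Z * (C1 * H) := by
      refine (Finset.sum_le_sum hinner).trans ?_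
      rw [Finset.sum_const, nsmul_eq_mul]
      have h5 := PI_card X
      have h6 : √(X : ℝ) = (X : ℝ) ^ (1 / 2 : ℝ) := Real.sqrt_eq_rpow _
      rw [← h6] at h5
      have h7 : √(X : ℝ) * √(X : ℝ) = X := Real.mul_self_sqrt hX0
      have h8 : 0 ≤ 8 * √(X : ℝ) / q * (C1 * H) := by
        have : 0 ≤ H := by linarith
        positivity
      refine (mul_le_mul_of_nonneg_right h5 h8).trans (le_of_eq ?_)
      have h9 : 4 * √(X : ℝ) * (8 * √(X : ℝ) / q * (C1 * H)) =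
          32 * ((√(X : ℝ) * √(X : ℝ)) / q) * (C1 * H) := by ring
      rw [h9, h7, ← hZ]
    rw [hsplit] at hsum
    have h10 : (2 * (C2 * H)) * ((A0 X : ℝ) * ((PI X).card : ℝ) * 1 +
        ∑ P ∈ PI X, ∑ a ∈ Finset.Icc 1 (A0 X),
            ∑ e ∈ a.divisors.filter (fun e : ℕ => ((e : ℤ)) ^ 2 ∣ 16 * P ^ 3),
            8 * √(X : ℝ) * e / (a * q)) ≤ (2 * (C2 * H)) * (8 * Y + 32 * Z * (C1 * H)) := by
      refine mul_le_mul_of_nonneg_left (by linarith) ?_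
      have : 0 ≤ H := by linarith
      positivity
    have h11 : (2 * (C2 * H)) * (8 * Y + 32 * Z * (C1 * H)) =
        16 * C2 * (H * Y) + 64 * C1 * C2 * ((H * H) * Z) := by ring
    have h12 : H * Y ≤ E * Y := by
      refine mul_le_mul_of_nonneg_right ?_ (by linarith)
      rw [← hHH]
      nlinarith
    have h13 : 16 * C2 * (H * Y) ≤ 16 * C2 * (E * Y) :=
      mul_le_mul_of_nonneg_left h12 (by positivity)
    rw [hHH] at h11
    have h14 : (m : ℝ) ≤ 16 * C2 * (E * Y) + 64 * C1 * C2 * (E * Z) + 15 * Y := by linarith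
    have h15 : 0 ≤ 16 * C2 * (E * Z) := by positivity
    have h16 : 0 ≤ 64 * C1 * C2 * (E * Y) := by positivity
    have h17 : (16 * C2 + 64 * C1 * C2 + 47) * E * (Z + Y) =
        16 * C2 * (E * Z) + 16 * C2 * (E * Y) + 64 * C1 * C2 * (E * Z) +
          64 * C1 * C2 * (E * Y) + 47 * (E * Z) + 47 * (E * Y) := by ring
    rw [h17]
    linarith

end FQ
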