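import Pool.Agent.Lib.MP_fc64da_nt.Q.QuadF
import Pool.Agent.Lib.MP_fc64da_nt.Q.ApF

open NumberField

namespace FQ

theorem final (ε : ℝ) (hε : 0 < ε) : ∃ C : ℝ, ∀ (X : ℕ), 1 ≤ X →
    ∀ (m : ℕ) (K : Fin m → Type) [∀ i, Field (K i)] [∀ i, NumberField (K i)],
      (∀ i, Module.finrank ℚ (K i) = 3) → (∀ i, |discr (K i)| ≤ X) →
      (∀ i j, Nonempty (K i ≃+* K j) → i = j) →
      (∀ A B G : ℤ, A ≠ 0 → (∀ i, ∃ n : ℤ, discr (K i) = A * n ^ 2 + B * n + G) →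
        (m : ℝ) ≤ C * (X : ℝ) ^ (3 / 4 + ε : ℝ)) ∧
      (∀ (q : ℕ) (r : ℤ), Squarefree q → (∀ i, discr (K i) ≡ r [ZMOD q]) →
        (m : ℝ) ≤ C * (X : ℝ) ^ ε * ((X : ℝ) / q + (X : ℝ) ^ (3 / 4 : ℝ))) := by
  obtain ⟨C1, hC1, h1⟩ := part_quad ε hε
  obtain ⟨C2, hC2, h2⟩ := part_ap ε hε
  refine ⟨max C1 C2, ?_⟩
  intro X hX m K _ _ h3 hD hiso
  refine ⟨?_, ?_⟩
  · intro A B G hA hn
    refine (h1 X hX A B G hA m K h3 (fun i => ⟨hn i, hD i⟩) hiso).trans ?_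
    have : (0 : ℝ) ≤ (X : ℝ) ^ (3 / 4 + ε : ℝ) := by positivity
    exact mul_le_mul_of_nonneg_right (le_max_left _ _) this
  · intro q r hq hr
    refine (h2 X hX q hq r m K h3 (fun i => ⟨hr i, hD i⟩) hiso).trans ?_
    have h4 : (0 : ℝ) ≤ (X : ℝ) ^ ε := by positivity
    have h5 : (0 : ℝ) ≤ (X : ℝ) / q + (X : ℝ) ^ (3 / 4 : ℝ) := by positivity
    exact mul_le_mul_of_nonneg_right (mul_le_mul_of_nonneg_right (le_max_right _ _) h4) h5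

end FQ
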