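import Mathlib

/-!
The ring of integers of a cubic field has a basis containing 1: the quotient by the span of 1 is
torsion-free, so it is free of rank 2.
-/

open NumberField

namespace FQ

private theorem quot_tf (K : Type) [Field K] [NumberField K] :
    Module.IsTorsionFree ℤ (𝓞 K ⧸ Submodule.span ℤ {(1 : 𝓞 K)}) := by
  refine Module.IsTorsionFree.of_smul_eq_zero fun n x hx => ?_
  obtain ⟨y, rfl⟩ := Submodule.Quotient.mk_surjective _ x
  rw [← Submodule.Quotient.mk_smul, Submodule.Quotient.mk_eq_zero,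
    Submodule.mem_span_singleton] at hx
  obtain ⟨m, hm⟩ := hx
  rcases eq_or_ne n 0 with rfl | hn
  · exact Or.inl rfl
  refine Or.inr ?_
  rw [Submodule.Quotient.mk_eq_zero, Submodule.mem_span_singleton]
  have hn' : (n : ℚ) ≠ 0 := by exact_mod_cast hn
  have hnK : (n : K) ≠ 0 := by exact_mod_cast hn
  have h1 : (m : K) = n * (y : K) := by
    have h := congrArg (fun z : 𝓞 K => (z : K)) hm
    simpa [zsmul_eq_mul] using h
  have h2 : algebraMap ℚ K ((m : ℚ) / n) = (y : K) := by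
    rw [map_div₀, map_intCast, map_intCast, h1]
    field_simp
  have h3 : IsIntegral ℤ (algebraMap ℚ K ((m : ℚ) / n)) := by
    rw [h2]
    exact y.isIntegral_coe
  rw [isIntegral_algebraMap_iff (algebraMap ℚ K).injective] at h3
  obtain ⟨c, hc⟩ := IsIntegrallyClosed.isIntegral_iff.1 h3
  refine ⟨c, ?_⟩
  apply RingOfIntegers.ext
  rw [← h2, ← hc]
  simp [zsmul_eq_mul]

theorem exists_basis (K : Type) [Field K] [NumberField K] (h : Module.finrank ℚ K = 3) :
    ∃ b : Module.Basis (Fin 3) ℤ (𝓞 K), b 0 = 1 := by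
  have := quot_tf K
  obtain ⟨W, hW⟩ : ∃ W, W = Submodule.span ℤ {(1 : 𝓞 K)} := ⟨_, rfl⟩
  rw [← hW] at this
  have hfree : Module.Free ℤ (𝓞 K ⧸ W) := Module.free_of_finite_type_torsion_free'
  obtain ⟨bW, hbW⟩ : ∃ b : Module.Basis (Fin 1) ℤ W, ((b 0 : W) : 𝓞 K) = 1 := by
    subst hW
    refine ⟨(Module.Basis.singleton (Fin 1) ℤ).map
      (LinearEquiv.toSpanNonzeroSingleton ℤ (𝓞 K) 1 one_ne_zero), ?_⟩
    rw [Module.Basis.map_apply, Module.Basis.singleton_apply,
      LinearEquiv.toSpanNonzeroSingleton_apply]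
    exact one_smul ℤ (1 : 𝓞 K)
  have b := Module.Basis.sumQuot bW (Module.finBasis ℤ (𝓞 K ⧸ W))
  have hr : Module.finrank ℤ (𝓞 K ⧸ W) = 2 := by
    have h1 := Module.finrank_eq_card_basis b
    rw [RingOfIntegers.rank, h, Fintype.card_sum, Fintype.card_fin, Fintype.card_fin] at h1
    omega
  obtain ⟨bQ⟩ : Nonempty (Module.Basis (Fin 2) ℤ (𝓞 K ⧸ W)) :=
    ⟨Module.finBasisOfFinrankEq ℤ (𝓞 K ⧸ W) hr⟩
  refine ⟨(Module.Basis.sumQuot bW bQ).reindex finSumFinEquiv, ?_⟩
  rw [Module.Basis.reindex_apply]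
  rw [show (finSumFinEquiv (m := 1) (n := 2)).symm 0 = Sum.inl 0 from rfl,
    Module.Basis.sumQuot_inl, hbW]

end FQ
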