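import Mathlib

/-!
The minimum of a positive definite binary form is at most twice the square root of its
determinant. Proof: if A is smaller than the square root, take (1, 0). Otherwise let N be the
integral part of the square root of A / sqrt Δ, so N is at least 1, and use Dirichlet
(Real.exists_int_int_abs_mul_sub_le) for -B / A and N:
A x^2 + 2 B x y + C y^2 = A (x + (B / A) y)^2 + (Δ / A) y^2.
-/

namespace FQ

theorem bin_min (A B C Δ : ℝ) (hA : 0 < A) (hΔ : 0 < Δ) (h : A * C - B ^ 2 = Δ) :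
    ∃ x y : ℤ, (x ≠ 0 ∨ y ≠ 0) ∧ A * x ^ 2 + 2 * B * x * y + C * y ^ 2 ≤ 2 * √Δ := by
  have s0 : 0 < √Δ := Real.sqrt_pos.mpr hΔ
  have s2 : √Δ * √Δ = Δ := Real.mul_self_sqrt hΔ.le
  generalize √Δ = s at s0 s2 ⊢
  rcases le_or_gt A s with hAs | hAs
  · refine ⟨1, 0, Or.inl one_ne_zero, ?_⟩
    push_cast
    linarith
  have hAs1 : 1 < A / s := by
    rw [one_lt_div s0]
    exact hAs
  have t2 : √(A / s) * √(A / s) = A / s := Real.mul_self_sqrt (by positivity)
  have t0 : 0 < √(A / s) := Real.sqrt_pos.mpr (by positivity)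
  have t1 : 1 ≤ √(A / s) := Real.one_le_sqrt.mpr hAs1.le
  generalize √(A / s) = t at t2 t0 t1
  have hN1 : 1 ≤ ⌊t⌋₊ := Nat.le_floor (by exact_mod_cast t1)
  obtain ⟨j, k, hk0, hkN, hkj⟩ := Real.exists_int_int_abs_mul_sub_le (-B / A) (n := ⌊t⌋₊) hN1
  refine ⟨j, k, Or.inr hk0.ne', ?_⟩
  have hNt : (⌊t⌋₊ : ℝ) ≤ t := Nat.floor_le t0.le
  have hNt' : t < ⌊t⌋₊ + 1 := Nat.lt_floor_add_one t
  have hkt : (k : ℝ) ≤ t := le_trans (by exact_mod_cast hkN) hNt
  have hk0' : (0 : ℝ) < k := by exact_mod_cast hk0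
  have hz : |(k : ℝ) * (-B / A) - j| ≤ 1 / t :=
    le_trans hkj (one_div_le_one_div_of_le t0 hNt'.le)
  have e : A * (j : ℝ) ^ 2 + 2 * B * j * k + C * k ^ 2 =
      A * ((k : ℝ) * (-B / A) - j) ^ 2 + Δ / A * k ^ 2 := by
    rw [← h]
    field_simp
    ring
  rw [e]
  generalize (k : ℝ) * (-B / A) - j = z at hz
  have hz2 : z ^ 2 ≤ (1 / t) ^ 2 := by
    rw [← sq_abs]
    exact pow_le_pow_left₀ (abs_nonneg _) hz 2
  have h1 : A * z ^ 2 ≤ s := by
    calc A * z ^ 2 ≤ A * (1 / t) ^ 2 := mul_le_mul_of_nonneg_left hz2 hA.le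
      _ = A / (t * t) := by ring
      _ = s := by
        rw [t2]
        field_simp
  have h2 : Δ / A * (k : ℝ) ^ 2 ≤ s := by
    calc Δ / A * (k : ℝ) ^ 2 ≤ Δ / A * t ^ 2 :=
          mul_le_mul_of_nonneg_left (pow_le_pow_left₀ hk0'.le hkt 2) (by positivity)
      _ = Δ / A * (t * t) := by ring
      _ = s := by
        rw [t2, ← s2]
        field_simp
  linarith

end FQ
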