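import Mathlib

/-!
Project FQ (MP_fc64da_nt): cubic fields whose discriminants lie in thin sets.
-/

namespace FQ

/-- (a, P, U) is a parameter triple of the discriminant `D`. -/
def Par (D a P U : ℤ) : Prop :=
  1 ≤ a ∧ 4 * P ^ 3 = U ^ 2 + 27 * a ^ 2 * D ∧ P ^ 2 ≤ 3 * |D| ∧ 27 * a ^ 4 ≤ 64 * |D|

/-- the integral solutions of z^2 - g y^2 = k in the box of size `Z`. -/
noncomputable def Sol (g k Z : ℤ) : Finset (ℤ × ℤ) :=
  (Finset.Icc (-Z) Z ×ˢ Finset.Icc (-Z) Z).filter fun w => w.1 ^ 2 - g * w.2 ^ 2 = k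

/-- the numbers `U` belonging to `a`, `P` and a discriminant in `S` of size at most `X`. -/
def US (S : Set ℤ) (X : ℕ) (a P : ℤ) : Set ℤ :=
  {U | ∃ D ∈ S, |D| ≤ X ∧ 4 * P ^ 3 = U ^ 2 + 27 * a ^ 2 * D}

/-- the values of the quadratic polynomial A n^2 + B n + G. -/
def QS (A B G : ℤ) : Set ℤ := {D | ∃ n : ℤ, D = A * n ^ 2 + B * n + G}

/-- the bound for `a`. -/
noncomputable def A0 (X : ℕ) : ℕ := Nat.sqrt (Nat.sqrt (3 * X))

/-- the bound for `P`. -/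
noncomputable def P0 (X : ℕ) : ℕ := Nat.sqrt (3 * X)

/-- the bound for `U` when P = 0. -/
noncomputable def V0 (X : ℕ) : ℕ := Nat.sqrt (27 * (A0 X) ^ 2 * X)

/-- the index set of the numbers `P`. -/
noncomputable def PI (X : ℕ) : Finset ℤ := (Finset.Icc (-(P0 X : ℤ)) (P0 X)).erase 0

end FQ
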