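import Mathlib

/-!
The hermitian form of a cubic field.
-/

open NumberField ComplexConjugate

namespace FQ

variable (K : Type) [Field K] [NumberField K]

/-- the real part of the sum of σ(α) times the conjugate of σ(β). -/
noncomputable def hf (α β : K) : ℝ := (∑ σ : K →ₐ[ℚ] ℂ, σ α * conj (σ β)).re

/-- three times the form minus the product of the traces. -/
noncomputable def qf (α β : K) : ℝ :=
  3 * hf K α β - ((Algebra.trace ℚ K α : ℚ) : ℝ) * ((Algebra.trace ℚ K β : ℚ) : ℝ)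

/-- The complex conjugate of an embedding. -/
private noncomputable def embc (σ : K →ₐ[ℚ] ℂ) : K →ₐ[ℚ] ℂ :=
  ((Complex.conjAe.toAlgHom).restrictScalars ℚ).comp σ

private theorem embc_apply (σ : K →ₐ[ℚ] ℂ) (x : K) : embc K σ x = conj (σ x) := rfl

private theorem embc_inv : Function.Involutive (embc K) := by
  intro σ
  ext x
  rw [embc_apply, embc_apply, Complex.conj_conj]

private theorem hf_conj (α β : K) : conj (∑ σ : K →ₐ[ℚ] ℂ, σ α * conj (σ β)) =
    ∑ σ : K →ₐ[ℚ] ℂ, σ α * conj (σ β) := by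
  rw [map_sum]
  refine Fintype.sum_equiv (embc_inv K).toPerm _ _ fun σ => ?_
  rw [map_mul, Function.Involutive.coe_toPerm, embc_apply, embc_apply]

private theorem hf_comm (α β : K) : hf K α β = hf K β α := by
  unfold hf
  rw [← Complex.conj_re, map_sum]
  congr 1
  refine Finset.sum_congr rfl fun σ _ => ?_
  rw [map_mul, Complex.conj_conj, mul_comm]

private theorem hf_self (α : K) : hf K α α = ∑ σ : K →ₐ[ℚ] ℂ, ‖σ α‖ ^ 2 := by
  unfold hf
  rw [Complex.re_sum]
  refine Finset.sum_congr rfl fun σ _ => ?_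
  rw [Complex.mul_conj, Complex.ofReal_re, Complex.normSq_eq_norm_sq]

/-- the sum is real: σ and its conjugate embedding. -/
theorem hf_real (α β : K) : (∑ σ : K →ₐ[ℚ] ℂ, σ α * conj (σ β)) = (hf K α β : ℂ) := by
  have h1 := Complex.conj_eq_iff_re.1 (hf_conj K α β)
  unfold hf
  exact h1.symm

theorem qf_lin (α β : K) (x y : ℤ) : qf K (x * α + y * β) (x * α + y * β) =
    qf K α α * x ^ 2 + 2 * qf K α β * x * y + qf K β β * y ^ 2 := by
  have h1 : hf K (x * α + y * β) (x * α + y * β) =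
      hf K α α * x ^ 2 + (hf K α β + hf K β α) * x * y + hf K β β * y ^ 2 := by
    have h2 : ∀ γ δ : K, hf K γ δ = ∑ σ : K →ₐ[ℚ] ℂ, (σ γ * conj (σ δ)).re := fun γ δ => by
      unfold hf
      rw [Complex.re_sum]
    rw [h2, h2, h2, h2, h2]
    simp only [add_mul, Finset.sum_mul, ← Finset.sum_add_distrib]
    refine Finset.sum_congr rfl fun σ _ => ?_
    simp only [map_add, map_mul, map_intCast, Complex.mul_re, Complex.add_re, Complex.conj_re,
      Complex.mul_im, Complex.add_im, Complex.conj_im, Complex.intCast_re, Complex.intCast_im]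
    ring
  have h3 : (Algebra.trace ℚ K (x * α + y * β) : ℚ) =
      x * Algebra.trace ℚ K α + y * Algebra.trace ℚ K β := by
    have h4 : ∀ (z : ℤ) (γ : K), (z : K) * γ = (z : ℚ) • γ := fun z γ => by
      rw [Algebra.smul_def, map_intCast]
    rw [map_add, h4, h4, map_smul, map_smul, smul_eq_mul, smul_eq_mul]
  unfold qf
  rw [h1, h3, hf_comm K β α]
  push_cast
  ring

/-- Cauchy - Schwarz (three embeddings, the sum of the σ(α) is the trace). -/
theorem qf_nonneg (h : Module.finrank ℚ K = 3) (α : K) : 0 ≤ qf K α α := by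
  have h1 : (((Algebra.trace ℚ K α : ℚ) : ℝ)) ^ 2 ≤ 3 * hf K α α := by
    have h2 : ((Algebra.trace ℚ K α : ℚ) : ℂ) = ∑ σ : K →ₐ[ℚ] ℂ, σ α := by
      rw [← trace_eq_sum_embeddings ℂ (K := ℚ) (L := K) (x := α)]
      rfl
    have h3 : |((Algebra.trace ℚ K α : ℚ) : ℝ)| = ‖∑ σ : K →ₐ[ℚ] ℂ, σ α‖ := by
      rw [← h2, ← Complex.ofReal_ratCast, Complex.norm_real, Real.norm_eq_abs]
    have h4 : ‖∑ σ : K →ₐ[ℚ] ℂ, σ α‖ ≤ ∑ σ : K →ₐ[ℚ] ℂ, ‖σ α‖ := norm_sum_le _ _
    have h5 : (∑ σ : K →ₐ[ℚ] ℂ, ‖σ α‖) ^ 2 ≤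
        ((Finset.univ : Finset (K →ₐ[ℚ] ℂ)).card : ℝ) * ∑ σ : K →ₐ[ℚ] ℂ, ‖σ α‖ ^ 2 :=
      sq_sum_le_card_mul_sum_sq
    rw [Finset.card_univ, AlgHom.card ℚ K ℂ, h] at h5
    rw [hf_self, ← sq_abs, h3]
    refine le_trans (pow_le_pow_left₀ (norm_nonneg _) h4 2) (h5.trans (le_of_eq ?_))
    norm_num
  unfold qf
  rw [pow_two] at h1
  exact sub_nonneg.2 h1

end FQ
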