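import Pool.Agent.Lib.MP_fc64da_nt.Q.Par

/-!
Families of cubic fields inject into the pairs (P, U).
-/

open NumberField Polynomial

namespace FQ

private theorem fam_iso (K L : Type) [Field K] [NumberField K] [Field L] [NumberField L]
    (h : Module.finrank ℚ K = 3) (h' : Module.finrank ℚ L = 3) (β : K) (γ : L) (q : ℚ[X])
    (hq : q.natDegree = 3) (hb : minpoly ℚ β = q) (hc : minpoly ℚ γ = q) :
    Nonempty (K ≃+* L) := by
  have key : ∀ (M : Type) [Field M] [NumberField M] (δ : M), Module.finrank ℚ M = 3 →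
      minpoly ℚ δ = q → Nonempty (AdjoinRoot q ≃+* M) := by
    intro M _ _ δ hM hδ
    subst hδ
    have h1 : IntermediateField.adjoin ℚ {δ} = ⊤ :=
      (Field.primitive_element_iff_minpoly_natDegree_eq ℚ δ).2 (by rw [hq, hM])
    exact ⟨(((IntermediateField.adjoinRootEquivAdjoin ℚ (Algebra.IsIntegral.isIntegral δ)).trans
      (IntermediateField.equivOfEq h1)).trans IntermediateField.topEquiv).toRingEquiv⟩
  obtain ⟨e⟩ := key K β h hb
  obtain ⟨e'⟩ := key L γ h' hc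
  exact ⟨e.symm.trans e'⟩

private theorem fam_deg (P U : ℤ) :
    (X ^ 3 - C (3 * (P : ℚ)) * X - C (U : ℚ) : ℚ[X]).natDegree = 3 := by
  compute_degree!

private theorem fam_sqrt {x : ℤ} {n : ℕ} (h : x ^ 2 ≤ n) : |x| ≤ Nat.sqrt n := by
  have h1 : x.natAbs * x.natAbs ≤ n := by
    have h2 : ((x.natAbs * x.natAbs : ℕ) : ℤ) ≤ n := by
      push_cast
      rw [abs_mul_abs_self, ← sq]
      exact h
    exact_mod_cast h2
  have h3 := Nat.le_sqrt.2 h1
  rw [Int.abs_eq_natAbs]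
  exact_mod_cast h3

theorem inj (m : ℕ) (K : Fin m → Type) [∀ i, Field (K i)] [∀ i, NumberField (K i)]
    (h3 : ∀ i, Module.finrank ℚ (K i) = 3)
    (hiso : ∀ i j, Nonempty (K i ≃+* K j) → i = j) :
    ∃ (f : Fin m → ℤ × ℤ) (a : Fin m → ℤ), Function.Injective f ∧
      ∀ i, Par (discr (K i)) (a i) (f i).1 (f i).2 := by
  choose a P U β hP hβ using fun i => exists_par (K i) (h3 i)
  refine ⟨fun i => (P i, U i), a, fun i j hij => ?_, hP⟩
  obtain ⟨h1, h2⟩ := Prod.mk.inj hij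
  have hj := hβ j
  rw [← h1, ← h2] at hj
  exact hiso i j (fam_iso (K i) (K j) (h3 i) (h3 j) (β i) (β j) _ (fam_deg (P i) (U i)) (hβ i) hj)

/-- US is finite for `a` at least 1 (U^2 is at most 4 |P|^3 + 27 a^2 X). -/
theorem US_finite (S : Set ℤ) (X : ℕ) (a P : ℤ) : (US S X a P).Finite := by
  refine (Set.finite_Icc (-(4 * |P| ^ 3 + 27 * a ^ 2 * X)) (4 * |P| ^ 3 + 27 * a ^ 2 * X)).subset ?_
  rintro U ⟨D, -, hD, h⟩
  rw [Set.mem_Icc, ← abs_le]
  have h1 : P ^ 3 ≤ |P| ^ 3 := by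
    rw [← abs_pow]
    exact le_abs_self _
  have h2 : -(27 * a ^ 2 * D) ≤ 27 * a ^ 2 * X := by
    have h3 := (abs_le.1 hD).1
    nlinarith [sq_nonneg a]
  have h4 : |U| ≤ U ^ 2 := by
    rw [← sq_abs U]
    exact Int.le_self_sq |U|
  linarith

/-- the pairs with P = 0 are counted by U, the others by (a, P, U). -/
theorem fam_le (S : Set ℤ) (X : ℕ) (m : ℕ) (K : Fin m → Type) [∀ i, Field (K i)]
    [∀ i, NumberField (K i)] (h3 : ∀ i, Module.finrank ℚ (K i) = 3)
    (hS : ∀ i, discr (K i) ∈ S ∧ |discr (K i)| ≤ X)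
    (hiso : ∀ i j, Nonempty (K i ≃+* K j) → i = j) :
    m ≤ (∑ a ∈ Finset.Icc 1 (A0 X), ∑ P ∈ PI X, (US S X a P).ncard) + (2 * V0 X + 1) := by
  classical
  obtain ⟨f, a, hf, hp⟩ := inj m K h3 hiso
  obtain ⟨Z1, hZ1⟩ : ∃ Z1 : Finset (ℤ × ℤ), Z1 = (Finset.Icc 1 (A0 X)).biUnion fun a =>
    (PI X).biUnion fun P => (US_finite S X a P).toFinset.image fun U => (P, U) := ⟨_, rfl⟩
  obtain ⟨Z0, hZ0⟩ : ∃ Z0 : Finset (ℤ × ℤ), Z0 =
    (Finset.Icc (-(V0 X : ℤ)) (V0 X)).image fun U => ((0 : ℤ), U) := ⟨_, rfl⟩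
  have hmem : ∀ i, f i ∈ Z1 ∪ Z0 := by
    intro i
    obtain ⟨h1, h2, h4, h5⟩ := hp i
    obtain ⟨hDS, hDX⟩ := hS i
    obtain ⟨D, hD⟩ : ∃ D, D = discr (K i) := ⟨_, rfl⟩
    rw [← hD] at h2 h4 h5 hDS hDX
    have ha4 : (a i ^ 2) ^ 2 ≤ ((3 * X : ℕ) : ℤ) := by
      push_cast
      have h6 : (a i ^ 2) ^ 2 = a i ^ 4 := by ring
      rw [h6]
      have h7 := Int.natCast_nonneg X
      linarith
    have ha2 : a i ^ 2 ≤ ((Nat.sqrt (3 * X) : ℕ) : ℤ) := (le_abs_self _).trans (fam_sqrt ha4)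
    have ha : a i ≤ (A0 X : ℤ) := (le_abs_self _).trans (fam_sqrt ha2)
    obtain ⟨b, hb⟩ := Int.eq_ofNat_of_zero_le (show 0 ≤ a i by linarith)
    have hb1 : 1 ≤ b := by
      rw [hb] at h1
      exact_mod_cast h1
    have hbA : b ≤ A0 X := by
      rw [hb] at ha
      exact_mod_cast ha
    have hP : |(f i).1| ≤ (P0 X : ℤ) := by
      refine fam_sqrt ?_
      push_cast
      linarith
    rw [Finset.mem_union]
    rcases eq_or_ne (f i).1 0 with h0 | h0
    · right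
      rw [hZ0, Finset.mem_image]
      refine ⟨(f i).2, ?_, Prod.ext h0.symm rfl⟩
      rw [Finset.mem_Icc, ← abs_le]
      refine fam_sqrt ?_
      rw [h0] at h2
      have h8 : (f i).2 ^ 2 = -(27 * a i ^ 2 * D) := by linarith
      have h9 : -(27 * a i ^ 2 * D) ≤ 27 * a i ^ 2 * X := by
        have h10 := (abs_le.1 hDX).1
        nlinarith [sq_nonneg (a i)]
      have h11 : a i ^ 2 ≤ (A0 X : ℤ) ^ 2 := by
        rw [sq, sq]
        exact mul_le_mul ha ha (by linarith) (Int.natCast_nonneg _)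
      push_cast
      rw [h8]
      refine h9.trans ?_
      have h12 := Int.natCast_nonneg X
      exact mul_le_mul_of_nonneg_right (by linarith) h12
    · left
      rw [hZ1, Finset.mem_biUnion]
      refine ⟨b, Finset.mem_Icc.2 ⟨hb1, hbA⟩, ?_⟩
      rw [Finset.mem_biUnion]
      refine ⟨(f i).1, ?_, ?_⟩
      · rw [PI, Finset.mem_erase, Finset.mem_Icc, ← abs_le]
        exact ⟨h0, hP⟩
      · rw [Finset.mem_image]
        refine ⟨(f i).2, ?_, rfl⟩
        rw [Set.Finite.mem_toFinset]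
        refine ⟨D, hDS, hDX, ?_⟩
        rw [h2, hb]
  have hc1 : m ≤ (Z1 ∪ Z0).card := by
    calc m = (Finset.univ : Finset (Fin m)).card := by rw [Finset.card_univ, Fintype.card_fin]
      _ = (Finset.univ.image f).card := (Finset.card_image_of_injective _ hf).symm
      _ ≤ (Z1 ∪ Z0).card := Finset.card_le_card fun x hx => by
        obtain ⟨i, -, rfl⟩ := Finset.mem_image.1 hx
        exact hmem i
  refine hc1.trans ((Finset.card_union_le _ _).trans (add_le_add ?_ ?_))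
  · rw [hZ1]
    refine Finset.card_biUnion_le.trans (Finset.sum_le_sum fun b _ => ?_)
    refine Finset.card_biUnion_le.trans (Finset.sum_le_sum fun P _ => ?_)
    refine Finset.card_image_le.trans ?_
    rw [Set.ncard_eq_toFinset_card _ (US_finite S X b P)]
  · rw [hZ0]
    refine Finset.card_image_le.trans ?_
    rw [Int.card_Icc]
    omega

end FQ
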