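import Pool.Agent.Lib.MP_fc64da_nt.Q.Emb

/-!
The three conjugates.
-/

open NumberField Polynomial

namespace FQ

variable (K : Type) [Field K] [NumberField K]

/-- the e i α are three distinct roots of the minimal polynomial (α generates K). -/
theorem roots3 (h : Module.finrank ℚ K = 3) (e : Fin 3 ≃ (K →ₐ[ℚ] ℂ)) (α : K)
    (hd : (minpoly ℚ α).natDegree = 3) :
    (minpoly ℚ α).map (algebraMap ℚ ℂ) =
      (X - C (e 0 α)) * (X - C (e 1 α)) * (X - C (e 2 α)) := by
  have hint : IsIntegral ℚ α := Algebra.IsIntegral.isIntegral α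
  have hm : ((minpoly ℚ α).map (algebraMap ℚ ℂ)).Monic := (minpoly.monic hint).map _
  have hdeg : ((minpoly ℚ α).map (algebraMap ℚ ℂ)).natDegree = 3 := by
    rw [(minpoly.monic hint).natDegree_map, hd]
  have htop : IntermediateField.adjoin ℚ {α} = ⊤ :=
    (Field.primitive_element_iff_minpoly_natDegree_eq ℚ α).2 (by rw [hd, h])
  have hinj : ∀ σ τ : K →ₐ[ℚ] ℂ, σ α = τ α → σ = τ := by
    intro σ τ hστ
    refine (Field.primitive_element_iff_algHom_eq_of_eval' ℚ ℂ
      (fun x => IsAlgClosed.splits _) α).1 htop ?_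
    exact hστ
  have hroot : ∀ σ : K →ₐ[ℚ] ℂ, ((minpoly ℚ α).map (algebraMap ℚ ℂ)).IsRoot (σ α) := by
    intro σ
    rw [IsRoot.def, eval_map, ← aeval_def, aeval_algHom_apply, minpoly.aeval, map_zero]
  have hne : ∀ i j : Fin 3, i ≠ j → e i α ≠ e j α := by
    intro i j hij h1
    exact hij (e.injective (hinj _ _ h1))
  have hs : ({e 0 α, e 1 α, e 2 α} : Multiset ℂ) ≤
      ((minpoly ℚ α).map (algebraMap ℚ ℂ)).roots := by
    rw [Multiset.le_iff_subset]
    · intro a ha
      rw [mem_roots hm.ne_zero]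
      simp only [Multiset.insert_eq_cons, Multiset.mem_cons, Multiset.mem_singleton] at ha
      rcases ha with rfl | rfl | rfl <;> exact hroot _
    · simp only [Multiset.insert_eq_cons, Multiset.nodup_cons, Multiset.mem_cons,
        Multiset.mem_singleton, Multiset.nodup_singleton, not_or, and_true]
      exact ⟨⟨hne 0 1 (by decide), hne 0 2 (by decide)⟩, hne 1 2 (by decide)⟩
  have hc : ((minpoly ℚ α).map (algebraMap ℚ ℂ)).roots.card ≤
      ({e 0 α, e 1 α, e 2 α} : Multiset ℂ).card := by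
    have h1 := card_roots' ((minpoly ℚ α).map (algebraMap ℚ ℂ))
    rw [hdeg] at h1
    simpa using h1
  have he := Multiset.eq_of_le_of_card_le hs hc
  have hprod := prod_multiset_X_sub_C_of_monic_of_roots_card_eq hm (by
    rw [← he, hdeg]
    simp)
  rw [← he] at hprod
  rw [← hprod]
  simp only [Multiset.insert_eq_cons, Multiset.map_cons, Multiset.map_singleton,
    Multiset.prod_cons, Multiset.prod_singleton]
  ring

/-- 3 sum |z_i|^2 - |sum z_i|^2 = sum over i < j of |z_i - z_j|^2; the trace is the sum of the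
e i α (trace_eq_sum_embeddings). -/
theorem qf3 (h : Module.finrank ℚ K = 3) (e : Fin 3 ≃ (K →ₐ[ℚ] ℂ)) (α : K) :
    qf K α α = ‖e 0 α - e 1 α‖ ^ 2 + ‖e 0 α - e 2 α‖ ^ 2 + ‖e 1 α - e 2 α‖ ^ 2 := by
  have _ := h
  have htr : ((Algebra.trace ℚ K α : ℚ) : ℂ) = e 0 α + e 1 α + e 2 α := by
    have h1 := trace_eq_sum_embeddings (K := ℚ) (L := K) ℂ (x := α)
    rw [← Equiv.sum_comp e (fun σ : K →ₐ[ℚ] ℂ => σ α), Fin.sum_univ_three] at h1
    rw [← h1]
    rfl
  have hhf : hf K α α = ‖e 0 α‖ ^ 2 + ‖e 1 α‖ ^ 2 + ‖e 2 α‖ ^ 2 := by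
    unfold hf
    rw [← Equiv.sum_comp e (fun σ : K →ₐ[ℚ] ℂ => σ α * (starRingEnd ℂ) (σ α)),
      Fin.sum_univ_three]
    simp only [Complex.mul_conj, Complex.add_re, Complex.ofReal_re, Complex.sq_norm]
  have hre := congrArg Complex.re htr
  have him := congrArg Complex.im htr
  simp only [Complex.add_re, Complex.add_im, Complex.ratCast_re, Complex.ratCast_im] at hre him
  unfold qf
  rw [hhf, hre]
  simp only [Complex.sq_norm, Complex.normSq_apply, Complex.sub_re, Complex.sub_im]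
  have h2 : ((e 0 α).im + (e 1 α).im + (e 2 α).im) ^ 2 = 0 := by
    rw [← him]
    norm_num
  linear_combination h2

end FQ
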