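import Mathlib

/-!
The index. The family 1, α, α^2 is P applied to b with an integral matrix P (b.toMatrix or
b.repr); Algebra.discr_of_matrix_vecMul / mulVec, NumberField.discr_eq_discr; over ℂ the
discriminant of 1, α, α^2 is the square of the Vandermonde determinant
(Algebra.discr_eq_det_embeddingsMatrixReindex_pow_two). It is not 0 because the three
conjugates are distinct (α generates K). a is the absolute value of det P.
-/

open NumberField Polynomial

namespace FQ

variable (K : Type) [Field K] [NumberField K]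

theorem disc3 (h : Module.finrank ℚ K = 3) (e : Fin 3 ≃ (K →ₐ[ℚ] ℂ))
    (b : Module.Basis (Fin 3) ℤ (𝓞 K)) (α : 𝓞 K)
    (hd : (minpoly ℚ (α : K)).natDegree = 3) :
    ∃ a : ℤ, 1 ≤ a ∧ ((e 0 (α : K) - e 1 (α : K)) * (e 0 (α : K) - e 2 (α : K)) *
      (e 1 (α : K) - e 2 (α : K))) ^ 2 = (a : ℂ) ^ 2 * (discr K : ℂ) := by
  classical
  -- the discriminant is the square of the determinant of the conjugates of the basis
  obtain ⟨M, hM⟩ : ∃ M : Matrix (Fin 3) (Fin 3) ℂ, M = Matrix.of fun i j => e j (b i : K) :=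
    ⟨_, rfl⟩
  have hdM : M.det ^ 2 = (discr K : ℂ) := by
    have h1 := Algebra.discr_eq_det_embeddingsMatrixReindex_pow_two ℚ ℂ
      (b.localizationLocalization ℚ (nonZeroDivisors ℤ) K) e
    have h2 : (Algebra.discr ℚ (b.localizationLocalization ℚ (nonZeroDivisors ℤ) K) : ℚ) =
        (discr K : ℚ) := by
      rw [Algebra.discr_localizationLocalization ℤ _ K b, discr_eq_discr K b]
      rfl
    have h3 : Algebra.embeddingsMatrixReindex ℚ ℂ
        (b.localizationLocalization ℚ (nonZeroDivisors ℤ) K) e = M := by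
      rw [hM]
      ext i j
      simp only [Algebra.embeddingsMatrixReindex, Matrix.reindex_apply, Matrix.submatrix_apply,
        Equiv.refl_symm, Equiv.refl_apply, Equiv.symm_symm, Algebra.embeddingsMatrix_apply,
        Module.Basis.localizationLocalization_apply, Matrix.of_apply]
    rw [h2, h3] at h1
    rw [← h1]
    simp
  -- the matrix of the powers
  obtain ⟨C, hC⟩ : ∃ C : Matrix (Fin 3) (Fin 3) ℤ,
      C = Matrix.of fun (i k : Fin 3) => b.repr (α ^ (i : ℕ)) k := ⟨_, rfl⟩
  obtain ⟨V, hV⟩ : ∃ V : Matrix (Fin 3) (Fin 3) ℂ,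
      V = Matrix.of fun (i j : Fin 3) => e j (α : K) ^ (i : ℕ) := ⟨_, rfl⟩
  have hVC : V = C.map (Int.castRingHom ℂ) * M := by
    ext i j
    rw [Matrix.mul_apply, hV, hC, hM]
    simp only [Matrix.of_apply, Matrix.map_apply, eq_intCast]
    have h4 : (α ^ (i : ℕ) : 𝓞 K) = ∑ k, b.repr (α ^ (i : ℕ)) k • b k :=
      (b.sum_repr (α ^ (i : ℕ))).symm
    have h5 : ((α : K)) ^ (i : ℕ) = ∑ k, ((b.repr (α ^ (i : ℕ)) k : ℤ) : K) * (b k : K) := by
      have h6 := congrArg (fun x : 𝓞 K => (x : K)) h4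
      simp only [map_pow, map_sum, zsmul_eq_mul, map_mul, map_intCast] at h6
      exact h6
    rw [← map_pow, h5, map_sum]
    refine Finset.sum_congr rfl fun k _ => ?_
    rw [map_mul, map_intCast]
  have hdV : V.det = (e 0 (α : K) - e 1 (α : K)) * (e 0 (α : K) - e 2 (α : K)) *
      (e 1 (α : K) - e 2 (α : K)) * (-1) := by
    rw [Matrix.det_fin_three, hV]
    simp only [Matrix.of_apply, Fin.val_zero, Fin.val_one, Fin.val_two, pow_zero, pow_one]
    ring
  have hdet : V.det = (C.det : ℂ) * M.det := by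
    rw [hVC, Matrix.det_mul]
    congr 1
    exact ((Int.castRingHom ℂ).map_det C).symm
  -- the conjugates are distinct
  have hinj : Function.Injective fun φ : K →ₐ[ℚ] ℂ => φ (α : K) := by
    refine (Field.primitive_element_iff_algHom_eq_of_eval' ℚ ℂ
      (fun x => IsAlgClosed.splits _) (α : K)).1 ?_
    rw [Field.primitive_element_iff_minpoly_natDegree_eq, hd, h]
  have hne : ∀ i j : Fin 3, i ≠ j → e i (α : K) - e j (α : K) ≠ 0 := by
    intro i j hij h0
    exact hij (e.injective (hinj (sub_eq_zero.1 h0)))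
  have hV0 : V.det ≠ 0 := by
    rw [hdV]
    exact mul_ne_zero (mul_ne_zero (mul_ne_zero (hne 0 1 (by decide)) (hne 0 2 (by decide)))
      (hne 1 2 (by decide))) (neg_ne_zero.2 one_ne_zero)
  have hC0 : C.det ≠ 0 := by
    intro h0
    rw [hdet, h0, Int.cast_zero, zero_mul] at hV0
    exact hV0 rfl
  refine ⟨|C.det|, Int.one_le_abs hC0, ?_⟩
  have h7 : ((|C.det| : ℤ) : ℂ) ^ 2 = (C.det : ℂ) ^ 2 := by
    rw [← Int.cast_pow, sq_abs, Int.cast_pow]
  rw [h7, ← hdM, ← mul_pow, ← hdet, hdV]
  ring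

end FQ
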