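import Pool.Agent.Lib.MP_fc64da_nt.Q.GenA
import Pool.Agent.Lib.MP_fc64da_nt.Q.GenB
import Pool.Agent.Lib.MP_fc64da_nt.Q.GenC

/-!
A nonrational integer α = x b_1 + y b_2 of a cubic field.
-/

open NumberField Polynomial

namespace FQ

variable (K : Type) [Field K] [NumberField K]

/-- comparison of coefficients. -/
theorem vieta (s t n : ℚ) (z₁ z₂ z₃ : ℂ)
    (h : (X ^ 3 - C s * X ^ 2 + C t * X - C n : ℚ[X]).map (algebraMap ℚ ℂ) =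
      (X - C z₁) * (X - C z₂) * (X - C z₃)) :
    z₁ + z₂ + z₃ = s ∧ z₁ * z₂ + z₁ * z₃ + z₂ * z₃ = t ∧ z₁ * z₂ * z₃ = n := by
  have h' : (X ^ 3 - C (s : ℂ) * X ^ 2 + C (t : ℂ) * X - C (n : ℂ) : ℂ[X]) =
      X ^ 3 - C (z₁ + z₂ + z₃) * X ^ 2 + C (z₁ * z₂ + z₁ * z₃ + z₂ * z₃) * X -
        C (z₁ * z₂ * z₃) := by
    rw [Polynomial.map_sub, Polynomial.map_add, Polynomial.map_sub, Polynomial.map_mul,
      Polynomial.map_mul, Polynomial.map_pow, Polynomial.map_pow, Polynomial.map_X,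
      Polynomial.map_C, Polynomial.map_C, Polynomial.map_C, eq_ratCast, eq_ratCast,
      eq_ratCast] at h
    rw [h]
    simp only [C_add, C_mul]
    ring
  have c0 := congrArg (fun p => coeff p 0) h'
  have c1 := congrArg (fun p => coeff p 1) h'
  have c2 := congrArg (fun p => coeff p 2) h'
  simp only [coeff_sub, coeff_add, coeff_C_mul, coeff_X_pow, coeff_X, coeff_C] at c0 c1 c2
  norm_num at c0 c1 c2
  exact ⟨by linear_combination c2, by linear_combination -c1, by linear_combination -c0⟩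

theorem gen (h : Module.finrank ℚ K = 3) (b : Module.Basis (Fin 3) ℤ (𝓞 K)) (hb : b 0 = 1)
    (x y : ℤ) (hxy : x ≠ 0 ∨ y ≠ 0) (α : K) (hα : α = x * (b 1 : K) + y * (b 2 : K)) :
    ∃ (s t n a : ℤ) (z₁ z₂ z₃ : ℂ), 1 ≤ a ∧
      minpoly ℚ α = X ^ 3 - C (s : ℚ) * X ^ 2 + C (t : ℚ) * X - C (n : ℚ) ∧
      z₁ + z₂ + z₃ = s ∧ z₁ * z₂ + z₁ * z₃ + z₂ * z₃ = t ∧ z₁ * z₂ * z₃ = n ∧
      ((z₁ - z₂) * (z₁ - z₃) * (z₂ - z₃)) ^ 2 = (a : ℂ) ^ 2 * (discr K : ℂ) ∧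
      qf K α α = ‖z₁ - z₂‖ ^ 2 + ‖z₁ - z₃‖ ^ 2 + ‖z₂ - z₃‖ ^ 2 := by
  obtain ⟨e⟩ := exists_emb K h
  obtain ⟨β, hβ⟩ : ∃ β : 𝓞 K, (β : K) = α := ⟨x * b 1 + y * b 2, by rw [hα]; push_cast; rfl⟩
  have hd : (minpoly ℚ α).natDegree = 3 := deg3 K h α fun r => not_rat K b hb x y hxy α hα r
  obtain ⟨s, t, n, hm⟩ := coeffs K α (by rw [← hβ]; exact β.isIntegral_coe) hd
  obtain ⟨a, ha, ha2⟩ := disc3 K h e b β (by rw [hβ]; exact hd)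
  have hr := roots3 K h e α hd
  rw [hm] at hr
  obtain ⟨h1, h2, h3⟩ := vieta _ _ _ _ _ _ hr
  refine ⟨s, t, n, a, e 0 α, e 1 α, e 2 α, ha, hm, ?_, ?_, ?_, ?_, qf3 K h e α⟩
  · rw [h1]; norm_cast
  · rw [h2]; norm_cast
  · rw [h3]; norm_cast
  · rw [← hβ]; exact ha2

end FQ
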