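import Mathlib

/-!
Generators of a cubic field: degree and integral coefficients.
-/

open NumberField Polynomial

namespace FQ

variable (K : Type) [Field K] [NumberField K]

theorem exists_emb (h : Module.finrank ℚ K = 3) : Nonempty (Fin 3 ≃ (K →ₐ[ℚ] ℂ)) := by
  have h1 : Fintype.card (K →ₐ[ℚ] ℂ) = 3 := by
    rw [AlgHom.card ℚ K ℂ, h]
  exact ⟨(Fintype.equivFinOfCardEq h1).symm⟩

/-- a rational integer of K is in ℤ = ℤ b_0; the basis is independent. -/
theorem not_rat (b : Module.Basis (Fin 3) ℤ (𝓞 K)) (hb : b 0 = 1)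
    (x y : ℤ) (hxy : x ≠ 0 ∨ y ≠ 0) (α : K) (hα : α = x * (b 1 : K) + y * (b 2 : K)) (r : ℚ) :
    α ≠ algebraMap ℚ K r := by
  intro h
  have hα' : α = ((x • b 1 + y • b 2 : 𝓞 K) : K) := by
    change α = algebraMap (𝓞 K) K (x • b 1 + y • b 2)
    rw [map_add, map_zsmul, map_zsmul, zsmul_eq_mul, zsmul_eq_mul, hα]
  have hi : IsIntegral ℤ α := by
    rw [hα']
    exact RingOfIntegers.isIntegral_coe _
  have hr : IsIntegral ℤ r := by
    rw [h] at hi
    exact (isIntegral_algebraMap_iff (algebraMap ℚ K).injective).1 hi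
  obtain ⟨n, hn⟩ := IsIntegrallyClosed.isIntegral_iff.1 hr
  have h1 : (x • b 1 + y • b 2 : 𝓞 K) = n • b 0 := by
    apply RingOfIntegers.ext
    rw [← hα', h, ← hn, hb]
    simp
  have h2 := Fintype.linearIndependent_iff.1 b.linearIndependent ![-n, x, y] (by
    rw [Fin.sum_univ_three]
    simp only [Matrix.cons_val_zero, Matrix.cons_val_one, Matrix.cons_val]
    rw [add_assoc, h1, neg_smul, neg_add_cancel])
  have h3 := h2 1
  have h4 := h2 2
  simp only [Matrix.cons_val_one, Matrix.cons_val_zero, Matrix.cons_val] at h3 h4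
  rcases hxy with h5 | h5
  · exact h5 h3
  · exact h5 h4

/-- the degree of α divides the prime 3. -/
theorem deg3 (h : Module.finrank ℚ K = 3) (α : K) (hα : ∀ r : ℚ, α ≠ algebraMap ℚ K r) :
    (minpoly ℚ α).natDegree = 3 := by
  have h1 : (minpoly ℚ α).natDegree ∣ 3 := by
    rw [← h]
    exact minpoly.degree_dvd (Algebra.IsIntegral.isIntegral α)
  rcases (Nat.dvd_prime Nat.prime_three).1 h1 with h2 | h2
  · exfalso
    obtain ⟨r, hr⟩ := minpoly.natDegree_eq_one_iff.1 h2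
    exact hα r hr.symm
  · exact h2

theorem coeffs (α : K) (hi : IsIntegral ℤ α) (hd : (minpoly ℚ α).natDegree = 3) :
    ∃ s t n : ℤ, minpoly ℚ α = X ^ 3 - C (s : ℚ) * X ^ 2 + C (t : ℚ) * X - C (n : ℚ) := by
  have hz : minpoly ℚ α = (minpoly ℤ α).map (algebraMap ℤ ℚ) :=
    minpoly.isIntegrallyClosed_eq_field_fractions' ℚ hi
  have hm : (minpoly ℚ α).Monic := minpoly.monic (Algebra.IsIntegral.isIntegral α)
  have h1 := hm.as_sum
  have hc : ∀ i, (minpoly ℚ α).coeff i = (((minpoly ℤ α).coeff i : ℤ) : ℚ) := by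
    intro i
    rw [hz, coeff_map]
    rfl
  refine ⟨-(minpoly ℤ α).coeff 2, (minpoly ℤ α).coeff 1, -(minpoly ℤ α).coeff 0, ?_⟩
  rw [hd, Finset.sum_range_succ, Finset.sum_range_succ, Finset.sum_range_one, hc, hc, hc] at h1
  rw [h1]
  push_cast
  simp only [C_neg, map_intCast]
  ring

end FQ
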