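import Pool.Agent.Lib.MP_fc64da_nt.Q.Emb

/-!
The Gram determinant. With M = (σ(b_j)) the discriminant is det M ^ 2
(Algebra.discr_eq_det_embeddingsMatrixReindex_pow_two), so |disc| = |det M|^2 is the
determinant of the hermitian matrix of the sums of conj σ(b_i) σ(b_j), a real matrix with
first row 3, tr ω, tr θ (hf_real), and
A C - B^2 = 3 det for A = qf ω ω, B = qf ω θ, C = qf θ θ.
-/

open NumberField ComplexConjugate

namespace FQ

variable (K : Type) [Field K] [NumberField K]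

/-- The discriminant over `ℚ` of an integral basis. -/
private theorem discr_aux (b : Module.Basis (Fin 3) ℤ (𝓞 K)) :
    Algebra.discr ℚ (fun i => (b i : K)) = (discr K : ℚ) := by
  rw [← discr_eq_discr K b]
  change _ = algebraMap ℤ ℚ _
  rw [← Algebra.discr_localizationLocalization ℤ (nonZeroDivisors ℤ) K]
  congr 1
  ext
  simp only [Module.Basis.localizationLocalization_apply]

/-- The form is symmetric. -/
private theorem hf_symm (α β : K) : hf K α β = hf K β α := by
  unfold hf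
  rw [Complex.re_sum, Complex.re_sum]
  refine Finset.sum_congr rfl fun σ _ => ?_
  simp [Complex.mul_re]
  ring

private theorem hf_one (α : K) : hf K α 1 = ((Algebra.trace ℚ K α : ℚ) : ℝ) := by
  unfold hf
  have h := trace_eq_sum_embeddings ℂ (K := ℚ) (x := α)
  simp only [map_one, mul_one]
  rw [← h]
  simp

private theorem det3 (G : Matrix (Fin 3) (Fin 3) ℝ) (t1 t2 a b c : ℝ)
    (h00 : G 0 0 = 3) (h01 : G 0 1 = t1) (h10 : G 1 0 = t1) (h02 : G 0 2 = t2) (h20 : G 2 0 = t2)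
    (h11 : G 1 1 = a) (h12 : G 1 2 = b) (h21 : G 2 1 = b) (h22 : G 2 2 = c) :
    (3 * a - t1 * t1) * (3 * c - t2 * t2) - (3 * b - t1 * t2) ^ 2 = 3 * G.det := by
  rw [Matrix.det_fin_three, h00, h01, h10, h02, h20, h11, h12, h21, h22]
  ring

theorem gram (h : Module.finrank ℚ K = 3) (b : Module.Basis (Fin 3) ℤ (𝓞 K)) (hb : b 0 = 1) :
    qf K (b 1) (b 1) * qf K (b 2) (b 2) - qf K (b 1) (b 2) ^ 2 =
      3 * ((|discr K| : ℤ) : ℝ) := by
  classical
  have hcard : Fintype.card (Fin 3) = Fintype.card (K →ₐ[ℚ] ℂ) := by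
    rw [AlgHom.card ℚ K ℂ, h]; rfl
  obtain ⟨e⟩ : Nonempty (Fin 3 ≃ (K →ₐ[ℚ] ℂ)) := ⟨Fintype.equivOfCardEq hcard⟩
  set M : Matrix (Fin 3) (Fin 3) ℂ := Matrix.of fun i j => e j (b i : K) with hM
  have hME : Algebra.embeddingsMatrixReindex ℚ ℂ (fun i => (b i : K)) e = M := by
    ext i j
    simp [Algebra.embeddingsMatrixReindex, Algebra.embeddingsMatrix, hM]
  have hdet : ((discr K : ℤ) : ℂ) = M.det ^ 2 := by
    have h1 := Algebra.discr_eq_det_embeddingsMatrixReindex_pow_two ℚ ℂ (fun i => (b i : K)) e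
    rw [hME, discr_aux] at h1
    rw [← h1]
    simp
  set G : Matrix (Fin 3) (Fin 3) ℝ := Matrix.of fun i j => hf K (b i : K) (b j : K) with hG
  have hGM : G.map (algebraMap ℝ ℂ) = M * M.conjTranspose := by
    ext i j
    rw [Matrix.mul_apply, Matrix.map_apply, hG, Matrix.of_apply]
    change ((hf K (b i : K) (b j : K) : ℝ) : ℂ) = _
    rw [← hf_real, ← e.sum_comp]
    refine Finset.sum_congr rfl fun k _ => ?_
    simp [hM]
  have hdG : (G.det : ℂ) = M.det * conj M.det := by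
    have h2 : (algebraMap ℝ ℂ) G.det = (M * M.conjTranspose).det := by
      rw [RingHom.map_det, ← hGM]; rfl
    rw [Matrix.det_mul, Matrix.det_conjTranspose] at h2
    exact h2
  have habs : G.det = ((|discr K| : ℤ) : ℝ) := by
    have h3 : (G.det : ℂ) = ((‖M.det‖ ^ 2 : ℝ) : ℂ) := by
      rw [hdG, Complex.mul_conj, Complex.normSq_eq_norm_sq]
    have h4 : G.det = ‖M.det‖ ^ 2 := by exact_mod_cast h3
    rw [h4, ← norm_pow, ← hdet]
    rw [Complex.norm_intCast]
    push_cast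
    rfl
  rw [← habs]
  have hb' : ((b 0 : 𝓞 K) : K) = 1 := by rw [hb]; exact map_one (algebraMap (𝓞 K) K)
  have h00 : hf K ((b 0 : 𝓞 K) : K) ((b 0 : 𝓞 K) : K) = 3 := by
    rw [hb', hf_one]
    have := Algebra.trace_algebraMap (R := ℚ) (S := K) 1
    rw [map_one] at this
    rw [this, h]
    norm_num
  have := det3 G ((Algebra.trace ℚ K (b 1 : K) : ℚ) : ℝ) ((Algebra.trace ℚ K (b 2 : K) : ℚ) : ℝ)
    (hf K (b 1) (b 1)) (hf K (b 1) (b 2)) (hf K (b 2) (b 2)) h00
    (by change hf K (b 0 : K) (b 1 : K) = _; rw [hf_symm, hb', hf_one])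
    (by change hf K (b 1 : K) (b 0 : K) = _; rw [hb', hf_one])
    (by change hf K (b 0 : K) (b 2 : K) = _; rw [hf_symm, hb', hf_one])
    (by change hf K (b 2 : K) (b 0 : K) = _; rw [hb', hf_one])
    rfl rfl (hf_symm K _ _) rfl
  exact this

end FQ
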