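import Mathlib

/-!
Minimal polynomials: the shift 3 α - s, and the isomorphism.
-/

open Polynomial

namespace FQ

theorem min_shift (K : Type) [Field K] [NumberField K] (h : Module.finrank ℚ K = 3) (α : K)
    (s t n : ℤ)
    (hα : minpoly ℚ α = X ^ 3 - C (s : ℚ) * X ^ 2 + C (t : ℚ) * X - C (n : ℚ)) :
    minpoly ℚ (3 * α - (s : K)) = X ^ 3 - C (3 * ((s ^ 2 - 3 * t : ℤ) : ℚ)) * X -
      C ((2 * s ^ 3 - 9 * s * t + 27 * n : ℤ) : ℚ) := by
  have hint : IsIntegral ℚ α := Algebra.IsIntegral.isIntegral α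
  have hint' : IsIntegral ℚ (3 * α - (s : K)) := Algebra.IsIntegral.isIntegral _
  have hd : (minpoly ℚ α).natDegree = 3 := by
    rw [hα]
    compute_degree!
  have hs : ((s : ℤ) : K) = algebraMap ℚ K (s : ℚ) := by simp
  have hle : IntermediateField.adjoin ℚ {α} ≤ IntermediateField.adjoin ℚ {3 * α - (s : K)} := by
    rw [IntermediateField.adjoin_simple_le_iff]
    have h1 : (3 * α - (s : K)) ∈ IntermediateField.adjoin ℚ {3 * α - (s : K)} :=
      IntermediateField.mem_adjoin_simple_self ℚ _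
    have h2 : ((s : ℤ) : K) ∈ IntermediateField.adjoin ℚ {3 * α - (s : K)} := by
      rw [hs]
      exact IntermediateField.algebraMap_mem _ _
    have h3 : α = (1 / 3 : ℚ) • ((3 * α - (s : K)) + (s : K)) := by
      rw [Algebra.smul_def]
      simp
    have h4 := IntermediateField.smul_mem (IntermediateField.adjoin ℚ {3 * α - (s : K)})
      (add_mem h1 h2) (x := (1 / 3 : ℚ))
    rwa [← h3] at h4
  have hd' : 3 ≤ (minpoly ℚ (3 * α - (s : K))).natDegree := by
    rw [← IntermediateField.adjoin.finrank hint', ← hd, ← IntermediateField.adjoin.finrank hint]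
    exact LinearMap.finrank_le_finrank_of_injective
      (f := (IntermediateField.inclusion hle).toLinearMap)
      (IntermediateField.inclusion_injective hle)
  have hrel : α ^ 3 - (s : K) * α ^ 2 + (t : K) * α - (n : K) = 0 := by
    have h1 := minpoly.aeval ℚ α
    rw [hα] at h1
    simpa using h1
  have hroot : aeval (3 * α - (s : K)) (X ^ 3 - C (3 * ((s ^ 2 - 3 * t : ℤ) : ℚ)) * X -
      C ((2 * s ^ 3 - 9 * s * t + 27 * n : ℤ) : ℚ)) = 0 := by
    have h2 : aeval (3 * α - (s : K)) (X ^ 3 - C (3 * ((s ^ 2 - 3 * t : ℤ) : ℚ)) * X -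
        C ((2 * s ^ 3 - 9 * s * t + 27 * n : ℤ) : ℚ)) =
        27 * (α ^ 3 - (s : K) * α ^ 2 + (t : K) * α - (n : K)) := by
      simp
      ring
    rw [h2, hrel, mul_zero]
  symm
  refine Polynomial.eq_of_monic_of_dvd_of_natDegree_le (minpoly.monic hint') ?_
    (minpoly.dvd ℚ _ hroot) ?_
  · monicity!
  · refine le_trans ?_ hd'
    compute_degree!

/-- both fields are isomorphic to the quotient by the common minimal polynomial. -/
theorem iso_of_minpoly (K K' : Type) [Field K] [NumberField K] [Field K'] [NumberField K']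
    (h : Module.finrank ℚ K = 3) (h' : Module.finrank ℚ K' = 3) (β : K) (β' : K')
    (hβ : (minpoly ℚ β).natDegree = 3) (he : minpoly ℚ β = minpoly ℚ β') :
    Nonempty (K ≃+* K') := by
  have key : ∀ (L : Type) [Field L] [NumberField L] (γ : L), Module.finrank ℚ L = 3 →
      (minpoly ℚ γ).natDegree = 3 → Nonempty (AdjoinRoot (minpoly ℚ γ) ≃+* L) := by
    intro L _ _ γ hL hγ
    have h1 : IntermediateField.adjoin ℚ {γ} = ⊤ :=
      (Field.primitive_element_iff_minpoly_natDegree_eq ℚ γ).2 (by rw [hγ, hL])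
    have hint : IsIntegral ℚ γ := Algebra.IsIntegral.isIntegral γ
    exact ⟨((IntermediateField.adjoinRootEquivAdjoin ℚ hint).trans
      ((IntermediateField.equivOfEq h1).trans IntermediateField.topEquiv)).toRingEquiv⟩
  obtain ⟨e1⟩ := key K β h hβ
  have k2 := key K' β' h' (by rw [← he, hβ])
  rw [← he] at k2
  obtain ⟨e2⟩ := k2
  exact ⟨e1.symm.trans e2⟩

end FQ
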