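import Pool.Agent.Lib.MP_fc64da_nt.Q.Bin
import Pool.Agent.Lib.MP_fc64da_nt.Q.Bas
import Pool.Agent.Lib.MP_fc64da_nt.Q.Gram
import Pool.Agent.Lib.MP_fc64da_nt.Q.Gen
import Pool.Agent.Lib.MP_fc64da_nt.Q.Alg
import Pool.Agent.Lib.MP_fc64da_nt.Q.Min

/-!
Every cubic field has parameters.
-/

open NumberField Polynomial

namespace FQ

theorem exists_par (K : Type) [Field K] [NumberField K] (h : Module.finrank ℚ K = 3) :
    ∃ (a P U : ℤ) (β : K), Par (discr K) a P U ∧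
      minpoly ℚ β = X ^ 3 - C (3 * (P : ℚ)) * X - C (U : ℚ) := by
  have hD : discr K ≠ 0 := discr_ne_zero K
  obtain ⟨b, hb⟩ := exists_basis K h
  have hg := gram K h b hb
  have hDp : (0 : ℝ) < 3 * ((|discr K| : ℤ) : ℝ) := by
    have : 0 < |discr K| := abs_pos.mpr hD
    have : (0 : ℝ) < ((|discr K| : ℤ) : ℝ) := by exact_mod_cast this
    linarith
  have hA : 0 < qf K (b 1) (b 1) := by
    rcases (qf_nonneg K h (b 1 : K)).lt_or_eq with h0 | h0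
    · exact h0
    · exfalso
      rw [← h0] at hg
      nlinarith [sq_nonneg (qf K (b 1 : K) (b 2 : K))]
  obtain ⟨x, y, hxy, hle⟩ := bin_min _ _ _ _ hA hDp hg
  obtain ⟨s, t, n, a, z₁, z₂, z₃, ha, hm, h1, h2, h3, h4, hq⟩ :=
    gen K h b hb x y hxy _ rfl
  refine ⟨a, s ^ 2 - 3 * t, 2 * s ^ 3 - 9 * s * t + 27 * n,
    3 * ((x : K) * (b 1 : K) + y * (b 2 : K)) - s, ?_, ?_⟩
  · refine alg _ _ _ _ _ ha hD z₁ z₂ z₃ h1 h2 h3 h4 ?_
    rw [← hq, qf_lin]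
    exact hle
  · exact min_shift K h _ s t n hm

end FQ
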