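import Mathlib

/-!
Two primitive solutions of z^2 - g y^2 = k in the same class (relative to a reference
solution). Let d be the common gcd. Since (z y0 - z0 y)(z y0 + z0 y) = k (y0^2 - y^2),
k/d divides z y0 + z0 y; y0 is coprime to k; so d and k/d divide z y' - z' y and
z z' - g y y', hence so does their lcm = |k|/e, e = gcd(d, k/d). e^2 | k, e | 2 z y0, so
e | 2 z, e^2 | 4 g y^2, y coprime to k, e^2 | 4 g, e | 2.
-/

namespace FQ

private lemma pellA_cop {g k z y : ℤ} (h : z ^ 2 - g * y ^ 2 = k) (c : IsCoprime z y) :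
    IsCoprime y k := by
  have h1 : IsCoprime (z ^ 2) y := IsCoprime.pow_left c
  have h2 : z ^ 2 = k + (g * y) * y := by
    rw [← h]
    ring
  rw [h2] at h1
  exact (IsCoprime.of_add_mul_right_left h1).symm

/-- one solution -/
private lemma pellA_dvd {g k z₀ y₀ z y d k₁ : ℤ} (hd : d ≠ 0) (hk : k = k₁ * d)
    (h0 : z₀ ^ 2 - g * y₀ ^ 2 = k) (h : z ^ 2 - g * y ^ 2 = k) {a : ℤ}
    (ha : z * y₀ - z₀ * y = a * d) (hc : IsCoprime a k₁) : k₁ ∣ z * y₀ + z₀ * y := by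
  have h1 : (z * y₀ - z₀ * y) * (z * y₀ + z₀ * y) = k * (y₀ ^ 2 - y ^ 2) := by
    have e1 : z ^ 2 = k + g * y ^ 2 := by linarith
    have e0 : z₀ ^ 2 = k + g * y₀ ^ 2 := by linarith
    calc (z * y₀ - z₀ * y) * (z * y₀ + z₀ * y) = z ^ 2 * y₀ ^ 2 - z₀ ^ 2 * y ^ 2 := by ring
      _ = k * (y₀ ^ 2 - y ^ 2) := by
          rw [e1, e0]
          ring
  rw [ha, hk] at h1
  have h2 : a * (z * y₀ + z₀ * y) = k₁ * (y₀ ^ 2 - y ^ 2) := by
    refine mul_left_cancel₀ hd ?_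
    linear_combination h1
  exact hc.symm.dvd_of_dvd_mul_left ⟨_, h2⟩

theorem cls (g k z₀ y₀ z y z' y' : ℤ) (hg : Squarefree g) (hk : k ≠ 0)
    (h0 : z₀ ^ 2 - g * y₀ ^ 2 = k) (h : z ^ 2 - g * y ^ 2 = k)
    (h' : z' ^ 2 - g * y' ^ 2 = k) (c0 : IsCoprime z₀ y₀) (c : IsCoprime z y)
    (c' : IsCoprime z' y')
    (hd : Int.gcd (z * y₀ - z₀ * y) k = Int.gcd (z' * y₀ - z₀ * y') k) :
    k ∣ 2 * (z * z' - g * y * y') ∧ k ∣ 2 * (z * y' - z' * y) := by
  have hpos : 0 < Int.gcd (z * y₀ - z₀ * y) k := Int.gcd_pos_of_ne_zero_right _ hk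
  have hpos' : 0 < Int.gcd (z' * y₀ - z₀ * y') k := Int.gcd_pos_of_ne_zero_right _ hk
  obtain ⟨a, k₁, hak, ha, hk₁⟩ := Int.exists_gcd_one hpos
  obtain ⟨a', k₁', hak', ha', hk₁'⟩ := Int.exists_gcd_one hpos'
  rw [← hd] at ha' hk₁'
  obtain ⟨d, hdd⟩ : ∃ d : ℤ, d = (Int.gcd (z * y₀ - z₀ * y) k : ℤ) := ⟨_, rfl⟩
  rw [← hdd] at ha hk₁ ha' hk₁'
  have hd0 : d ≠ 0 := by
    rw [hdd]
    exact_mod_cast hpos.ne'
  have hkk : k₁' = k₁ := by
    refine mul_right_cancel₀ hd0 ?_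
    rw [← hk₁, ← hk₁']
  subst hkk
  have hB := pellA_dvd hd0 hk₁ h0 h ha (Int.isCoprime_iff_gcd_eq_one.2 hak)
  have hB' := pellA_dvd hd0 hk₁ h0 h' ha' (Int.isCoprime_iff_gcd_eq_one.2 hak')
  obtain ⟨b, hb⟩ := hB
  obtain ⟨b', hb'⟩ := hB'
  have cy0 : IsCoprime y₀ k := pellA_cop h0 c0
  have cy : IsCoprime y k := pellA_cop h c
  have cd : IsCoprime y₀ d := by
    rw [hk₁] at cy0
    exact IsCoprime.of_mul_right_right cy0
  have ck : IsCoprime y₀ k₁' := by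
    rw [hk₁] at cy0
    exact IsCoprime.of_mul_right_left cy0
  -- the four divisibilities
  have hY1 : d ∣ z * y' - z' * y := by
    refine cd.symm.dvd_of_dvd_mul_left ⟨a * y' - a' * y, ?_⟩
    linear_combination y' * ha - y * ha'
  have hY2 : k₁' ∣ z * y' - z' * y := by
    refine ck.symm.dvd_of_dvd_mul_left ⟨b * y' - b' * y, ?_⟩
    linear_combination y' * hb - y * hb'
  have hZ1 : d ∣ z * z' - g * y * y' := by
    refine (cd.pow_left (m := 2)).symm.dvd_of_dvd_mul_left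
      ⟨a * (z' * y₀) + z₀ * y * a' + k₁' * (y * y'), ?_⟩
    linear_combination (z' * y₀) * ha + (z₀ * y) * ha' + (y * y') * h0 + (y * y') * hk₁
  have hZ2 : k₁' ∣ z * z' - g * y * y' := by
    refine (ck.pow_left (m := 2)).symm.dvd_of_dvd_mul_left
      ⟨b * (z' * y₀) - z₀ * y * b' + d * (y * y'), ?_⟩
    linear_combination (z' * y₀) * hb - (z₀ * y) * hb' + (y * y') * h0 + (y * y') * hk₁
  -- the gcd of d and k₁
  have he : (Int.gcd d k₁' : ℤ) ∣ 2 := by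
    obtain ⟨e, hee⟩ : ∃ e : ℤ, e = (Int.gcd d k₁' : ℤ) := ⟨_, rfl⟩
    rw [← hee]
    have e1 : e ∣ d := by rw [hee]; exact Int.gcd_dvd_left _ _
    have e2 : e ∣ k₁' := by rw [hee]; exact Int.gcd_dvd_right _ _
    have e3 : e ^ 2 ∣ k := by
      rw [hk₁, pow_two]
      exact mul_dvd_mul e2 e1
    have e4 : e ∣ 2 * z := by
      have h5 : e ∣ y₀ * (2 * z) := by
        have h6 : y₀ * (2 * z) = a * d + k₁' * b := by linear_combination ha + hb
        rw [h6]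
        exact dvd_add (e1.mul_left _) (e2.mul_right _)
      exact (IsCoprime.of_isCoprime_of_dvd_right cd e1).symm.dvd_of_dvd_mul_left h5
    have e5 : e ^ 2 ∣ y ^ 2 * (4 * g) := by
      have h5 : y ^ 2 * (4 * g) = (2 * z) ^ 2 - 4 * k := by linear_combination -4 * h
      rw [h5]
      exact dvd_sub (pow_dvd_pow_of_dvd e4 2) (e3.mul_left _)
    have e6 : e ^ 2 ∣ 4 * g :=
      (IsCoprime.of_isCoprime_of_dvd_right (cy.pow_left (m := 2)) e3).symm.dvd_of_dvd_mul_left e5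
    rcases Int.even_or_odd' e with ⟨f, hf | hf⟩
    · have h5 : f * f ∣ g := by
        have h6 : (4 : ℤ) * (f * f) ∣ 4 * g := by
          have h7 : (4 : ℤ) * (f * f) = e ^ 2 := by rw [hf]; ring
          rw [h7]
          exact e6
        exact (mul_dvd_mul_iff_left (by norm_num)).1 h6
      have h6 : IsUnit f := hg f h5
      rw [hf]
      have h7 : 2 * f ∣ 2 * 1 := mul_dvd_mul_left 2 h6.dvd
      rwa [mul_one] at h7
    · have h5 : IsCoprime (e ^ 2) 4 := by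
        have h6 : IsCoprime e 2 := ⟨1, -f, by rw [hf]; ring⟩
        have h7 : IsCoprime (e ^ 2) (2 ^ 2) := h6.pow
        norm_num at h7
        exact h7
      have h6 : e * e ∣ g := by
        rw [← pow_two]
        exact h5.dvd_of_dvd_mul_left e6
      exact (hg e h6).dvd
  have hmul : ∀ x : ℤ, d ∣ x → k₁' ∣ x → k ∣ 2 * x := by
    intro x hx1 hx2
    have h1 : (Int.lcm d k₁' : ℤ) ∣ x := Int.coe_lcm_dvd hx1 hx2
    have h2 : ((Int.gcd d k₁' : ℤ) * (Int.lcm d k₁' : ℤ)) ∣ 2 * x := mul_dvd_mul he h1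
    refine dvd_trans ?_ h2
    have h3 : ((Int.gcd d k₁' * Int.lcm d k₁' : ℕ) : ℤ) = |d * k₁'| := by
      rw [Int.gcd_mul_lcm, ← Int.natAbs_mul, Int.natCast_natAbs]
    have h4 : k ∣ |d * k₁'| := by
      rw [dvd_abs, hk₁, mul_comm]
    rw [← h3] at h4
    exact_mod_cast h4
  exact ⟨hmul _ hZ1 hZ2, hmul _ hY1 hY2⟩

end FQ
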