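import Mathlib

/-!
The gap principle. Let 2 (z z' - g y y') = k u, 2 (z y' - z' y) = k v. Then
(z' + y' √g) = (z + y √g) η, η = (u + v √g) / 2, u^2 - g v^2 = 4, the inverse of η is
(u - v √g) / 2, η > 1, u = η + 1/η > 2, so u is at least 3 and η = u - 1/η is at least 2.
-/

namespace FQ

theorem gap (g k z y z' y' : ℤ) (hg2 : 2 ≤ g) (hk : k ≠ 0) (h : z ^ 2 - g * y ^ 2 = k)
    (h' : z' ^ 2 - g * y' ^ 2 = k) (h1 : k ∣ 2 * (z * z' - g * y * y'))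
    (h2 : k ∣ 2 * (z * y' - z' * y)) (hp : 0 < (z : ℝ) + y * √(g : ℝ))
    (hlt : (z : ℝ) + y * √(g : ℝ) < z' + y' * √(g : ℝ)) :
    2 * ((z : ℝ) + y * √(g : ℝ)) ≤ z' + y' * √(g : ℝ) := by
  obtain ⟨u, hu⟩ := h1
  obtain ⟨v, hv⟩ := h2
  have huv : u ^ 2 - g * v ^ 2 = 4 := by
    apply mul_left_cancel₀ (pow_ne_zero 2 hk)
    have e1 : k ^ 2 * (u ^ 2 - g * v ^ 2) = (k * u) ^ 2 - g * (k * v) ^ 2 := by ring
    have e2 : k ^ 2 = (z ^ 2 - g * y ^ 2) * (z' ^ 2 - g * y' ^ 2) := by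
      rw [h, h']
      ring
    rw [e1, ← hu, ← hv, e2]
    ring
  have hg : (0 : ℝ) ≤ g := by
    have : (0 : ℤ) ≤ g := by omega
    exact_mod_cast this
  obtain ⟨s, hs⟩ : ∃ s : ℝ, s = √(g : ℝ) := ⟨_, rfl⟩
  have hs2 : s ^ 2 = g := by
    rw [hs]
    exact Real.sq_sqrt hg
  rw [← hs] at hp hlt ⊢
  have hkR : (z : ℝ) ^ 2 - g * y ^ 2 = k := by exact_mod_cast h
  have huR : 2 * ((z : ℝ) * z' - g * y * y') = k * u := by exact_mod_cast hu
  have hvR : 2 * ((z : ℝ) * y' - z' * y) = k * v := by exact_mod_cast hv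
  have huvR : (u : ℝ) ^ 2 - g * v ^ 2 = 4 := by exact_mod_cast huv
  have hk0 : (k : ℝ) ≠ 0 := by exact_mod_cast hk
  obtain ⟨α, hα⟩ : ∃ α : ℝ, α = z + y * s := ⟨_, rfl⟩
  obtain ⟨α', hα'⟩ : ∃ α' : ℝ, α' = z' + y' * s := ⟨_, rfl⟩
  obtain ⟨η, hη⟩ : ∃ η : ℝ, η = (u + v * s) / 2 := ⟨_, rfl⟩
  obtain ⟨η', hη'⟩ : ∃ η' : ℝ, η' = (u - v * s) / 2 := ⟨_, rfl⟩
  have e1 : α' = α * η := by
    apply mul_left_cancel₀ hk0
    rw [hα', hα, hη]
    linear_combination (-((z' : ℝ) + y' * s)) * hkR + ((z : ℝ) + y * s) / 2 * huR +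
      ((z : ℝ) + y * s) / 2 * s * hvR +
      ((y : ℝ) ^ 2 * (z' + y' * s) - (z + y * s) * y * y') * hs2
  have e2 : η * η' = 1 := by
    rw [hη, hη']
    linear_combination (1 / 4) * huvR - (v : ℝ) ^ 2 / 4 * hs2
  have e3 : (u : ℝ) = η + η' := by
    rw [hη, hη']
    ring
  rw [← hα] at hp hlt ⊢
  rw [← hα'] at hlt ⊢
  have hη1 : 1 < η := by
    have h3 : α * 1 < α * η := by
      rw [mul_one, ← e1]
      exact hlt
    exact lt_of_mul_lt_mul_left h3 hp.le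
  have hη0 : 0 < η' := by
    have h3 : 0 < η * η' := by
      rw [e2]
      exact one_pos
    exact (pos_iff_pos_of_mul_pos h3).1 (by linarith)
  have hη2 : η' < 1 := by
    have h3 : η' * 1 < η' * η := mul_lt_mul_of_pos_left hη1 hη0
    rw [mul_one, mul_comm, e2] at h3
    exact h3
  have hu2 : (2 : ℝ) < u := by
    have h3 : 0 < (η - 1) * (1 - η') := mul_pos (by linarith) (by linarith)
    nlinarith
  have hu3 : (3 : ℝ) ≤ u := by
    have h3 : (2 : ℤ) < u := by exact_mod_cast hu2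
    have h4 : (3 : ℤ) ≤ u := by omega
    exact_mod_cast h4
  have hη3 : 2 ≤ η := by linarith
  rw [e1]
  nlinarith

end FQ
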