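import Pool.Agent.Lib.MP_fc64da_nt.Q.Defs
import Pool.Agent.Lib.MP_fc64da_nt.Q.PellA
import Pool.Agent.Lib.MP_fc64da_nt.Q.PellB

/-!
Primitive solutions. Choose a reference solution (z0, y0); the classes are the values of
gcd (z y0 - z0 y, k), a divisor of |k|.
-/

namespace FQ

private theorem pc_irr {g : ℤ} (hg : Squarefree g) (hg2 : 2 ≤ g) : Irrational (√(g : ℝ)) := by
  rw [irrational_sqrt_intCast_iff]
  refine ⟨?_, by omega⟩
  rintro ⟨r, hr⟩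
  have h1 : IsUnit r := hg r ⟨1, by rw [mul_one]; exact hr⟩
  rcases Int.isUnit_iff.1 h1 with h | h
  · rw [h] at hr
    omega
  · rw [h] at hr
    omega

private theorem pc_inj {g : ℤ} (hs : Irrational (√(g : ℝ))) {z y z' y' : ℤ}
    (h : (z : ℝ) + y * √(g : ℝ) = z' + y' * √(g : ℝ)) : z = z' ∧ y = y' := by
  by_cases hy : y = y'
  · subst hy
    refine ⟨?_, rfl⟩
    have h1 : (z : ℝ) = z' := by linarith
    exact_mod_cast h1
  · exfalso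
    apply hs
    refine ⟨((z' - z : ℤ) : ℚ) / ((y - y' : ℤ) : ℚ), ?_⟩
    have h1 : ((y - y' : ℤ) : ℝ) ≠ 0 := by
      exact_mod_cast sub_ne_zero.2 hy
    push_cast at h1 ⊢
    rw [div_eq_iff h1]
    linarith

private theorem pc_bd {g k Z z y : ℤ} (hg2 : 2 ≤ g) (hgZ : g ≤ Z) (hk : k ≠ 0) (hz : |z| ≤ Z)
    (hy : |y| ≤ Z) (h : z ^ 2 - g * y ^ 2 = k) (hp : 0 < (z : ℝ) + y * √(g : ℝ)) :
    (z : ℝ) + y * √(g : ℝ) ≤ 2 * (Z : ℝ) ^ 2 ∧
      1 ≤ 2 * (Z : ℝ) ^ 2 * ((z : ℝ) + y * √(g : ℝ)) := by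
  have hg2' : (2 : ℝ) ≤ (g : ℝ) := by exact_mod_cast hg2
  have hgZ' : (g : ℝ) ≤ (Z : ℝ) := by exact_mod_cast hgZ
  have hZ1 : (1 : ℝ) ≤ (Z : ℝ) := by linarith
  have hz' : |(z : ℝ)| ≤ (Z : ℝ) := by exact_mod_cast hz
  have hy' : |(y : ℝ)| ≤ (Z : ℝ) := by exact_mod_cast hy
  have hs0 : 0 ≤ √(g : ℝ) := Real.sqrt_nonneg _
  have hs2 : √(g : ℝ) ^ 2 = g := Real.sq_sqrt (by linarith)
  have hsZ : √(g : ℝ) ≤ (Z : ℝ) := by
    refine Real.sqrt_le_iff.2 ⟨by linarith, ?_⟩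
    nlinarith
  have hk1 : (1 : ℝ) ≤ |(k : ℝ)| := by
    have h1 : (1 : ℤ) ≤ |k| := Int.one_le_abs hk
    exact_mod_cast h1
  have hys : |(y : ℝ) * √(g : ℝ)| ≤ (Z : ℝ) * Z := by
    rw [abs_mul, abs_of_nonneg hs0]
    exact mul_le_mul hy' hsZ hs0 (by linarith)
  have hZZ : (Z : ℝ) ≤ (Z : ℝ) * Z := by nlinarith
  have hza := abs_le.1 hz'
  have hya := abs_le.1 hys
  refine ⟨by nlinarith, ?_⟩
  have hprod : ((z : ℝ) + y * √(g : ℝ)) * ((z : ℝ) - y * √(g : ℝ)) = k := by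
    have h1 : (z : ℝ) ^ 2 - g * (y : ℝ) ^ 2 = k := by exact_mod_cast h
    rw [← h1]
    linear_combination (-(y : ℝ) ^ 2) * hs2
  have hsub : |(z : ℝ) - y * √(g : ℝ)| ≤ 2 * (Z : ℝ) ^ 2 := by
    rw [abs_le]
    constructor
    · nlinarith
    · nlinarith
  calc (1 : ℝ) ≤ |(k : ℝ)| := hk1
    _ = ((z : ℝ) + y * √(g : ℝ)) * |(z : ℝ) - y * √(g : ℝ)| := by
      rw [← hprod, abs_mul, abs_of_pos hp]
    _ ≤ ((z : ℝ) + y * √(g : ℝ)) * (2 * (Z : ℝ) ^ 2) := mul_le_mul_of_nonneg_left hsub hp.le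
    _ = 2 * (Z : ℝ) ^ 2 * ((z : ℝ) + y * √(g : ℝ)) := by ring

private theorem pc_log {Z : ℤ} (hZ : 2 ≤ Z) {x : ℝ} (hx : 0 < x) (h1 : x ≤ 2 * (Z : ℝ) ^ 2)
    (h2 : 1 ≤ 2 * (Z : ℝ) ^ 2 * x) :
    Int.log 2 x ∈ Finset.Icc (-(2 * (Nat.log 2 Z.toNat : ℤ) + 3))
      (2 * (Nat.log 2 Z.toNat : ℤ) + 2) := by
  obtain ⟨L, hL⟩ : ∃ L : ℕ, L = Nat.log 2 Z.toNat := ⟨_, rfl⟩
  rw [← hL]
  have hZ0 : (0 : ℝ) ≤ (Z : ℝ) := by
    have h0 : (0 : ℤ) ≤ Z := by omega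
    exact_mod_cast h0
  have hZL : (Z : ℝ) < 2 ^ (L + 1) := by
    have h3 : Z.toNat < 2 ^ (L + 1) := by
      rw [hL]
      exact Nat.lt_pow_succ_log_self (by norm_num) _
    have h4 : (Z : ℝ) = (Z.toNat : ℝ) := by
      have h5 : ((Z.toNat : ℤ) : ℝ) = (Z : ℝ) := by rw [Int.toNat_of_nonneg (by omega)]
      rw [← h5]
      exact Int.cast_natCast _
    rw [h4]
    exact_mod_cast h3
  have hbd : 2 * (Z : ℝ) ^ 2 < 2 ^ (2 * L + 3) := by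
    have h3 : (Z : ℝ) ^ 2 < (2 ^ (L + 1)) ^ 2 := pow_lt_pow_left₀ hZL hZ0 (by norm_num)
    calc 2 * (Z : ℝ) ^ 2 < 2 * (2 ^ (L + 1)) ^ 2 := by linarith
      _ = 2 ^ (2 * L + 3) := by ring
  rw [Finset.mem_Icc]
  constructor
  · rw [← Int.zpow_le_iff_le_log (by norm_num) hx, zpow_neg]
    have h3 : ((2 : ℕ) : ℝ) ^ (2 * (L : ℤ) + 3) = 2 ^ (2 * L + 3) := by
      have h4 : (2 * (L : ℤ) + 3) = ((2 * L + 3 : ℕ) : ℤ) := by push_cast; ring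
      rw [h4, zpow_natCast]
      norm_num
    rw [h3, inv_le_iff_one_le_mul₀ (by positivity)]
    nlinarith
  · have h3 : Int.log 2 x < 2 * (L : ℤ) + 3 := by
      rw [← Int.lt_zpow_iff_log_lt (by norm_num) hx]
      have h4 : (2 * (L : ℤ) + 3) = ((2 * L + 3 : ℕ) : ℤ) := by push_cast; ring
      rw [h4, zpow_natCast]
      push_cast
      linarith
    omega

/-- In one class: the solutions with λ = z + y √g > 0 are distinguished by Int.log 2 λ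
(gap, irrationality of √g), λ lies between 1 / (2 Z^2) and 2 Z^2; the others are their
negatives. -/
theorem prim_pos (g k Z : ℤ) (hg : Squarefree g) (hg2 : 2 ≤ g) (hgZ : g ≤ Z) (hk : k ≠ 0) :
    ((Sol g k Z).filter fun w => IsCoprime w.1 w.2).card ≤
      k.natAbs.divisors.card * (8 * Nat.log 2 Z.toNat + 16) := by
  classical
  obtain ⟨T, hT⟩ : ∃ T : Finset (ℤ × ℤ),
      T = (Sol g k Z).filter fun w => IsCoprime w.1 w.2 := ⟨_, rfl⟩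
  rw [← hT]
  have hmem : ∀ w : ℤ × ℤ, w ∈ T ↔ (|w.1| ≤ Z ∧ |w.2| ≤ Z) ∧ w.1 ^ 2 - g * w.2 ^ 2 = k ∧
      IsCoprime w.1 w.2 := by
    intro w
    rw [hT, Sol, Finset.mem_filter, Finset.mem_filter, Finset.mem_product, Finset.mem_Icc,
      Finset.mem_Icc, abs_le, abs_le]
    tauto
  have hirr := pc_irr hg hg2
  have hne : ∀ w ∈ T, (w.1 : ℝ) + w.2 * √(g : ℝ) ≠ 0 := by
    intro w hw h0
    obtain ⟨h1, h2⟩ := pc_inj hirr (z := w.1) (y := w.2) (z' := 0) (y' := 0)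
      (by rw [h0]; simp)
    obtain ⟨-, h3, -⟩ := (hmem w).1 hw
    rw [h1, h2] at h3
    apply hk
    rw [← h3]
    ring
  rcases T.eq_empty_or_nonempty with hE | ⟨w₀, hw₀⟩
  · rw [hE, Finset.card_empty]
    exact Nat.zero_le _
  obtain ⟨-, e0, c0⟩ := (hmem w₀).1 hw₀
  obtain ⟨f, hf⟩ : ∃ f : ℤ × ℤ → ℕ, f = fun w => Int.gcd (w.1 * w₀.2 - w₀.1 * w.2) k :=
    ⟨_, rfl⟩
  have hfm : Set.MapsTo f (T : Set (ℤ × ℤ)) (k.natAbs.divisors : Set ℕ) := by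
    intro w _
    rw [Finset.mem_coe, Nat.mem_divisors]
    refine ⟨?_, Int.natAbs_ne_zero.2 hk⟩
    rw [hf]
    have h1 := Int.gcd_dvd_right (w.1 * w₀.2 - w₀.1 * w.2) k
    exact Int.natCast_dvd.1 h1
  rw [Finset.card_eq_sum_card_fiberwise hfm, ← smul_eq_mul]
  refine Finset.sum_le_card_nsmul _ _ _ fun d _ => ?_
  obtain ⟨F, hF⟩ : ∃ F : Finset (ℤ × ℤ), F = T.filter fun w => f w = d := ⟨_, rfl⟩
  rw [← hF]
  have hFm : ∀ w, w ∈ F ↔ w ∈ T ∧ f w = d := by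
    intro w
    rw [hF, Finset.mem_filter]
  obtain ⟨P, hP⟩ : ∃ P : Finset (ℤ × ℤ),
      P = F.filter fun w => 0 < (w.1 : ℝ) + w.2 * √(g : ℝ) := ⟨_, rfl⟩
  obtain ⟨N, hN⟩ : ∃ N : Finset (ℤ × ℤ),
      N = F.filter fun w => ¬ 0 < (w.1 : ℝ) + w.2 * √(g : ℝ) := ⟨_, rfl⟩
  have hPm : ∀ w, w ∈ P ↔ w ∈ F ∧ 0 < (w.1 : ℝ) + w.2 * √(g : ℝ) := by
    intro w
    rw [hP, Finset.mem_filter]
  have hPN : P.card + N.card = F.card := by
    rw [hP, hN]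
    exact Finset.card_filter_add_card_filter_not _
  have hNP : N.card ≤ P.card := by
    refine Finset.card_le_card_of_injOn (fun w => -w) ?_ ?_
    · intro w hw
      rw [Finset.mem_coe, hN, Finset.mem_filter] at hw
      obtain ⟨hw1, hw2⟩ := hw
      obtain ⟨hw3, hw4⟩ := (hFm w).1 hw1
      obtain ⟨⟨b1, b2⟩, b3, b4⟩ := (hmem w).1 hw3
      rw [Finset.mem_coe, hPm, hFm, hmem]
      refine ⟨⟨⟨⟨?_, ?_⟩, ?_, ?_⟩, ?_⟩, ?_⟩
      · rw [Prod.fst_neg, abs_neg]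
        exact b1
      · rw [Prod.snd_neg, abs_neg]
        exact b2
      · rw [Prod.fst_neg, Prod.snd_neg, neg_sq, neg_sq]
        exact b3
      · rw [Prod.fst_neg, Prod.snd_neg]
        exact b4.neg_neg
      · rw [← hw4, hf]
        have h1 : (-w).1 * w₀.2 - w₀.1 * (-w).2 = -(w.1 * w₀.2 - w₀.1 * w.2) := by
          rw [Prod.fst_neg, Prod.snd_neg]
          ring
        show Int.gcd ((-w).1 * w₀.2 - w₀.1 * (-w).2) k = Int.gcd (w.1 * w₀.2 - w₀.1 * w.2) k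
        rw [h1, Int.neg_gcd]
      · have h1 := hne w hw3
        rw [Prod.fst_neg, Prod.snd_neg]
        push_cast
        have h2 : (w.1 : ℝ) + w.2 * √(g : ℝ) < 0 := lt_of_le_of_ne (not_lt.1 hw2) h1
        linarith
    · intro w _ w' _ h
      exact neg_injective h
  have hPc : P.card ≤ 4 * Nat.log 2 Z.toNat + 6 := by
    have h1 : P.card ≤ (Finset.Icc (-(2 * (Nat.log 2 Z.toNat : ℤ) + 3))
        (2 * (Nat.log 2 Z.toNat : ℤ) + 2)).card := by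
      refine Finset.card_le_card_of_injOn
        (fun w => Int.log 2 ((w.1 : ℝ) + w.2 * √(g : ℝ))) ?_ ?_
      · intro w hw
        rw [Finset.mem_coe, hPm, hFm, hmem] at hw
        obtain ⟨⟨⟨⟨b1, b2⟩, b3, -⟩, -⟩, hpos⟩ := hw
        obtain ⟨h2, h3⟩ := pc_bd hg2 hgZ hk b1 b2 b3 hpos
        exact pc_log (hg2.trans hgZ) hpos h2 h3
      · have key : ∀ w ∈ P, ∀ w' ∈ P,
            Int.log 2 ((w.1 : ℝ) + w.2 * √(g : ℝ)) = Int.log 2 ((w'.1 : ℝ) + w'.2 * √(g : ℝ)) →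
            ¬ ((w.1 : ℝ) + w.2 * √(g : ℝ) < (w'.1 : ℝ) + w'.2 * √(g : ℝ)) := by
          intro w hw w' hw' hlog hlt
          rw [hPm, hFm, hmem] at hw hw'
          obtain ⟨⟨⟨-, a3, a4⟩, a5⟩, apos⟩ := hw
          obtain ⟨⟨⟨-, b3, b4⟩, b5⟩, bpos⟩ := hw'
          obtain ⟨d1, d2⟩ := cls g k w₀.1 w₀.2 w.1 w.2 w'.1 w'.2 hg hk e0 a3 b3 c0 a4 b4
            (by
              have h4 := a5.trans b5.symm
              rw [hf] at h4
              exact h4)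
          have h5 := gap g k w.1 w.2 w'.1 w'.2 hg2 hk a3 b3 d1 d2 apos hlt
          have h6 := Int.zpow_log_le_self (b := 2) (by norm_num) apos
          have h7 := Int.lt_zpow_succ_log_self (b := 2) (by norm_num)
            ((w'.1 : ℝ) + w'.2 * √(g : ℝ))
          rw [← hlog, zpow_add_one₀ (by norm_num)] at h7
          push_cast at h6 h7
          linarith
        intro w hw w' hw' h
        rw [Finset.mem_coe] at hw hw'
        have h2 := key w hw w' hw' h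
        have h3 := key w' hw' w hw h.symm
        obtain ⟨h4, h5⟩ := pc_inj hirr (le_antisymm (not_lt.1 h3) (not_lt.1 h2))
        exact Prod.ext h4 h5
    refine h1.trans ?_
    rw [Int.card_Icc]
    omega
  omega

end FQ
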