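import Pool.Agent.Lib.MP_fc64da_nt.Q.Defs

/-!
The case of a square g.
-/

namespace FQ

/-- z - h y divides k and determines (z, y). -/
theorem sol_sq (h k Z : ℤ) (hh : h ≠ 0) (hk : k ≠ 0) :
    (Sol (h ^ 2) k Z).card ≤ 2 * k.natAbs.divisors.card := by
  classical
  have hT : (k.natAbs.divisors.image (fun n : ℕ => (n : ℤ)) ∪
      k.natAbs.divisors.image (fun n : ℕ => -(n : ℤ))).card ≤ 2 * k.natAbs.divisors.card := by
    refine (Finset.card_union_le _ _).trans ?_
    have h1 := Finset.card_image_le (s := k.natAbs.divisors) (f := fun n : ℕ => (n : ℤ))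
    have h2 := Finset.card_image_le (s := k.natAbs.divisors) (f := fun n : ℕ => -(n : ℤ))
    omega
  refine le_trans ?_ hT
  have hsol : ∀ w ∈ Sol (h ^ 2) k Z, (w.1 - h * w.2) * (w.1 + h * w.2) = k := by
    intro w hw
    unfold Sol at hw
    rw [Finset.mem_filter] at hw
    rw [← hw.2]
    ring
  apply Finset.card_le_card_of_injOn fun w => w.1 - h * w.2
  · intro w hw
    have h1 := hsol w hw
    have h2 : (w.1 - h * w.2).natAbs ∈ k.natAbs.divisors := by
      rw [Nat.mem_divisors]
      exact ⟨Int.natAbs_dvd_natAbs.2 ⟨_, h1.symm⟩, Int.natAbs_ne_zero.2 hk⟩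
    rw [Finset.mem_coe, Finset.mem_union, Finset.mem_image, Finset.mem_image]
    rcases Int.natAbs_eq (w.1 - h * w.2) with h3 | h3
    · exact Or.inl ⟨_, h2, h3.symm⟩
    · exact Or.inr ⟨_, h2, h3.symm⟩
  · intro w hw w' hw' he
    have h1 := hsol w hw
    have h2 := hsol w' hw'
    have he' : w.1 - h * w.2 = w'.1 - h * w'.2 := he
    rw [← he'] at h2
    have h0 : w.1 - h * w.2 ≠ 0 := by
      intro h3
      rw [h3, zero_mul] at h1
      exact hk h1.symm
    have h3 : w.1 + h * w.2 = w'.1 + h * w'.2 := mul_left_cancel₀ h0 (h1.trans h2.symm)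
    have h4 : w.1 = w'.1 := by linarith
    have h5 : h * w.2 = h * w'.2 := by linarith
    exact Prod.ext h4 (mul_left_cancel₀ hh h5)

end FQ
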