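import Pool.Agent.Lib.MP_fc64da_nt.Q.PellF
import Pool.Agent.Lib.MP_fc64da_nt.Q.PellS
import Pool.Agent.Lib.MP_14ee70_nt.Div

/-!
All solutions.
-/

namespace FQ

/-- g = g1 h^2 with g1 squarefree: (z, y) to (z, h y), box Z^2. -/
theorem sol_gen (g k Z : ℤ) (hg : g ≠ 0) (hgZ : |g| ≤ Z) (hk : k ≠ 0) :
    (Sol g k Z).card ≤ k.natAbs.divisors.card ^ 2 * (16 * Nat.log 2 Z.toNat + 33) := by
  obtain ⟨a, b, hba, hsq⟩ := Nat.sq_mul_squarefree g.natAbs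
  have hZ1 : 1 ≤ Z := (Int.one_le_abs hg).trans hgZ
  have hgabs : (g.natAbs : ℤ) = |g| := Int.natCast_natAbs g
  have hba' : (b : ℤ) ^ 2 * (a : ℤ) = |g| := by
    rw [← hgabs, ← hba]
    push_cast
    ring
  have hgn : g.natAbs ≠ 0 := Int.natAbs_ne_zero.2 hg
  have hb0 : b ≠ 0 := by
    rintro rfl
    exact hgn (by rw [← hba]; ring)
  have ha0 : a ≠ 0 := by
    rintro rfl
    exact hgn (by rw [← hba]; ring)
  have hb1 : (1 : ℤ) ≤ b := by exact_mod_cast Nat.one_le_iff_ne_zero.2 hb0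
  have ha1 : (1 : ℤ) ≤ a := by exact_mod_cast Nat.one_le_iff_ne_zero.2 ha0
  have hbZ : (b : ℤ) ≤ Z := by
    have h1 : (b : ℤ) ≤ (b : ℤ) ^ 2 * (a : ℤ) := by nlinarith
    omega
  have haZ : (a : ℤ) ≤ Z := by
    have h1 : (a : ℤ) ≤ (b : ℤ) ^ 2 * (a : ℤ) :=
      le_mul_of_one_le_left (by omega) (one_le_pow₀ hb1)
    omega
  have hZZ : Z ≤ Z ^ 2 := by nlinarith
  have hd : 1 ≤ k.natAbs.divisors.card :=
    Finset.card_pos.2 ⟨1, Nat.one_mem_divisors.2 (Int.natAbs_ne_zero.2 hk)⟩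
  obtain ⟨g1, hg1⟩ : ∃ g1 : ℤ, g1 = g.sign * (a : ℤ) := ⟨_, rfl⟩
  have hg1g : g = g1 * (b : ℤ) ^ 2 := by
    have h1 : g = g.sign * |g| := (Int.sign_mul_abs g).symm
    rw [hg1]
    calc g = g.sign * |g| := h1
      _ = g.sign * (a : ℤ) * (b : ℤ) ^ 2 := by rw [← hba']; ring
  have hg1abs : g1.natAbs = a := by
    rw [hg1, Int.natAbs_mul, Int.natAbs_sign_of_ne_zero hg, one_mul, Int.natAbs_natCast]
  have hg1sq : Squarefree g1 := by
    rw [← Int.squarefree_natAbs, hg1abs]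
    exact hsq
  by_cases h1 : g1 = 1
  · have h2 : g = (b : ℤ) ^ 2 := by rw [hg1g, h1, one_mul]
    rw [h2]
    refine (sol_sq (b : ℤ) k Z (by exact_mod_cast hb0) hk).trans ?_
    nlinarith [Nat.zero_le (Nat.log 2 Z.toNat), Nat.zero_le (k.natAbs.divisors.card ^ 2 * Nat.log 2 Z.toNat)]
  · have h3 : (Sol g k Z).card ≤ (Sol g1 k (Z ^ 2)).card := by
      refine Finset.card_le_card_of_injOn (fun w => (w.1, (b : ℤ) * w.2)) ?_ ?_
      · intro w hw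
        rw [Finset.mem_coe, Sol, Finset.mem_filter, Finset.mem_product, Finset.mem_Icc,
          Finset.mem_Icc] at hw
        rw [Finset.mem_coe, Sol, Finset.mem_filter, Finset.mem_product, Finset.mem_Icc,
          Finset.mem_Icc]
        obtain ⟨⟨⟨w1, w2⟩, w3, w4⟩, w5⟩ := hw
        refine ⟨⟨⟨by change -Z ^ 2 ≤ w.1; linarith, by change w.1 ≤ Z ^ 2; linarith⟩, ?_, ?_⟩, ?_⟩
        · change -Z ^ 2 ≤ (b : ℤ) * w.2
          nlinarith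
        · change (b : ℤ) * w.2 ≤ Z ^ 2
          nlinarith
        · change w.1 ^ 2 - g1 * ((b : ℤ) * w.2) ^ 2 = k
          rw [← w5, hg1g]
          ring
      · intro w _ v _ h
        have h' : ((w.1, (b : ℤ) * w.2) : ℤ × ℤ) = (v.1, (b : ℤ) * v.2) := h
        have e1 : w.1 = v.1 := (Prod.mk.injEq _ _ _ _ ▸ h').1
        have e2 : (b : ℤ) * w.2 = (b : ℤ) * v.2 := (Prod.mk.injEq _ _ _ _ ▸ h').2
        exact Prod.ext e1 (mul_left_cancel₀ (by exact_mod_cast hb0) e2)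
    have hg1Z : |g1| ≤ Z ^ 2 := by
      rw [← Int.natCast_natAbs, hg1abs]
      omega
    refine h3.trans ((sol_sf g1 k (Z ^ 2) hg1sq h1 hg1Z hk).trans (Nat.mul_le_mul_left _ ?_))
    have h4 : (Z ^ 2).toNat = Z.toNat ^ 2 := by
      obtain ⟨n, rfl⟩ := Int.eq_ofNat_of_zero_le (show 0 ≤ Z by omega)
      rw [Int.toNat_natCast, ← Nat.cast_pow, Int.toNat_natCast]
    have hn0 : Z.toNat ≠ 0 := by omega
    have h5 : Nat.log 2 (Z.toNat ^ 2) < 2 * Nat.log 2 Z.toNat + 2 := by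
      refine Nat.log_lt_of_lt_pow (pow_ne_zero 2 hn0) ?_
      calc Z.toNat ^ 2 < (2 ^ (Nat.log 2 Z.toNat + 1)) ^ 2 :=
            Nat.pow_lt_pow_left (Nat.lt_pow_succ_log_self (by norm_num) _) (by norm_num)
        _ = 2 ^ (2 * Nat.log 2 Z.toNat + 2) := by rw [← pow_mul]; ring_nf
    rw [h4]
    omega

/-- divisor bound MP14ee70.card_divisors_le; Nat.log 2 Z is at most C Z^μ. -/
theorem pell (ε : ℝ) (hε : 0 < ε) : ∃ C : ℝ, 0 < C ∧ ∀ (Z : ℕ), 1 ≤ Z → ∀ g k : ℤ, g ≠ 0 →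
    k ≠ 0 → |g| ≤ Z → |k| ≤ Z → ((Sol g k Z).card : ℝ) ≤ C * (Z : ℝ) ^ ε := by
  obtain ⟨K, hK1, hK⟩ := MP14ee70.card_divisors_le (ε / 4) (by positivity)
  have hl2 : 0 < Real.log 2 := Real.log_pos (by norm_num)
  obtain ⟨B, hB⟩ : ∃ B : ℝ, B = 1 / ((ε / 2) * Real.log 2) := ⟨_, rfl⟩
  have hB0 : 0 < B := by rw [hB]; positivity
  refine ⟨K ^ 2 * (16 * B + 33), by positivity, ?_⟩
  intro Z hZ g k hg hk hgZ hkZ
  have hZ0 : (0 : ℝ) < Z := by exact_mod_cast hZ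
  have hZ1 : (1 : ℝ) ≤ Z := by exact_mod_cast hZ
  have h1 := sol_gen g k (Z : ℤ) hg hgZ hk
  rw [Int.toNat_natCast] at h1
  have h1' : ((Sol g k (Z : ℤ)).card : ℝ) ≤
      (k.natAbs.divisors.card : ℝ) ^ 2 * (16 * (Nat.log 2 Z : ℝ) + 33) := by exact_mod_cast h1
  have hkn : (k.natAbs : ℝ) ≤ Z := by
    have : (k.natAbs : ℤ) ≤ (Z : ℤ) := by rw [Int.natCast_natAbs]; exact hkZ
    exact_mod_cast this
  have h2 : (k.natAbs.divisors.card : ℝ) ≤ K * (Z : ℝ) ^ (ε / 4) :=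
    (hK _ (Int.natAbs_ne_zero.2 hk)).trans (mul_le_mul_of_nonneg_left
      (Real.rpow_le_rpow (Nat.cast_nonneg _) hkn (by positivity)) (by linarith))
  have h3 : (k.natAbs.divisors.card : ℝ) ^ 2 ≤ K ^ 2 * (Z : ℝ) ^ (ε / 2) := by
    have h := pow_le_pow_left₀ (Nat.cast_nonneg _) h2 2
    rw [mul_pow, ← Real.rpow_natCast ((Z : ℝ) ^ (ε / 4)) 2, ← Real.rpow_mul hZ0.le] at h
    have e : ε / 4 * ((2 : ℕ) : ℝ) = ε / 2 := by push_cast; ring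
    rw [e] at h
    exact h
  have hlog : (Nat.log 2 Z : ℝ) ≤ B * (Z : ℝ) ^ (ε / 2) := by
    have h4 : (Nat.log 2 Z : ℝ) ≤ Real.logb 2 Z := by
      have := Real.natLog_le_logb Z 2
      exact_mod_cast this
    have h5 : Real.log Z ≤ (Z : ℝ) ^ (ε / 2) / (ε / 2) := Real.log_le_rpow_div hZ0.le (by positivity)
    refine h4.trans ?_
    rw [Real.logb]
    calc Real.log Z / Real.log 2 ≤ (Z : ℝ) ^ (ε / 2) / (ε / 2) / Real.log 2 :=
          div_le_div_of_nonneg_right h5 hl2.le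
      _ = B * (Z : ℝ) ^ (ε / 2) := by
          rw [hB, div_div, one_div, div_eq_mul_inv, mul_comm]
  have hone : (1 : ℝ) ≤ (Z : ℝ) ^ (ε / 2) := Real.one_le_rpow hZ1 (by positivity)
  have h6 : 16 * (Nat.log 2 Z : ℝ) + 33 ≤ (16 * B + 33) * (Z : ℝ) ^ (ε / 2) := by linarith
  calc ((Sol g k (Z : ℤ)).card : ℝ)
      ≤ (k.natAbs.divisors.card : ℝ) ^ 2 * (16 * (Nat.log 2 Z : ℝ) + 33) := h1'
    _ ≤ (K ^ 2 * (Z : ℝ) ^ (ε / 2)) * ((16 * B + 33) * (Z : ℝ) ^ (ε / 2)) :=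
        mul_le_mul h3 h6 (by positivity) (by positivity)
    _ = K ^ 2 * (16 * B + 33) * ((Z : ℝ) ^ (ε / 2) * (Z : ℝ) ^ (ε / 2)) := by ring
    _ = K ^ 2 * (16 * B + 33) * (Z : ℝ) ^ ε := by
        rw [← Real.rpow_add hZ0, add_halves]

end FQ
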