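import Pool.Agent.Lib.MP_fc64da_nt.Q.Defs
import Pool.Agent.Lib.MP_fc64da_nt.Q.PellA

/-!
Primitive solutions for negative g. Choose a reference solution (z0, y0); the classes are the
values of gcd (z y0 - z0 y, k), a divisor of |k|.
-/

namespace FQ

private lemma uv_bound {g k z y z' y' u v : ℤ} (hg0 : g < 0) (hk : k ≠ 0)
    (h : z ^ 2 - g * y ^ 2 = k) (h' : z' ^ 2 - g * y' ^ 2 = k)
    (hu : 2 * (z * z' - g * y * y') = k * u) (hv : 2 * (z * y' - z' * y) = k * v) :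
    (-2 ≤ u ∧ u ≤ 2) ∧ (-2 ≤ v ∧ v ≤ 2) := by
  have h1 : k ^ 2 * (u ^ 2 - g * v ^ 2) = k ^ 2 * 4 := by
    calc k ^ 2 * (u ^ 2 - g * v ^ 2) = (k * u) ^ 2 - g * (k * v) ^ 2 := by ring
      _ = (2 * (z * z' - g * y * y')) ^ 2 - g * (2 * (z * y' - z' * y)) ^ 2 := by rw [hu, hv]
      _ = 4 * ((z ^ 2 - g * y ^ 2) * (z' ^ 2 - g * y' ^ 2)) := by ring
      _ = k ^ 2 * 4 := by
          rw [h, h']
          ring
  have h2 : u ^ 2 - g * v ^ 2 = 4 := mul_left_cancel₀ (pow_ne_zero 2 hk) h1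
  have h3 : 0 ≤ v ^ 2 := sq_nonneg v
  have h4 : v ^ 2 ≤ -g * v ^ 2 := by nlinarith
  have hu2 : u ^ 2 ≤ 4 := by nlinarith
  have hv2 : v ^ 2 ≤ 4 := by nlinarith [sq_nonneg u]
  refine ⟨⟨?_, ?_⟩, ?_, ?_⟩ <;> nlinarith

private lemma inj_uv {g k z y z' y' z'' y'' : ℤ} (hk : k ≠ 0) (h : z ^ 2 - g * y ^ 2 = k)
    (hu : z * z' - g * y * y' = z * z'' - g * y * y'') (hv : z * y' - z' * y = z * y'' - z'' * y) :
    z' = z'' ∧ y' = y'' := by
  constructor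
  · apply mul_left_cancel₀ hk
    rw [← h]
    linear_combination z * hu + g * y * hv
  · apply mul_left_cancel₀ hk
    rw [← h]
    linear_combination y * hu + z * hv

/-- In one class: 2 (z z' - g y y') = k u, 2 (z y' - z' y) = k v with u^2 - g v^2 = 4, so
u and v are between -2 and 2, and (u, v) determines (z', y') for given (z, y). -/
theorem prim_neg (g k Z : ℤ) (hg : Squarefree g) (hg0 : g < 0) (hk : k ≠ 0) :
    ((Sol g k Z).filter fun w => IsCoprime w.1 w.2).card ≤ k.natAbs.divisors.card * 25 := by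
  classical
  obtain ⟨S, hS⟩ : ∃ S, S = (Sol g k Z).filter fun w => IsCoprime w.1 w.2 := ⟨_, rfl⟩
  rw [← hS]
  have hmem : ∀ w ∈ S, w.1 ^ 2 - g * w.2 ^ 2 = k ∧ IsCoprime w.1 w.2 := by
    intro w hw
    rw [hS, Finset.mem_filter, Sol, Finset.mem_filter] at hw
    exact ⟨hw.1.2, hw.2⟩
  rcases S.eq_empty_or_nonempty with h0 | ⟨w0, hw0⟩
  · rw [h0, Finset.card_empty]
    exact Nat.zero_le _
  obtain ⟨e0, c0⟩ := hmem w0 hw0
  obtain ⟨φ, hφ⟩ : ∃ φ : ℤ × ℤ → ℕ, φ = fun w => Int.gcd (w.1 * w0.2 - w0.1 * w.2) k := ⟨_, rfl⟩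
  have hmap : ∀ w ∈ S, φ w ∈ k.natAbs.divisors := by
    intro w _
    rw [Nat.mem_divisors, hφ]
    refine ⟨?_, Int.natAbs_ne_zero.2 hk⟩
    have h1 : ((Int.gcd (w.1 * w0.2 - w0.1 * w.2) k : ℕ) : ℤ) ∣ k := Int.gcd_dvd_right _ _
    exact Int.natCast_dvd.1 h1
  have hfib : ∀ d ∈ k.natAbs.divisors, (S.filter fun w => φ w = d).card ≤ 25 := by
    intro d _
    rcases (S.filter fun w => φ w = d).eq_empty_or_nonempty with h1 | ⟨w, hw⟩
    · rw [h1, Finset.card_empty]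
      exact Nat.zero_le _
    rw [Finset.mem_filter] at hw
    obtain ⟨e1, c1⟩ := hmem w hw.1
    have key : ∀ w' ∈ S.filter (fun w => φ w = d),
        w'.1 ^ 2 - g * w'.2 ^ 2 = k ∧ k ∣ 2 * (w.1 * w'.1 - g * w.2 * w'.2) ∧
          k ∣ 2 * (w.1 * w'.2 - w'.1 * w.2) := by
      intro w' hw'
      rw [Finset.mem_filter] at hw'
      obtain ⟨e2, c2⟩ := hmem w' hw'.1
      refine ⟨e2, ?_⟩
      refine cls g k w0.1 w0.2 w.1 w.2 w'.1 w'.2 hg hk e0 e1 e2 c0 c1 c2 ?_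
      have h2 : φ w = φ w' := hw.2.trans hw'.2.symm
      rw [hφ] at h2
      exact h2
    have hcard : (Finset.Icc (-2 : ℤ) 2 ×ˢ Finset.Icc (-2 : ℤ) 2).card = 25 := by
      rw [Finset.card_product, Int.card_Icc]
      rfl
    rw [← hcard]
    refine Finset.card_le_card_of_injOn
      (fun w' => (2 * (w.1 * w'.1 - g * w.2 * w'.2) / k, 2 * (w.1 * w'.2 - w'.1 * w.2) / k)) ?_ ?_
    · intro w' hw'
      obtain ⟨e2, ⟨u, hu⟩, ⟨v, hv⟩⟩ := key w' hw'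
      have hb := uv_bound hg0 hk e1 e2 hu hv
      change (2 * (w.1 * w'.1 - g * w.2 * w'.2) / k, 2 * (w.1 * w'.2 - w'.1 * w.2) / k) ∈
        ((Finset.Icc (-2 : ℤ) 2 ×ˢ Finset.Icc (-2 : ℤ) 2 : Finset (ℤ × ℤ)) : Set (ℤ × ℤ))
      rw [Finset.mem_coe, Finset.mem_product, Finset.mem_Icc, Finset.mem_Icc]
      dsimp only
      rw [hu, hv, Int.mul_ediv_cancel_left _ hk, Int.mul_ediv_cancel_left _ hk]
      exact hb
    · intro w' hw' w'' hw'' heq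
      obtain ⟨e2, ⟨u, hu⟩, ⟨v, hv⟩⟩ := key w' hw'
      obtain ⟨e3, ⟨u', hu'⟩, ⟨v', hv'⟩⟩ := key w'' hw''
      dsimp only at heq
      rw [hu, hv, hu', hv', Int.mul_ediv_cancel_left _ hk, Int.mul_ediv_cancel_left _ hk,
        Int.mul_ediv_cancel_left _ hk, Int.mul_ediv_cancel_left _ hk, Prod.mk.injEq] at heq
      have h2 : w.1 * w'.1 - g * w.2 * w'.2 = w.1 * w''.1 - g * w.2 * w''.2 := by
        have h3 : 2 * (w.1 * w'.1 - g * w.2 * w'.2) = 2 * (w.1 * w''.1 - g * w.2 * w''.2) := by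
          rw [hu, hu', heq.1]
        linarith
      have h4 : w.1 * w'.2 - w'.1 * w.2 = w.1 * w''.2 - w''.1 * w.2 := by
        have h3 : 2 * (w.1 * w'.2 - w'.1 * w.2) = 2 * (w.1 * w''.2 - w''.1 * w.2) := by
          rw [hv, hv', heq.2]
        linarith
      obtain ⟨h5, h6⟩ := inj_uv hk e1 h2 h4
      exact Prod.ext h5 h6
  calc S.card ≤ 25 * k.natAbs.divisors.card :=
        Finset.card_le_mul_card_image_of_maps_to hmap 25 hfib
    _ = k.natAbs.divisors.card * 25 := mul_comm _ _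

end FQ
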