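import Pool.Agent.Lib.MP_fc64da_nt.Q.PellC
import Pool.Agent.Lib.MP_fc64da_nt.Q.PellN

/-!
All solutions for squarefree g.
-/

namespace FQ

private lemma PellF_prim (g k Z : ℤ) (hg : Squarefree g) (hg1 : g ≠ 1) (hgZ : |g| ≤ Z)
    (hk : k ≠ 0) : ((Sol g k Z).filter fun w => IsCoprime w.1 w.2).card ≤
      k.natAbs.divisors.card * (8 * Nat.log 2 Z.toNat + 25) := by
  have h0 : g ≠ 0 := hg.ne_zero
  rcases lt_or_gt_of_ne h0 with h | h
  · refine (prim_neg g k Z hg h hk).trans (Nat.mul_le_mul_left _ ?_)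
    omega
  · have h2 : 2 ≤ g := by omega
    refine (prim_pos g k Z hg h2 ((le_abs_self g).trans hgZ) hk).trans (Nat.mul_le_mul_left _ ?_)
    omega

private lemma PellF_abs_le {e a z Z : ℤ} (he : 1 ≤ e) (h : z = e * a) (hz : -Z ≤ z ∧ z ≤ Z) :
    -Z ≤ a ∧ a ≤ Z := by
  have h1 : |z| ≤ Z := abs_le.2 hz
  have h2 : |a| ≤ |z| := by
    rw [h, abs_mul, abs_of_pos (by omega : (0 : ℤ) < e)]
    exact le_mul_of_one_le_left (abs_nonneg a) he
  exact abs_le.1 (h2.trans h1)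

/-- by the gcd e of z and y (e^2 | k, (z/e, y/e) solves the equation for k/e^2). -/
theorem sol_sf (g k Z : ℤ) (hg : Squarefree g) (hg1 : g ≠ 1) (hgZ : |g| ≤ Z) (hk : k ≠ 0) :
    (Sol g k Z).card ≤ k.natAbs.divisors.card ^ 2 * (8 * Nat.log 2 Z.toNat + 25) := by
  classical
  have hmem : ∀ w ∈ Sol g k Z, ((-Z ≤ w.1 ∧ w.1 ≤ Z) ∧ (-Z ≤ w.2 ∧ w.2 ≤ Z)) ∧
      w.1 ^ 2 - g * w.2 ^ 2 = k := by
    intro w hw
    rw [Sol, Finset.mem_filter, Finset.mem_product, Finset.mem_Icc, Finset.mem_Icc] at hw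
    exact hw
  have hpos : ∀ w ∈ Sol g k Z, 0 < Int.gcd w.1 w.2 := by
    intro w hw
    rw [Int.gcd_pos_iff]
    by_contra h
    push Not at h
    have h1 := (hmem w hw).2
    rw [h.1, h.2] at h1
    apply hk
    rw [← h1]
    ring
  have hdvd : ∀ w ∈ Sol g k Z, ((Int.gcd w.1 w.2 : ℕ) : ℤ) ^ 2 ∣ k := by
    intro w hw
    rw [← (hmem w hw).2]
    have h1 : ((Int.gcd w.1 w.2 : ℕ) : ℤ) ^ 2 ∣ w.1 ^ 2 := pow_dvd_pow_of_dvd (Int.gcd_dvd_left _ _) 2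
    have h2 : ((Int.gcd w.1 w.2 : ℕ) : ℤ) ^ 2 ∣ w.2 ^ 2 := pow_dvd_pow_of_dvd (Int.gcd_dvd_right _ _) 2
    exact dvd_sub h1 (h2.mul_left g)
  have hmap : ∀ w ∈ Sol g k Z, Int.gcd w.1 w.2 ∈ k.natAbs.divisors := by
    intro w hw
    rw [Nat.mem_divisors]
    refine ⟨?_, Int.natAbs_ne_zero.2 hk⟩
    exact Int.natCast_dvd.1 ((dvd_pow_self _ two_ne_zero).trans (hdvd w hw))
  have hfib : ∀ d ∈ k.natAbs.divisors, ((Sol g k Z).filter fun w => Int.gcd w.1 w.2 = d).card ≤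
      k.natAbs.divisors.card * (8 * Nat.log 2 Z.toNat + 25) := by
    intro d _
    rcases ((Sol g k Z).filter fun w => Int.gcd w.1 w.2 = d).eq_empty_or_nonempty with h1 | ⟨w, hw⟩
    · rw [h1, Finset.card_empty]
      exact Nat.zero_le _
    rw [Finset.mem_filter] at hw
    have hd0 : 0 < d := hw.2 ▸ hpos w hw.1
    obtain ⟨k', hk'⟩ : ((d : ℕ) : ℤ) ^ 2 ∣ k := hw.2 ▸ hdvd w hw.1
    have hdZ : ((d : ℕ) : ℤ) ≠ 0 := by exact_mod_cast hd0.ne'
    have hk0 : k' ≠ 0 := by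
      rintro rfl
      exact hk (by rw [hk', mul_zero])
    have hle : k'.natAbs.divisors.card ≤ k.natAbs.divisors.card := by
      refine Finset.card_le_card (Nat.divisors_subset_of_dvd (Int.natAbs_ne_zero.2 hk) ?_)
      rw [Int.natAbs_dvd_natAbs]
      exact ⟨(d : ℤ) ^ 2, by rw [hk']; ring⟩
    refine le_trans ?_ ((PellF_prim g k' Z hg hg1 hgZ hk0).trans (Nat.mul_le_mul_right _ hle))
    refine Finset.card_le_card_of_injOn (fun w => (w.1 / (d : ℤ), w.2 / (d : ℤ))) ?_ ?_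
    · intro w hw
      have hw' := Finset.mem_filter.1 (Finset.mem_coe.1 hw)
      obtain ⟨hs, hgcd⟩ := hw'
      have e1 : ((d : ℕ) : ℤ) ∣ w.1 := hgcd ▸ Int.gcd_dvd_left _ _
      have e2 : ((d : ℕ) : ℤ) ∣ w.2 := hgcd ▸ Int.gcd_dvd_right _ _
      obtain ⟨a, ha⟩ := e1
      obtain ⟨b, hb⟩ := e2
      rw [Finset.mem_coe, Finset.mem_filter, Sol, Finset.mem_filter, Finset.mem_product,
        Finset.mem_Icc, Finset.mem_Icc]
      dsimp only
      have hm := hmem w hs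
      rw [ha, hb, Int.mul_ediv_cancel_left _ hdZ, Int.mul_ediv_cancel_left _ hdZ]
      have hd1 : (1 : ℤ) ≤ (d : ℤ) := by exact_mod_cast hd0
      refine ⟨⟨⟨PellF_abs_le hd1 ha hm.1.1, PellF_abs_le hd1 hb hm.1.2⟩, ?_⟩, ?_⟩
      · have h3 := hm.2
        rw [ha, hb, hk'] at h3
        have h4 : ((d : ℕ) : ℤ) ^ 2 * (a ^ 2 - g * b ^ 2) = ((d : ℕ) : ℤ) ^ 2 * k' := by
          rw [← h3]
          ring
        exact mul_left_cancel₀ (pow_ne_zero 2 hdZ) h4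
      · rw [Int.isCoprime_iff_gcd_eq_one]
        have h5 : Int.gcd w.1 w.2 = d * Int.gcd a b := by
          rw [ha, hb, Int.gcd_mul_left, Int.natAbs_natCast]
        rw [hgcd] at h5
        exact Nat.eq_of_mul_eq_mul_left hd0 (by rw [← h5, mul_one])
    · intro w hw w' hw' heq
      obtain ⟨hs, hgcd⟩ := Finset.mem_filter.1 (Finset.mem_coe.1 hw)
      obtain ⟨hs', hgcd'⟩ := Finset.mem_filter.1 (Finset.mem_coe.1 hw')
      have e1 : ((d : ℕ) : ℤ) ∣ w.1 := hgcd ▸ Int.gcd_dvd_left _ _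
      have e2 : ((d : ℕ) : ℤ) ∣ w.2 := hgcd ▸ Int.gcd_dvd_right _ _
      have e3 : ((d : ℕ) : ℤ) ∣ w'.1 := hgcd' ▸ Int.gcd_dvd_left _ _
      have e4 : ((d : ℕ) : ℤ) ∣ w'.2 := hgcd' ▸ Int.gcd_dvd_right _ _
      have heq' := Prod.mk.inj heq
      refine Prod.ext ?_ ?_
      · rw [← Int.mul_ediv_cancel' e1, ← Int.mul_ediv_cancel' e3, heq'.1]
      · rw [← Int.mul_ediv_cancel' e2, ← Int.mul_ediv_cancel' e4, heq'.2]
  calc (Sol g k Z).card ≤ k.natAbs.divisors.card * (8 * Nat.log 2 Z.toNat + 25) *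
        k.natAbs.divisors.card := Finset.card_le_mul_card_image_of_maps_to hmap _ hfib
    _ = k.natAbs.divisors.card ^ 2 * (8 * Nat.log 2 Z.toNat + 25) := by ring

end FQ
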