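import Pool.Agent.Lib.MP_fc64da_nt.Q.Defs

/-!
Normal form of the quadratic polynomial.
-/

namespace FQ

private theorem quadN_le {u x Y : ℤ} (hx : x ≠ 0) (h : |u * x| ≤ Y) : |u| ≤ Y := by
  refine le_trans ?_ h
  rw [abs_mul]
  exact le_mul_of_one_le_right (abs_nonneg _) (Int.one_le_abs hx)

private theorem quadN_core {Y A B g y₁ y₂ x₁ x₂ : ℤ} (h₁ : y₁ = A * x₁ ^ 2 + B * x₁ + g)
    (h₂ : y₂ = A * x₂ ^ 2 + B * x₂ + g) (hx₁ : x₁ ≠ 0) (hx₂ : x₂ ≠ 0) (hx : x₂ - x₁ ≠ 0)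
    (hxx : |x₁| ≤ |x₂|) (hg : |g| ≤ Y) (hy₁ : |y₁| ≤ Y) (hy₂ : |y₂| ≤ Y) :
    |A| ≤ 4 * Y ∧ |B| ≤ 6 * Y := by
  have h3 : |(A * x₁ + B) * x₁| ≤ 2 * Y := by
    have e : (A * x₁ + B) * x₁ = y₁ - g := by rw [h₁]; ring
    rw [e]
    exact (abs_sub _ _).trans (by linarith)
  have h4 : |(A * x₂ + B) * x₂| ≤ 2 * Y := by
    have e : (A * x₂ + B) * x₂ = y₂ - g := by rw [h₂]; ring
    rw [e]
    exact (abs_sub _ _).trans (by linarith)
  have h5 := quadN_le hx₁ h3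
  have h6 := quadN_le hx₂ h4
  have h7 : |(A * x₂ + B) * x₁| ≤ 2 * Y := by
    refine le_trans ?_ h4
    rw [abs_mul, abs_mul]
    exact mul_le_mul_of_nonneg_left hxx (abs_nonneg _)
  have h8 : |A * (x₂ - x₁)| ≤ 4 * Y := by
    have e : A * (x₂ - x₁) = (A * x₂ + B) - (A * x₁ + B) := by ring
    rw [e]
    exact (abs_sub _ _).trans (by linarith)
  have h9 : |A * x₁ * (x₂ - x₁)| ≤ 4 * Y := by
    have e : A * x₁ * (x₂ - x₁) = (A * x₂ + B) * x₁ - (A * x₁ + B) * x₁ := by ring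
    rw [e]
    exact (abs_sub _ _).trans (by linarith)
  have h10 := quadN_le hx h9
  refine ⟨quadN_le hx h8, ?_⟩
  have e : B = (A * x₁ + B) - A * x₁ := by ring
  rw [e]
  exact (abs_sub _ _).trans (by linarith)

/-- If at most two n have |f(n)| at most X: first case. Otherwise translate one of three such
n to 0; the others are x1, x2 with |x1| at most |x2|, and
A = ((f(x2) - f(0)) / x2 - (f(x1) - f(0)) / x1) / (x2 - x1),
|A x1| is at most (2 X |x1| / |x2| + 2 X) / |x2 - x1|, B' = (f(x1) - f(0)) / x1 - A x1. -/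
theorem quad_norm (X : ℕ) (A B G : ℤ) (hA : A ≠ 0) :
    (∃ D₁ D₂ : ℤ, ∀ D ∈ QS A B G, |D| ≤ X → D = D₁ ∨ D = D₂) ∨
      ∃ B' G' : ℤ, QS A B G = QS A B' G' ∧ |A| ≤ 4 * X ∧ |B'| ≤ 6 * X ∧ |G'| ≤ X := by
  classical
  have _ := hA
  obtain ⟨f, hf⟩ : ∃ f : ℤ → ℤ, f = fun n => A * n ^ 2 + B * n + G := ⟨_, rfl⟩
  have hfn : ∀ n, f n = A * n ^ 2 + B * n + G := fun n => by rw [hf]
  by_cases h : ∃ a b c : ℤ, a ≠ b ∧ a ≠ c ∧ b ≠ c ∧ |f a| ≤ X ∧ |f b| ≤ X ∧ |f c| ≤ X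
  · right
    obtain ⟨a, b, c, hab, hac, hbc, ha, hb, hc⟩ := h
    have hshift : ∀ x, f (a + x) = A * x ^ 2 + (2 * A * a + B) * x + f a := by
      intro x
      rw [hfn, hfn]
      ring
    have hbb : f b = A * (b - a) ^ 2 + (2 * A * a + B) * (b - a) + f a := by
      have h1 := hshift (b - a)
      rwa [add_sub_cancel] at h1
    have hcc : f c = A * (c - a) ^ 2 + (2 * A * a + B) * (c - a) + f a := by
      have h1 := hshift (c - a)
      rwa [add_sub_cancel] at h1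
    refine ⟨2 * A * a + B, f a, ?_, ?_⟩
    · ext D
      constructor
      · rintro ⟨n, rfl⟩
        refine ⟨n - a, ?_⟩
        rw [← hshift, add_sub_cancel, hfn]
      · rintro ⟨x, rfl⟩
        exact ⟨a + x, by rw [← hshift, hfn]⟩
    · rcases le_total |b - a| |c - a| with h1 | h1
      · obtain ⟨h2, h3⟩ := quadN_core hbb hcc (sub_ne_zero.2 hab.symm) (sub_ne_zero.2 hac.symm)
          (by omega) h1 ha hb hc
        exact ⟨h2, h3, ha⟩
      · obtain ⟨h2, h3⟩ := quadN_core hcc hbb (sub_ne_zero.2 hac.symm) (sub_ne_zero.2 hab.symm)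
          (by omega) h1 ha hc hb
        exact ⟨h2, h3, ha⟩
  · left
    by_cases h1 : ∃ a, |f a| ≤ X
    · obtain ⟨a, ha⟩ := h1
      by_cases h2 : ∃ b, a ≠ b ∧ |f b| ≤ X
      · obtain ⟨b, hab, hb⟩ := h2
        refine ⟨f a, f b, ?_⟩
        rintro D ⟨n, rfl⟩ hD
        by_cases hna : a = n
        · left
          rw [hna, hfn]
        · by_cases hnb : b = n
          · right
            rw [hnb, hfn]
          · exact absurd ⟨a, b, n, hab, hna, hnb, ha, hb, by rw [hfn]; exact hD⟩ h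
      · refine ⟨f a, f a, ?_⟩
        rintro D ⟨n, rfl⟩ hD
        left
        by_cases hna : a = n
        · rw [hna, hfn]
        · exact absurd ⟨n, hna, by rw [hfn]; exact hD⟩ h2
    · refine ⟨0, 0, ?_⟩
      rintro D ⟨n, rfl⟩ hD
      exact absurd ⟨n, by rw [hfn]; exact hD⟩ h1

theorem quad_n (X : ℕ) (hX : 1 ≤ X) (A B G n : ℤ) (hA : A ≠ 0) (hB : |B| ≤ 6 * X)
    (hG : |G| ≤ X) (hn : |A * n ^ 2 + B * n + G| ≤ X) : |n| ≤ 7 * X := by
  obtain ⟨Y, hY⟩ : ∃ Y : ℤ, Y = X := ⟨_, rfl⟩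
  have hY1 : 1 ≤ Y := by rw [hY]; exact_mod_cast hX
  rw [← hY] at hB hG hn ⊢
  by_contra hcon
  rw [not_le] at hcon
  have h1 : |A * n ^ 2| ≤ 2 * Y + 6 * Y * |n| := by
    have e : A * n ^ 2 = (A * n ^ 2 + B * n + G) - B * n - G := by ring
    rw [e]
    have h2 := abs_sub (A * n ^ 2 + B * n + G - B * n) G
    have h3 := abs_sub (A * n ^ 2 + B * n + G) (B * n)
    have h4 : |B * n| ≤ 6 * Y * |n| := by
      rw [abs_mul]
      exact mul_le_mul_of_nonneg_right hB (abs_nonneg _)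
    linarith
  have h2 : |n| ^ 2 ≤ |A * n ^ 2| := by
    rw [abs_mul, abs_pow]
    have h3 : 1 ≤ |A| := Int.one_le_abs hA
    nlinarith [sq_nonneg |n|]
  obtain ⟨m, hm⟩ : ∃ m : ℤ, m = |n| := ⟨_, rfl⟩
  rw [← hm] at h1 h2 hcon
  nlinarith

end FQ
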