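import Pool.Agent.Lib.MP_fc64da_nt.Q.PellD
import Pool.Agent.Lib.MP_fc64da_nt.Q.QuadN

/-!
The number of U for given (a, P). With m = 2 A n + B, Δ = B^2 - 4 A G:
4 A U^2 + 27 (a m)^2 = 16 A P^3 + 27 Δ a^2, so z = 27 a m, y = U solve z^2 - g y^2 = k with
g = -108 A, k = 27 (16 A P^3 + 27 Δ a^2); everything is at most 400000 X^4 in absolute value
(A0 X and P0 X are at most 3 X, |n| is at most 7 X).
-/

namespace FQ

private theorem qu_pow {x : ℤ} (hx : 1 ≤ x) {i j : ℕ} (h : i ≤ j) : x ^ i ≤ x ^ j :=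
  pow_le_pow_right₀ hx h

private theorem qu_k {x A B G a P : ℤ} (hx : 1 ≤ x) (hA : |A| ≤ 4 * x) (hB : |B| ≤ 6 * x)
    (hG : |G| ≤ x) (ha : |a| ≤ 3 * x) (hP : |P| ≤ 3 * x) :
    |27 * (16 * A * P ^ 3 + 27 * (B ^ 2 - 4 * A * G) * a ^ 2)| ≤ 400000 * x ^ 4 := by
  have h1 : |16 * A * P ^ 3| = 16 * |A| * |P| ^ 3 := by
    rw [abs_mul, abs_mul, abs_pow]
    rfl
  have h2 : |27 * (B ^ 2 - 4 * A * G) * a ^ 2| = 27 * |B ^ 2 - 4 * A * G| * |a| ^ 2 := by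
    rw [abs_mul, abs_mul, abs_pow]
    rfl
  have h3 : |B ^ 2 - 4 * A * G| ≤ |B| ^ 2 + 4 * |A| * |G| := by
    refine (abs_sub _ _).trans (le_of_eq ?_)
    rw [abs_pow, abs_mul, abs_mul]
    rfl
  have h4 : 16 * |A| * |P| ^ 3 ≤ 16 * (4 * x) * (3 * x) ^ 3 := by gcongr
  have h5 : |B| ^ 2 + 4 * |A| * |G| ≤ (6 * x) ^ 2 + 4 * (4 * x) * x := by gcongr
  have h6 : 27 * |B ^ 2 - 4 * A * G| * |a| ^ 2 ≤ 27 * ((6 * x) ^ 2 + 4 * (4 * x) * x) *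
      (3 * x) ^ 2 := by
    have h7 := h3.trans h5
    gcongr
  have h8 := abs_add_le (16 * A * P ^ 3) (27 * (B ^ 2 - 4 * A * G) * a ^ 2)
  rw [h1, h2] at h8
  have h9 : |27 * (16 * A * P ^ 3 + 27 * (B ^ 2 - 4 * A * G) * a ^ 2)| =
      27 * |16 * A * P ^ 3 + 27 * (B ^ 2 - 4 * A * G) * a ^ 2| := by
    rw [abs_mul]
    rfl
  rw [h9]
  have h10 : 0 ≤ x ^ 4 := by positivity
  nlinarith

private theorem qu_z {x A B n a : ℤ} (hx : 1 ≤ x) (hA : |A| ≤ 4 * x) (hB : |B| ≤ 6 * x)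
    (hn : |n| ≤ 7 * x) (ha : |a| ≤ 3 * x) :
    |27 * a * (2 * A * n + B)| ≤ 400000 * x ^ 4 := by
  have h1 : |2 * A * n + B| ≤ 2 * |A| * |n| + |B| := by
    refine (abs_add_le _ _).trans (le_of_eq ?_)
    rw [abs_mul, abs_mul]
    rfl
  have h2 : 2 * |A| * |n| + |B| ≤ 2 * (4 * x) * (7 * x) + 6 * x := by gcongr
  have h3 : |27 * a * (2 * A * n + B)| = 27 * |a| * |2 * A * n + B| := by
    rw [abs_mul, abs_mul]
    rfl
  have h4 : 27 * |a| * |2 * A * n + B| ≤ 27 * (3 * x) * (2 * (4 * x) * (7 * x) + 6 * x) := by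
    have h7 := h1.trans h2
    gcongr
  rw [h3]
  refine h4.trans ?_
  have h5 : x ^ 3 ≤ x ^ 4 := qu_pow hx (by norm_num)
  have h6 : x ^ 2 ≤ x ^ 4 := qu_pow hx (by norm_num)
  have h7 : 0 ≤ x ^ 4 := by positivity
  nlinarith

private theorem qu_u {x D a P U : ℤ} (hx : 1 ≤ x) (hD : |D| ≤ x) (ha : |a| ≤ 3 * x)
    (hP : |P| ≤ 3 * x) (h : 4 * P ^ 3 = U ^ 2 + 27 * a ^ 2 * D) :
    |U| ≤ 400000 * x ^ 4 := by
  have h1 : U ^ 2 ≤ 400000 * x ^ 4 := by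
    have h2 : 4 * P ^ 3 ≤ 4 * |P| ^ 3 := by
      rw [← abs_pow]
      have := le_abs_self (P ^ 3)
      linarith
    have h3 : -(27 * a ^ 2 * D) ≤ 27 * |a| ^ 2 * |D| := by
      refine (neg_le_abs _).trans (le_of_eq ?_)
      rw [abs_mul, abs_mul, abs_pow]
      rfl
    have h4 : 4 * |P| ^ 3 ≤ 4 * (3 * x) ^ 3 := by gcongr
    have h5 : 27 * |a| ^ 2 * |D| ≤ 27 * (3 * x) ^ 2 * x := by gcongr
    have h6 : x ^ 3 ≤ x ^ 4 := qu_pow hx (by norm_num)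
    have h7 : 0 ≤ x ^ 4 := by positivity
    nlinarith
  have h2 := Int.le_self_sq U
  have h3 := Int.le_self_sq (-U)
  rw [neg_sq] at h3
  rw [abs_le]
  constructor <;> linarith

theorem quad_U (ε : ℝ) (hε : 0 < ε) : ∃ C : ℝ, 0 < C ∧ ∀ (X : ℕ), 1 ≤ X → ∀ A B G : ℤ,
    A ≠ 0 → |A| ≤ 4 * X → |B| ≤ 6 * X → |G| ≤ X → ∀ a P : ℤ, 1 ≤ a → a ≤ A0 X →
    |P| ≤ P0 X → 16 * A * P ^ 3 + 27 * (B ^ 2 - 4 * A * G) * a ^ 2 ≠ 0 →
    ((US (QS A B G) X a P).ncard : ℝ) ≤ C * (X : ℝ) ^ ε := by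
  classical
  obtain ⟨C, hC, h⟩ := pell (ε / 4) (by positivity)
  refine ⟨C * (400000 : ℝ) ^ (ε / 4), by positivity,
    fun X hX A B G hA hA1 hB hG a P ha ha1 hP hk => ?_⟩
  have hx : (1 : ℤ) ≤ X := by exact_mod_cast hX
  have h3X : ((Nat.sqrt (3 * X) : ℕ) : ℤ) ≤ 3 * X := by
    have := Nat.sqrt_le_self (3 * X)
    omega
  have hA0 : ((A0 X : ℕ) : ℤ) ≤ 3 * X := by
    have h1 := Nat.sqrt_le_self (Nat.sqrt (3 * X))
    have h2 : (A0 X : ℤ) ≤ (Nat.sqrt (3 * X) : ℕ) := by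
      unfold A0
      exact_mod_cast h1
    exact h2.trans h3X
  have ha2 : |a| ≤ 3 * X := by
    rw [abs_of_nonneg (by omega)]
    exact ha1.trans hA0
  have hP2 : |P| ≤ 3 * X := hP.trans h3X
  obtain ⟨Z, hZ⟩ : ∃ Z : ℕ, Z = 400000 * X ^ 4 := ⟨_, rfl⟩
  have hZ' : (Z : ℤ) = 400000 * (X : ℤ) ^ 4 := by
    rw [hZ]
    push_cast
    rfl
  have hx4 : (X : ℤ) ≤ (X : ℤ) ^ 4 := by
    have := qu_pow hx (show 1 ≤ 4 by norm_num)
    rwa [pow_one] at this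
  have hZ1 : 1 ≤ Z := by
    have : (1 : ℤ) ≤ Z := by
      rw [hZ']
      linarith
    exact_mod_cast this
  obtain ⟨g, hg⟩ : ∃ g : ℤ, g = -108 * A := ⟨_, rfl⟩
  obtain ⟨k, hkk⟩ : ∃ k : ℤ, k = 27 * (16 * A * P ^ 3 + 27 * (B ^ 2 - 4 * A * G) * a ^ 2) :=
    ⟨_, rfl⟩
  have hg0 : g ≠ 0 := by
    rw [hg]
    exact mul_ne_zero (by norm_num) hA
  have hk0 : k ≠ 0 := by
    rw [hkk]
    exact mul_ne_zero (by norm_num) hk
  have hgZ : |g| ≤ Z := by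
    rw [hg, abs_mul, hZ']
    have : |(-108 : ℤ)| = 108 := rfl
    rw [this]
    linarith
  have hkZ : |k| ≤ Z := by
    rw [hkk, hZ']
    exact qu_k hx hA1 hB hG ha2 hP2
  have h1 := h Z hZ1 g k hg0 hk0 hgZ hkZ
  have h2 : (US (QS A B G) X a P).ncard ≤ (Sol g k Z).card := by
    have h3 : US (QS A B G) X a P ⊆ (((Sol g k Z).image Prod.snd : Finset ℤ) : Set ℤ) := by
      rintro U ⟨D, ⟨n, hn⟩, hD, hU⟩
      have hnX : |n| ≤ 7 * X := quad_n X hX A B G n hA hB hG (by rw [← hn]; exact hD)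
      rw [Finset.mem_coe, Finset.mem_image]
      refine ⟨(27 * a * (2 * A * n + B), U), ?_, rfl⟩
      rw [Sol, Finset.mem_filter, Finset.mem_product, Finset.mem_Icc, Finset.mem_Icc]
      refine ⟨⟨?_, ?_⟩, ?_⟩
      · rw [← abs_le, hZ']
        exact qu_z hx hA1 hB hnX ha2
      · rw [← abs_le, hZ']
        exact qu_u hx hD ha2 hP2 hU
      · change (27 * a * (2 * A * n + B)) ^ 2 - g * U ^ 2 = k
        rw [hg, hkk]
        rw [hn] at hU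
        linear_combination (-108 * A) * hU
    calc (US (QS A B G) X a P).ncard
        ≤ (((Sol g k Z).image Prod.snd : Finset ℤ) : Set ℤ).ncard :=
          Set.ncard_le_ncard h3 (Finset.finite_toSet _)
      _ = ((Sol g k Z).image Prod.snd).card := Set.ncard_coe_finset _
      _ ≤ (Sol g k Z).card := Finset.card_image_le
  have hX0 : (0 : ℝ) ≤ X := Nat.cast_nonneg X
  calc ((US (QS A B G) X a P).ncard : ℝ) ≤ ((Sol g k Z).card : ℝ) := by exact_mod_cast h2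
    _ ≤ C * (Z : ℝ) ^ (ε / 4) := h1
    _ = C * (400000 : ℝ) ^ (ε / 4) * (X : ℝ) ^ ε := by
      rw [hZ]
      push_cast
      rw [Real.mul_rpow (by norm_num) (by positivity), ← Real.rpow_natCast (X : ℝ) 4,
        ← Real.rpow_mul hX0, mul_assoc]
      congr 3
      push_cast
      ring

end FQ
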