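import Pool.Agent.Lib.MP_fc64da_nt.Q.Defs

/-!
Sizes of the bounds.
-/

namespace FQ

private theorem A0_pow (X : ℕ) : A0 X ^ 4 ≤ 3 * X := by
  have h1 : A0 X * A0 X ≤ Nat.sqrt (3 * X) := Nat.sqrt_le _
  have h2 : Nat.sqrt (3 * X) * Nat.sqrt (3 * X) ≤ 3 * X := Nat.sqrt_le _
  calc A0 X ^ 4 = (A0 X * A0 X) * (A0 X * A0 X) := by ring
    _ ≤ Nat.sqrt (3 * X) * Nat.sqrt (3 * X) := Nat.mul_le_mul h1 h1
    _ ≤ 3 * X := h2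

private theorem rp_pow (X : ℕ) (a : ℝ) (n : ℕ) (b : ℕ) (h : a * n = b) :
    ((X : ℝ) ^ a) ^ n = (X : ℝ) ^ b := by
  rw [← Real.rpow_natCast ((X : ℝ) ^ a) n, ← Real.rpow_mul (Nat.cast_nonneg X), h,
    Real.rpow_natCast]

theorem A0_le (X : ℕ) : (A0 X : ℝ) ≤ 2 * (X : ℝ) ^ (1 / 4 : ℝ) := by
  have h1 : (A0 X : ℝ) ^ 4 ≤ 3 * X := by exact_mod_cast A0_pow X
  have h2 : ((X : ℝ) ^ (1 / 4 : ℝ)) ^ 4 = (X : ℝ) ^ 1 := rp_pow X _ 4 1 (by norm_num)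
  have h3 : (0 : ℝ) ≤ X := Nat.cast_nonneg X
  refine le_of_pow_le_pow_left₀ (n := 4) (by norm_num) (by positivity) ?_
  rw [mul_pow, h2, pow_one]
  linarith

theorem PI_card (X : ℕ) : ((PI X).card : ℝ) ≤ 4 * (X : ℝ) ^ (1 / 2 : ℝ) := by
  have h1 : P0 X * P0 X ≤ 3 * X := Nat.sqrt_le _
  have h1' : (P0 X : ℝ) ^ 2 ≤ 3 * X := by
    rw [pow_two]
    exact_mod_cast h1
  have h2 : ((X : ℝ) ^ (1 / 2 : ℝ)) ^ 2 = (X : ℝ) ^ 1 := rp_pow X _ 2 1 (by norm_num)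
  have h3 : (0 : ℝ) ≤ X := Nat.cast_nonneg X
  have h4 : (P0 X : ℝ) ≤ 2 * (X : ℝ) ^ (1 / 2 : ℝ) := by
    refine le_of_pow_le_pow_left₀ (n := 2) (by norm_num) (by positivity) ?_
    rw [mul_pow, h2, pow_one]
    linarith
  have h5 : (PI X).card = 2 * P0 X := by
    have h6 : (0 : ℤ) ∈ Finset.Icc (-(P0 X : ℤ)) (P0 X) := by
      rw [Finset.mem_Icc]
      constructor <;> omega
    unfold PI
    rw [Finset.card_erase_of_mem h6, Int.card_Icc]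
    omega
  rw [h5]
  push_cast
  linarith

theorem V0_le (X : ℕ) : (V0 X : ℝ) ≤ 7 * (X : ℝ) ^ (3 / 4 : ℝ) := by
  have h1 : V0 X * V0 X ≤ 27 * (A0 X) ^ 2 * X := Nat.sqrt_le _
  have h2 : V0 X ^ 4 ≤ 7 ^ 4 * X ^ 3 := by
    calc V0 X ^ 4 = (V0 X * V0 X) * (V0 X * V0 X) := by ring
      _ ≤ (27 * (A0 X) ^ 2 * X) * (27 * (A0 X) ^ 2 * X) := Nat.mul_le_mul h1 h1
      _ = 729 * X ^ 2 * A0 X ^ 4 := by ring
      _ ≤ 729 * X ^ 2 * (3 * X) := Nat.mul_le_mul_left _ (A0_pow X)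
      _ = 2187 * X ^ 3 := by ring
      _ ≤ 7 ^ 4 * X ^ 3 := Nat.mul_le_mul_right _ (by norm_num)
  have h3 : (V0 X : ℝ) ^ 4 ≤ 7 ^ 4 * (X : ℝ) ^ 3 := by exact_mod_cast h2
  have h4 : ((X : ℝ) ^ (3 / 4 : ℝ)) ^ 4 = (X : ℝ) ^ 3 := rp_pow X _ 4 3 (by norm_num)
  refine le_of_pow_le_pow_left₀ (n := 4) (by norm_num) (by positivity) ?_
  rw [mul_pow, h4]
  exact h3

theorem A0_crude (X : ℕ) (hX : 1 ≤ X) : A0 X ≤ 3 * X := by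
  exact (Nat.sqrt_le_self _).trans (Nat.sqrt_le_self _)

theorem P0_crude (X : ℕ) (hX : 1 ≤ X) : P0 X ≤ 3 * X := by
  exact Nat.sqrt_le_self _

theorem one_le_A0 (X : ℕ) (hX : 1 ≤ X) : 1 ≤ A0 X := by
  unfold A0
  rw [Nat.le_sqrt, Nat.le_sqrt]
  omega

end FQ
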