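import Pool.Agent.Lib.MP_fc64da_nt.Q.Fam
import Pool.Agent.Lib.MP_fc64da_nt.Q.QuadU
import Pool.Agent.Lib.MP_fc64da_nt.Q.QuadM
import Pool.Agent.Lib.MP_fc64da_nt.Q.Sz

/-!
Part 1. fam_le with S = QS A B G; quad_norm: either `few` for all (a, P), or the normal form:
quad_U for the (a, P) with 16 A P^3 + 27 Δ a^2 not 0; for every a at most one P gives 0
(P^3 is determined), and there quad_deg.
-/

open NumberField

namespace FQ

/-- at most one P is exceptional. -/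
private theorem exc_card (s : Finset ℤ) (A c : ℤ) (hA : A ≠ 0) :
    (s.filter fun P => 16 * A * P ^ 3 + c = 0).card ≤ 1 := by
  rw [Finset.card_le_one]
  intro P hP Q hQ
  have h1 := (Finset.mem_filter.1 hP).2
  have h2 := (Finset.mem_filter.1 hQ).2
  have h3 : 16 * A * P ^ 3 = 16 * A * Q ^ 3 := by linarith
  have h4 : (16 * A : ℤ) ≠ 0 := mul_ne_zero (by norm_num) hA
  exact (Odd.strictMono_pow (show Odd 3 by decide)).injective (mul_left_cancel₀ h4 h3)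

private theorem sum_exc (s : Finset ℤ) (A c : ℤ) (hA : A ≠ 0) (F : ℤ → ℕ) {u v : ℝ}
    (hv : 0 ≤ v) (h1 : ∀ P ∈ s, 16 * A * P ^ 3 + c ≠ 0 → (F P : ℝ) ≤ u) (hu : 0 ≤ u)
    (h2 : ∀ P ∈ s, (F P : ℝ) ≤ v) : ((∑ P ∈ s, F P : ℕ) : ℝ) ≤ s.card * u + v := by
  classical
  rw [Nat.cast_sum]
  have h3 : ∀ P ∈ s, (F P : ℝ) ≤ u + if 16 * A * P ^ 3 + c = 0 then v else 0 := by
    intro P hP
    split_ifs with h
    · linarith [h2 P hP]
    · linarith [h1 P hP h]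
  refine (Finset.sum_le_sum h3).trans ?_
  rw [Finset.sum_add_distrib, Finset.sum_const, nsmul_eq_mul, ← Finset.sum_filter,
    Finset.sum_const, nsmul_eq_mul]
  have h4 : (((s.filter fun P => 16 * A * P ^ 3 + c = 0).card : ℕ) : ℝ) ≤ 1 := by
    exact_mod_cast exc_card s A c hA
  nlinarith

theorem part_quad (ε : ℝ) (hε : 0 < ε) : ∃ C : ℝ, 0 < C ∧ ∀ (X : ℕ), 1 ≤ X → ∀ A B G : ℤ,
    A ≠ 0 → ∀ (m : ℕ) (K : Fin m → Type) [∀ i, Field (K i)] [∀ i, NumberField (K i)],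
    (∀ i, Module.finrank ℚ (K i) = 3) →
    (∀ i, discr (K i) ∈ QS A B G ∧ |discr (K i)| ≤ X) →
    (∀ i j, Nonempty (K i ≃+* K j) → i = j) →
    (m : ℝ) ≤ C * (X : ℝ) ^ (3 / 4 + ε : ℝ) := by
  obtain ⟨C, hC, hU⟩ := quad_U ε hε
  refine ⟨8 * C + 71, by positivity, fun X hX A B G hA m K _ _ h3 hS hiso => ?_⟩
  have hX1 : (1 : ℝ) ≤ X := by exact_mod_cast hX
  have hX0 : (0 : ℝ) < X := by linarith
  obtain ⟨q, hq⟩ : ∃ q, q = (X : ℝ) ^ (3 / 4 : ℝ) := ⟨_, rfl⟩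
  obtain ⟨r, hr⟩ : ∃ r, r = (X : ℝ) ^ (3 / 4 + ε : ℝ) := ⟨_, rfl⟩
  obtain ⟨x₁, hx₁⟩ : ∃ r, r = (X : ℝ) ^ (1 / 4 : ℝ) := ⟨_, rfl⟩
  obtain ⟨x₂, hx₂⟩ : ∃ r, r = (X : ℝ) ^ (1 / 2 : ℝ) := ⟨_, rfl⟩
  obtain ⟨x₃, hx₃⟩ : ∃ r, r = (X : ℝ) ^ ε := ⟨_, rfl⟩
  have hq1 : 1 ≤ q := hq ▸ Real.one_le_rpow hX1 (by norm_num)
  have hqr : q ≤ r := by
    rw [hq, hr]
    exact Real.rpow_le_rpow_of_exponent_le hX1 (by linarith)
  have h12 : x₁ * x₂ = q := by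
    rw [hx₁, hx₂, hq, ← Real.rpow_add hX0]
    norm_num
  have h123 : x₁ * x₂ * x₃ = r := by
    rw [hx₁, hx₂, hx₃, hr, ← Real.rpow_add hX0, ← Real.rpow_add hX0]
    norm_num
  have hx₁0 : 0 ≤ x₁ := hx₁ ▸ Real.rpow_nonneg hX0.le _
  have hx₂0 : 0 ≤ x₂ := hx₂ ▸ Real.rpow_nonneg hX0.le _
  have hx₃0 : 0 ≤ x₃ := hx₃ ▸ Real.rpow_nonneg hX0.le _
  have hsq : √(X : ℝ) = x₂ := by rw [hx₂, Real.sqrt_eq_rpow]
  have hA0 : (A0 X : ℝ) ≤ 2 * x₁ := hx₁ ▸ A0_le X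
  have hPI : ((PI X).card : ℝ) ≤ 4 * x₂ := hx₂ ▸ PI_card X
  have hV0 : (V0 X : ℝ) ≤ 7 * q := hq ▸ V0_le X
  have hr0 : 0 ≤ r := by linarith
  rw [← hr]
  -- the sum over the parameters
  have key : ∀ (u : ℝ), 0 ≤ u → (∀ a ∈ Finset.Icc 1 (A0 X),
      ((∑ P ∈ PI X, (US (QS A B G) X a P).ncard : ℕ) : ℝ) ≤ u) →
      (m : ℝ) ≤ 2 * x₁ * u + 14 * q + 1 := by
    intro u hu h
    have h1 := fam_le (QS A B G) X m K h3 hS hiso
    have h2 : (m : ℝ) ≤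
        ((∑ a ∈ Finset.Icc 1 (A0 X), ∑ P ∈ PI X, (US (QS A B G) X a P).ncard : ℕ) : ℝ) +
          (2 * (V0 X : ℝ) + 1) := by exact_mod_cast h1
    rw [Nat.cast_sum] at h2
    have h4 := Finset.sum_le_sum h
    rw [Finset.sum_const, nsmul_eq_mul, Nat.card_Icc, Nat.add_sub_cancel] at h4
    have h5 : (A0 X : ℝ) * u ≤ 2 * x₁ * u := mul_le_mul_of_nonneg_right hA0 hu
    linarith
  rcases quad_norm X A B G hA with ⟨D₁, D₂, hD⟩ | ⟨B', G', hQ, hA', hB', hG'⟩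
  · have h1 := key (4 * x₂ * 4) (by positivity) fun a _ => by
      rw [Nat.cast_sum]
      have h2 : ∀ P ∈ PI X, ((US (QS A B G) X a P).ncard : ℝ) ≤ 4 := fun P _ => by
        exact_mod_cast few (QS A B G) X a P D₁ D₂ hD
      refine (Finset.sum_le_sum h2).trans ?_
      rw [Finset.sum_const, nsmul_eq_mul]
      linarith
    have h2 : 2 * x₁ * (4 * x₂ * 4) = 32 * q := by
      rw [← h12]
      ring
    rw [h2] at h1
    nlinarith
  · have h1 := key (4 * x₂ * (C * x₃) + 12 * x₂) (by positivity) fun a ha => by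
      rw [Finset.mem_Icc] at ha
      have h2 := sum_exc (PI X) A (27 * (B' ^ 2 - 4 * A * G') * (a : ℤ) ^ 2) hA
        (fun P => (US (QS A B G) X a P).ncard) (u := C * x₃) (v := 12 * x₂) (by positivity)
        (fun P hP hne => ?_) (by positivity) (fun P _ => ?_)
      · refine h2.trans ?_
        have h5 : ((PI X).card : ℝ) * (C * x₃) ≤ 4 * x₂ * (C * x₃) :=
          mul_le_mul_of_nonneg_right hPI (by positivity)
        linarith
      · change ((US (QS A B G) X a P).ncard : ℝ) ≤ _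
        rw [hQ, hx₃]
        have hP' : P ∈ Finset.Icc (-(P0 X : ℤ)) (P0 X) := Finset.mem_of_mem_erase hP
        rw [Finset.mem_Icc] at hP'
        exact hU X hX A B' G' hA hA' hB' hG' a P (by exact_mod_cast ha.1)
          (by exact_mod_cast ha.2) (abs_le.2 hP') hne
      · change ((US (QS A B G) X a P).ncard : ℝ) ≤ _
        rw [← hsq]
        exact quad_deg X hX A B G a P hA
    have h2 : 2 * x₁ * (4 * x₂ * (C * x₃) + 12 * x₂) = 8 * C * r + 24 * q := by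
      rw [← h12, ← h123]
      ring
    rw [h2] at h1
    nlinarith

end FQ
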